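import Mathlib

set_option autoImplicit false

/-!
A random matrix with entries in Fin 4: in each rectangle the number of entries at least 2 is at
most a logarithmic factor times the perimeter plus the number of entries 0 (and likewise 1).
-/

namespace Pool.Agent.R35.BC

open Finset

variable {X B : Type} [Fintype X] [Fintype B] [DecidableEq X] [DecidableEq B]

/-- number of entries at least 2 in the rectangle -/
def zc (l : X × B → Fin 4) (S : Finset X) (T : Finset B) : ℕ :=
  ((S ×ˢ T).filter (fun p => 2 ≤ l p)).card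

/-- number of entries v in the rectangle -/
def vc (v : Fin 4) (l : X × B → Fin 4) (S : Finset X) (T : Finset B) : ℕ :=
  ((S ×ˢ T).filter (fun p => l p = v)).card

theorem weight_sum (v : Fin 4) (hv : v = 0 ∨ v = 1) (S : Finset X) (T : Finset B) :
    ∑ l : X × B → Fin 4, (5 / 4 : ℝ) ^ (zc l S T) * (1 / 2 : ℝ) ^ (vc v l S T) =
      (4 : ℝ) ^ (Fintype.card (X × B)) := by
  let g : Fin 4 → ℝ := fun u => (if 2 ≤ u then (5 / 4 : ℝ) else 1) * (if u = v then (1 / 2) else 1)
  let f : X × B → Fin 4 → ℝ := fun p u => if p ∈ S ×ˢ T then g u else 1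
  have h1 : ∀ l : X × B → Fin 4, (5 / 4 : ℝ) ^ (zc l S T) * (1 / 2 : ℝ) ^ (vc v l S T) =
      ∏ p, f p (l p) := by
    intro l
    simp only [f, g]
    rw [Finset.prod_ite_mem, Finset.univ_inter, Finset.prod_mul_distrib, Finset.prod_ite,
      Finset.prod_ite]
    simp [zc, vc, div_pow]
  have h2 : ∀ p, ∑ u, f p u = 4 := by
    intro p
    simp only [f]
    by_cases hp : p ∈ S ×ˢ T
    · simp only [hp, if_true, g, Fin.sum_univ_four]
      rcases hv with rfl | rfl
      · norm_num [Fin.le_def, Fin.ext_iff]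
      · norm_num [Fin.le_def, Fin.ext_iff]
    · simp only [hp, if_false, Finset.sum_const, Finset.card_univ, Fintype.card_fin]
      norm_num
  rw [Finset.sum_congr rfl (fun l _ => h1 l), ← Fintype.prod_sum, Finset.prod_congr rfl
    (fun p _ => h2 p), Finset.prod_const, Finset.card_univ]

/-- Markov inequality for one rectangle. -/
theorem markov (v : Fin 4) (hv : v = 0 ∨ v = 1) (S : Finset X) (T : Finset B) (c : ℝ)
    (hc : 0 < c) :
    ((univ.filter (fun l : X × B → Fin 4 =>
      c < (5 / 4 : ℝ) ^ (zc l S T) * (1 / 2 : ℝ) ^ (vc v l S T))).card : ℝ) ≤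
      (4 : ℝ) ^ (Fintype.card (X × B)) / c := by
  rw [le_div_iff₀ hc, ← weight_sum v hv S T, ← nsmul_eq_mul]
  calc _ ≤ ∑ l ∈ univ.filter (fun l : X × B → Fin 4 =>
        c < (5 / 4 : ℝ) ^ (zc l S T) * (1 / 2 : ℝ) ^ (vc v l S T)),
        (5 / 4 : ℝ) ^ (zc l S T) * (1 / 2 : ℝ) ^ (vc v l S T) := by
        rw [← Finset.sum_const]
        apply Finset.sum_le_sum
        intro l hl
        exact (Finset.mem_filter.1 hl).2.le
    _ ≤ _ := by
        apply Finset.sum_le_sum_of_subset_of_nonneg (Finset.filter_subset _ _)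
        intro l _ _
        positivity

/-- Union bound. -/
theorem union_bound (v : Fin 4) (hv : v = 0 ∨ v = 1) (Q : ℝ) (hQ : 0 < Q)
    (hQ8 : 8 * ((Fintype.card X : ℝ) + Fintype.card B) ≤ Q) :
    7 * ((univ.filter (fun l : X × B → Fin 4 => ∃ S : Finset X, ∃ T : Finset B,
      Q ^ (S.card + T.card) < (5 / 4 : ℝ) ^ (zc l S T) * (1 / 2 : ℝ) ^ (vc v l S T))).card : ℝ) ≤
      (4 : ℝ) ^ (Fintype.card (X × B)) := by
  classical
  set K : ℝ := (4 : ℝ) ^ (Fintype.card (X × B)) with hK
  have hKpos : 0 < K := by positivity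
  let bad : Finset X × Finset B → Finset (X × B → Fin 4) := fun P =>
    univ.filter (fun l : X × B → Fin 4 =>
      Q ^ (P.1.card + P.2.card) < (5 / 4 : ℝ) ^ (zc l P.1 P.2) * (1 / 2 : ℝ) ^ (vc v l P.1 P.2))
  have hsub : (univ.filter (fun l : X × B → Fin 4 => ∃ S : Finset X, ∃ T : Finset B,
      Q ^ (S.card + T.card) < (5 / 4 : ℝ) ^ (zc l S T) * (1 / 2 : ℝ) ^ (vc v l S T))) ⊆
      univ.biUnion bad := by
    intro l hl
    simp only [Finset.mem_filter, Finset.mem_univ, true_and] at hl
    obtain ⟨S, T, h⟩ := hl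
    rw [Finset.mem_biUnion]
    refine ⟨(S, T), Finset.mem_univ _, ?_⟩
    simp only [bad, Finset.mem_filter, Finset.mem_univ, true_and]
    exact h
  have h1 : ((univ.filter (fun l : X × B → Fin 4 => ∃ S : Finset X, ∃ T : Finset B,
      Q ^ (S.card + T.card) < (5 / 4 : ℝ) ^ (zc l S T) * (1 / 2 : ℝ) ^ (vc v l S T))).card : ℝ)
      ≤ ∑ P : Finset X × Finset B, ((bad P).card : ℝ) := by
    have := (Finset.card_le_card hsub).trans Finset.card_biUnion_le
    exact_mod_cast this
  have h2 : ∀ P : Finset X × Finset B, ((bad P).card : ℝ) ≤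
      K * ((1 / Q) ^ P.1.card * (1 / Q) ^ P.2.card) - if P = (∅, ∅) then K else 0 := by
    intro P
    by_cases hP : P = (∅, ∅)
    · have hb : bad P = ∅ := by
        rw [hP]
        simp only [bad]
        rw [Finset.filter_eq_empty_iff]
        intro l _
        simp [zc, vc]
      rw [hb, if_pos hP, hP]
      simp
    · rw [if_neg hP, sub_zero]
      have := markov v hv P.1 P.2 (Q ^ (P.1.card + P.2.card)) (by positivity)
      refine this.trans (le_of_eq ?_)
      rw [hK, pow_add, one_div, inv_pow, inv_pow, div_eq_mul_inv, mul_inv]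
  have h3 : ∑ P : Finset X × Finset B, (K * ((1 / Q) ^ P.1.card * (1 / Q) ^ P.2.card) -
      if P = (∅, ∅) then K else 0) =
      K * ((1 + 1 / Q) ^ Fintype.card X * (1 + 1 / Q) ^ Fintype.card B) - K := by
    rw [Finset.sum_sub_distrib, Finset.sum_ite_eq' univ ((∅, ∅) : Finset X × Finset B),
      if_pos (Finset.mem_univ _), ← Finset.mul_sum, Fintype.sum_prod_type]
    have hX := Fintype.sum_pow_mul_eq_add_pow X (1 / Q) (1 : ℝ)
    have hB := Fintype.sum_pow_mul_eq_add_pow B (1 / Q) (1 : ℝ)
    simp only [one_pow, mul_one] at hX hB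
    rw [add_comm] at hX hB
    rw [add_comm 1 (1 / Q), ← add_comm (1 : ℝ) (1 / Q)]
    rw [← hX, ← hB, Finset.sum_mul_sum]
  have h4 : (1 + 1 / Q) ^ Fintype.card X * (1 + 1 / Q) ^ Fintype.card B ≤ (8 / 7 : ℝ) := by
    rw [← pow_add]
    have e1 : (1 + 1 / Q) ≤ Real.exp (1 / Q) := by
      rw [add_comm]; exact Real.add_one_le_exp _
    have e2 : (1 + 1 / Q) ^ (Fintype.card X + Fintype.card B) ≤
        Real.exp (1 / Q) ^ (Fintype.card X + Fintype.card B) :=
      pow_le_pow_left₀ (by positivity) e1 _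
    rw [← Real.exp_nat_mul] at e2
    have e3 : ((Fintype.card X + Fintype.card B : ℕ) : ℝ) * (1 / Q) ≤ 1 / 8 := by
      rw [mul_one_div, div_le_iff₀ hQ]
      push_cast
      linarith
    have e4 : Real.exp (((Fintype.card X + Fintype.card B : ℕ) : ℝ) * (1 / Q)) ≤
        Real.exp (1 / 8) := Real.exp_le_exp.2 e3
    have e5 : (7 / 8 : ℝ) ≤ Real.exp (-(1 / 8)) := by
      have := Real.add_one_le_exp (-(1 / 8 : ℝ))
      linarith
    have e6 : Real.exp (1 / 8 : ℝ) ≤ 8 / 7 := by
      rw [Real.exp_neg] at e5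
      have h0 := Real.exp_pos (1 / 8 : ℝ)
      rw [le_inv_comm₀ (by norm_num) h0] at e5
      norm_num at e5 ⊢
      exact e5
    linarith
  have h5 := h1.trans ((Finset.sum_le_sum (fun P _ => h2 P)).trans (le_of_eq h3))
  have h6 : K * ((1 + 1 / Q) ^ Fintype.card X * (1 + 1 / Q) ^ Fintype.card B) ≤ K * (8 / 7) :=
    mul_le_mul_of_nonneg_left h4 hKpos.le
  linarith

/-- At least half of the matrices have at least half of the entries at least 2. -/
theorem half_zeros : Fintype.card (X × B → Fin 4) ≤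
    2 * (univ.filter (fun l : X × B → Fin 4 =>
      Fintype.card (X × B) ≤ 2 * zc l univ univ)).card := by
  classical
  set A := univ.filter (fun l : X × B → Fin 4 => Fintype.card (X × B) ≤ 2 * zc l univ univ)
    with hA
  have h1 : A.card + (univ \ A).card = Fintype.card (X × B → Fin 4) := by
    rw [← Finset.card_univ]
    have := Finset.card_sdiff_add_card_eq_card (Finset.subset_univ A)
    omega
  have h2 : (univ \ A).card ≤ A.card := by
    apply Finset.card_le_card_of_injOn (fun l => fun p => l p + 2)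
    · intro l hl
      simp only [Finset.coe_sdiff, Finset.coe_univ, Set.mem_sdiff, Set.mem_univ, true_and, hA,
        Finset.mem_coe, Finset.mem_filter, Finset.mem_univ, not_le] at hl
      simp only [hA, Finset.mem_coe, Finset.mem_filter, Finset.mem_univ, true_and]
      have h3 : zc l univ univ + zc (fun p => l p + 2) univ univ = Fintype.card (X × B) := by
        simp only [zc, Finset.univ_product_univ]
        rw [← Finset.card_univ, ← Finset.card_filter_add_card_filter_not (s := univ)
          (fun p : X × B => 2 ≤ l p)]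
        congr 2
        ext p
        simp only [Finset.mem_filter, Finset.mem_univ, true_and]
        generalize l p = u
        revert u
        decide
      omega
    · intro l _ l' _ h
      funext p
      have := congrFun h p
      exact add_right_cancel this
  omega

/-- Existence of a good matrix. -/
theorem exists_good (q : ℕ) (hq : 8 * (Fintype.card X + Fintype.card B) ≤ 2 ^ q) :
    ∃ l : X × B → Fin 4, Fintype.card (X × B) ≤ 2 * zc l univ univ ∧
      (∀ S T, zc l S T ≤ (4 * q + 3) * (S.card + T.card + vc 0 l S T)) ∧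
      (∀ S T, zc l S T ≤ (4 * q + 3) * (S.card + T.card + vc 1 l S T)) := by
  classical
  set Q : ℝ := 2 ^ q with hQdef
  have hQ : 0 < Q := by positivity
  have hQ8 : 8 * ((Fintype.card X : ℝ) + Fintype.card B) ≤ Q := by
    rw [hQdef]; exact_mod_cast hq
  have hb0 := union_bound (X := X) (B := B) 0 (Or.inl rfl) Q hQ hQ8
  have hb1 := union_bound (X := X) (B := B) 1 (Or.inr rfl) Q hQ hQ8
  have hz := half_zeros (X := X) (B := B)
  set B0 := (univ.filter (fun l : X × B → Fin 4 => ∃ S : Finset X, ∃ T : Finset B,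
      Q ^ (S.card + T.card) < (5 / 4 : ℝ) ^ (zc l S T) * (1 / 2 : ℝ) ^ (vc 0 l S T)))
  set B1 := (univ.filter (fun l : X × B → Fin 4 => ∃ S : Finset X, ∃ T : Finset B,
      Q ^ (S.card + T.card) < (5 / 4 : ℝ) ^ (zc l S T) * (1 / 2 : ℝ) ^ (vc 1 l S T)))
  set A := univ.filter (fun l : X × B → Fin 4 => Fintype.card (X × B) ≤ 2 * zc l univ univ)
  have hcard : (Fintype.card (X × B → Fin 4) : ℝ) = (4 : ℝ) ^ (Fintype.card (X × B)) := by
    rw [Fintype.card_fun, Fintype.card_fin]
    push_cast
    rfl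
  have hpos : (0 : ℝ) < (4 : ℝ) ^ (Fintype.card (X × B)) := by positivity
  have hne : (A \ (B0 ∪ B1)).Nonempty := by
    rw [← Finset.card_pos]
    have h1 : A.card ≤ (A \ (B0 ∪ B1)).card + (B0 ∪ B1).card :=
      Finset.card_le_card_sdiff_add_card
    have h2 : (B0 ∪ B1).card ≤ B0.card + B1.card := Finset.card_union_le _ _
    have h3 : ((A \ (B0 ∪ B1)).card : ℝ) > 0 := by
      have h1' : (A.card : ℝ) ≤ (A \ (B0 ∪ B1)).card + (B0 ∪ B1).card := by exact_mod_cast h1
      have h2' : ((B0 ∪ B1).card : ℝ) ≤ B0.card + B1.card := by exact_mod_cast h2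
      have hz' : (Fintype.card (X × B → Fin 4) : ℝ) ≤ 2 * (A.card : ℝ) := by exact_mod_cast hz
      rw [hcard] at hz'
      linarith
    exact_mod_cast h3
  obtain ⟨l, hl⟩ := hne
  rw [Finset.mem_sdiff, Finset.mem_union, not_or] at hl
  obtain ⟨hlA, hl0, hl1⟩ := hl
  have conv : ∀ (v : Fin 4) (S : Finset X) (T : Finset B),
      (5 / 4 : ℝ) ^ (zc l S T) * (1 / 2 : ℝ) ^ (vc v l S T) ≤ Q ^ (S.card + T.card) →
      zc l S T ≤ (4 * q + 3) * (S.card + T.card + vc v l S T) := by
    intro v S T h
    by_cases h0 : S.card + T.card = 0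
    · have hS : S = ∅ := Finset.card_eq_zero.1 (by omega)
      subst hS
      simp [zc]
    set Z := zc l S T
    set V := vc v l S T
    have h1 : (2 : ℝ) ^ (Z / 4) ≤ (5 / 4 : ℝ) ^ Z := by
      calc (2 : ℝ) ^ (Z / 4) ≤ ((5 / 4 : ℝ) ^ 4) ^ (Z / 4) :=
            pow_le_pow_left₀ (by norm_num) (by norm_num) _
        _ = (5 / 4 : ℝ) ^ (4 * (Z / 4)) := by rw [← pow_mul]
        _ ≤ (5 / 4 : ℝ) ^ Z := pow_le_pow_right₀ (by norm_num) (by omega)
    have h2 : (5 / 4 : ℝ) ^ Z ≤ 2 ^ (q * (S.card + T.card) + V) := by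
      rw [one_div, inv_pow, ← div_eq_mul_inv, div_le_iff₀ (by positivity), hQdef, ← pow_mul,
        ← pow_add] at h
      exact h
    have h3 : (2 : ℝ) ^ (Z / 4) ≤ 2 ^ (q * (S.card + T.card) + V) := h1.trans h2
    have h4 : Z / 4 ≤ q * (S.card + T.card) + V :=
      (pow_le_pow_iff_right₀ (by norm_num : (1 : ℝ) < 2)).1 h3
    have h5 : Z ≤ 4 * (q * (S.card + T.card) + V) + 3 := by omega
    have h6 : 1 ≤ S.card + T.card := by omega
    calc Z ≤ 4 * (q * (S.card + T.card) + V) + 3 := h5
      _ ≤ 4 * (q * (S.card + T.card) + V) + 3 * (S.card + T.card) := by omega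
      _ ≤ (4 * q + 3) * (S.card + T.card + V) := by
        by_cases hq0 : q = 0
        · exfalso
          subst hq0
          have hX : S.card ≤ Fintype.card X := Finset.card_le_univ _
          have hB : T.card ≤ Fintype.card B := Finset.card_le_univ _
          simp only [pow_zero] at hq
          omega
        · have : 4 * V ≤ (4 * q + 3) * V := Nat.mul_le_mul_right _ (by omega)
          nlinarith
  refine ⟨l, (Finset.mem_filter.1 hlA).2, ?_, ?_⟩
  · intro S T
    apply conv
    by_contra h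
    push Not at h
    exact hl0 (Finset.mem_filter.2 ⟨Finset.mem_univ _, S, T, h⟩)
  · intro S T
    apply conv
    by_contra h
    push Not at h
    exact hl1 (Finset.mem_filter.2 ⟨Finset.mem_univ _, S, T, h⟩)

end Pool.Agent.R35.BC
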