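import Mathlib

set_option autoImplicit false

/-!
The recursive construction: words over X against rows with entries negative, zero, positive.
-/

namespace Pool.Agent.R35.BC

open Finset Classical

/-- number of related pairs in a rectangle -/
noncomputable def cnt {α β : Type} (E : α → β → Prop) (S : Finset α) (T : Finset β) : ℕ :=
  ∑ a ∈ S, (T.filter (fun b => E a b)).card

theorem cnt_le {α β : Type} (E : α → β → Prop) (S : Finset α) (T : Finset β) :
    cnt E S T ≤ S.card * T.card := by
  unfold cnt
  calc _ ≤ ∑ a ∈ S, T.card := Finset.sum_le_sum (fun a _ => Finset.card_filter_le _ _)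
    _ = _ := by rw [Finset.sum_const, smul_eq_mul]

theorem cnt_zero {α β : Type} (E : α → β → Prop) (S : Finset α) (T : Finset β)
    (h : ∀ a ∈ S, ∀ b ∈ T, ¬ E a b) : cnt E S T = 0 := by
  unfold cnt
  apply Finset.sum_eq_zero
  intro a ha
  rw [Finset.card_eq_zero, Finset.filter_eq_empty_iff]
  exact fun b hb => h a ha b hb

/-- The properties carried along the recursion. -/
structure Good {α B : Type} (N : ℕ) (E E' : α → B → Prop) (L C : ℝ) : Prop where
  sub : ∀ a b, E' a b → E a b
  sparse : ∀ (S : Finset α) (T : Finset B), (∀ a ∈ S, ∀ b ∈ T, E a b) →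
    (cnt E' S T : ℝ) ≤ L * (S.card + T.card)
  dense : ∀ k : ℝ, 1 / 2 ≤ k → ∀ (S : Finset α) (T : Finset B),
    (∀ S' ⊆ S, ∀ T' ⊆ T, (∀ a ∈ S', ∀ b ∈ T', E a b) →
      (S'.card : ℝ) * T'.card ≤ k * (S'.card + T'.card)) →
    (cnt E S T : ℝ) ≤ k * (C * N * (S.card + T.card))

/-- The properties of the matrix. -/
structure Mat {X B : Type} (neg zer pos : X → B → Prop) (Λ : ℝ) : Prop where
  nz : ∀ x b, neg x b → ¬ zer x b
  pz : ∀ x b, pos x b → ¬ zer x b
  np : ∀ x b, neg x b → ¬ pos x b
  all : ∀ x b, neg x b ∨ zer x b ∨ pos x b
  hneg : ∀ (S : Finset X) (T : Finset B),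
    (cnt zer S T : ℝ) ≤ Λ * (S.card + T.card + cnt neg S T)
  hpos : ∀ (S : Finset X) (T : Finset B),
    (cnt zer S T : ℝ) ≤ Λ * (S.card + T.card + cnt pos S T)

theorem base {X B : Type} [Fintype X] {neg zer pos : X → B → Prop} {Λ : ℝ}
    (hM : Mat neg zer pos Λ) : Good (Fintype.card X) zer zer Λ 2 := by
  refine ⟨fun _ _ h => h, ?_, ?_⟩
  · intro S T h
    have h1 := hM.hpos S T
    have h2 : cnt pos S T = 0 := cnt_zero _ _ _ (fun a ha b hb hp => hM.pz a b hp (h a ha b hb))
    rw [h2] at h1
    simpa using h1
  · intro k hk S T _
    have h1 : (cnt zer S T : ℝ) ≤ (S.card : ℝ) * T.card := by exact_mod_cast cnt_le zer S T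
    have h2 : (S.card : ℝ) ≤ Fintype.card X := by exact_mod_cast Finset.card_le_univ S
    have h3 : (0 : ℝ) ≤ T.card := Nat.cast_nonneg _
    have h4 : (0 : ℝ) ≤ S.card := Nat.cast_nonneg _
    have h5 : (0 : ℝ) ≤ Fintype.card X := Nat.cast_nonneg _
    calc (cnt zer S T : ℝ) ≤ (S.card : ℝ) * T.card := h1
      _ ≤ Fintype.card X * T.card := mul_le_mul_of_nonneg_right h2 h3
      _ ≤ (2 * k) * (Fintype.card X * T.card) :=
        le_mul_of_one_le_left (mul_nonneg h5 h3) (by linarith)
      _ ≤ (2 * k) * (Fintype.card X * (S.card + T.card)) := by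
        apply mul_le_mul_of_nonneg_left _ (by linarith)
        exact mul_le_mul_of_nonneg_left (by linarith) h5
      _ = _ := by ring

/-- The slice of S at x. -/
noncomputable def slice {X α : Type} (S : Finset (X × α)) (x : X) : Finset α :=
  (S.filter (fun p => p.1 = x)).image Prod.snd

theorem mem_slice {X α : Type} (S : Finset (X × α)) (x : X) (a : α) :
    a ∈ slice S x ↔ (x, a) ∈ S := by
  unfold slice
  simp only [Finset.mem_image, Finset.mem_filter, Prod.exists]
  constructor
  · rintro ⟨x', a', ⟨h, rfl⟩, rfl⟩; exact h
  · intro h; exact ⟨x, a, ⟨h, rfl⟩, rfl⟩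

theorem sum_slice {X α : Type} [Fintype X] {M : Type} [AddCommMonoid M] (S : Finset (X × α))
    (f : X → α → M) : ∑ p ∈ S, f p.1 p.2 = ∑ x, ∑ a ∈ slice S x, f x a := by
  apply Finset.sum_finset_product
  intro p
  simp [mem_slice]

theorem card_slice {X α : Type} [Fintype X] (S : Finset (X × α)) :
    S.card = ∑ x, (slice S x).card := by
  have := sum_slice S (fun _ _ => 1)
  simpa using this

/-- The new relation. -/
def E2 {X α B : Type} (neg zer : X → B → Prop) (E : α → B → Prop) : X × α → B → Prop :=
  fun p b => neg p.1 b ∨ (zer p.1 b ∧ E p.2 b)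

/-- The new tight relation. -/
def T2 {X α B : Type} (zer : X → B → Prop) (E : α → B → Prop) : X × α → B → Prop :=
  fun p b => zer p.1 b ∧ E p.2 b

theorem cnt_T2 {X α B : Type} [Fintype X] (zer : X → B → Prop) (E : α → B → Prop)
    (S : Finset (X × α)) (T : Finset B) :
    cnt (T2 zer E) S T = ∑ x, cnt E (slice S x) (T.filter (fun b => zer x b)) := by
  unfold cnt
  refine (sum_slice S (fun x a => (T.filter (fun b => T2 zer E (x, a) b)).card)).trans ?_
  apply Finset.sum_congr rfl
  intro x _
  apply Finset.sum_congr rfl
  intro a _
  congr 1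
  ext b
  rw [Finset.mem_filter, Finset.mem_filter, Finset.mem_filter]
  unfold T2
  tauto

theorem cnt_E2 {X α B : Type} [Fintype X] {neg zer pos : X → B → Prop} {Λ : ℝ}
    (hM : Mat neg zer pos Λ) (E : α → B → Prop) (S : Finset (X × α)) (T : Finset B) :
    cnt (E2 neg zer E) S T = ∑ x, ((slice S x).card * (T.filter (fun b => neg x b)).card +
      cnt E (slice S x) (T.filter (fun b => zer x b))) := by
  unfold cnt
  refine (sum_slice S (fun x a => (T.filter (fun b => E2 neg zer E (x, a) b)).card)).trans ?_
  apply Finset.sum_congr rfl
  intro x _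
  rw [← smul_eq_mul, ← Finset.sum_const, ← Finset.sum_add_distrib]
  apply Finset.sum_congr rfl
  intro a _
  rw [← Finset.card_union_of_disjoint]
  · congr 1
    ext b
    rw [Finset.mem_union, Finset.mem_filter, Finset.mem_filter, Finset.mem_filter,
      Finset.mem_filter]
    unfold E2
    tauto
  · rw [Finset.disjoint_left]
    intro b hb hb'
    rw [Finset.mem_filter] at hb hb'
    rw [Finset.mem_filter] at hb'
    exact hM.nz x b hb.2 hb'.1.2

theorem step {X α B : Type} [Fintype X] {neg zer pos : X → B → Prop} {Λ : ℝ} (hΛ : 0 ≤ Λ)
    (hM : Mat neg zer pos Λ) {E E' : α → B → Prop} {L C : ℝ} (hL : 0 ≤ L) (hC : 0 ≤ C)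
    (hG : Good (Fintype.card X) E E' L C) :
    Good (Fintype.card X) (E2 neg zer E) (T2 zer E') (L * (1 + Λ)) (3 + C * (1 + 5 * Λ)) := by
  refine ⟨?_, ?_, ?_⟩
  · rintro ⟨x, a⟩ b ⟨h1, h2⟩
    exact Or.inr ⟨h1, hG.sub a b h2⟩
  · intro S T hST
    rw [cnt_T2]
    set X' : Finset X := univ.filter (fun x => (slice S x).Nonempty) with hX'
    have hX'card : (X'.card : ℝ) ≤ S.card := by
      have : X'.card ≤ S.card := by
        rw [card_slice S, Finset.card_eq_sum_ones, hX', Finset.sum_filter]
        apply Finset.sum_le_sum
        intro x _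
        split_ifs with h
        · exact h.card_pos
        · exact Nat.zero_le _
      exact_mod_cast this
    have h1 : ∀ x, (cnt E' (slice S x) (T.filter (fun b => zer x b)) : ℝ) ≤
        if x ∈ X' then L * ((slice S x).card + (T.filter (fun b => zer x b)).card) else 0 := by
      intro x
      split_ifs with hx
      · apply hG.sparse
        intro a ha b hb
        rw [mem_slice] at ha
        rw [Finset.mem_filter] at hb
        rcases hST (x, a) ha b hb.1 with h | h
        · exact absurd hb.2 (hM.nz x b h)
        · exact h.2
      · have hne : slice S x = ∅ := by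
          rw [hX', Finset.mem_filter, not_and] at hx
          exact Finset.not_nonempty_iff_eq_empty.1 (hx (Finset.mem_univ _))
        rw [hne]
        simp [cnt]
    have h2 : (cnt zer X' T : ℝ) ≤ Λ * (X'.card + T.card) := by
      have h3 := hM.hpos X' T
      have h4 : cnt pos X' T = 0 := by
        apply cnt_zero
        intro x hx b hb hp
        rw [hX', Finset.mem_filter] at hx
        obtain ⟨a, ha⟩ := hx.2
        rw [mem_slice] at ha
        rcases hST (x, a) ha b hb with h | h
        · exact hM.np x b h hp
        · exact hM.pz x b hp h.1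
      rw [h4] at h3
      simpa using h3
    have h5 : ∑ x, ((slice S x).card : ℝ) = S.card := by
      rw [card_slice S]; push_cast; rfl
    have h6 : ∑ x ∈ X', ((slice S x).card : ℝ) ≤ S.card := by
      rw [← h5]
      apply Finset.sum_le_sum_of_subset_of_nonneg (Finset.subset_univ _)
      intro x _ _
      exact Nat.cast_nonneg _
    have h7 : ∑ x ∈ X', ((T.filter (fun b => zer x b)).card : ℝ) = cnt zer X' T := by
      unfold cnt; push_cast; rfl
    push_cast
    calc _ ≤ ∑ x, if x ∈ X' then L * ((slice S x).card + ((T.filter (fun b => zer x b)).card : ℝ))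
          else 0 := Finset.sum_le_sum (fun x _ => h1 x)
      _ = ∑ x ∈ X', L * ((slice S x).card + ((T.filter (fun b => zer x b)).card : ℝ)) := by
          rw [Finset.sum_ite_mem, Finset.univ_inter]
      _ = L * (∑ x ∈ X', ((slice S x).card : ℝ) + cnt zer X' T) := by
          rw [← Finset.mul_sum, Finset.sum_add_distrib, h7]
      _ ≤ L * (S.card + Λ * (X'.card + T.card)) := by
          apply mul_le_mul_of_nonneg_left _ hL
          linarith
      _ ≤ L * (S.card + Λ * (S.card + T.card)) := by
          apply mul_le_mul_of_nonneg_left _ hL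
          have : Λ * ((X'.card : ℝ) + T.card) ≤ Λ * (S.card + T.card) :=
            mul_le_mul_of_nonneg_left (by linarith) hΛ
          linarith
      _ ≤ L * (1 + Λ) * (S.card + T.card) := by
          have h8 : (0 : ℝ) ≤ T.card := Nat.cast_nonneg _
          rw [mul_assoc]
          apply mul_le_mul_of_nonneg_left _ hL
          nlinarith
  · intro k hk S T hST
    set N : ℝ := (Fintype.card X : ℝ) with hN
    have hk0 : 0 < k := by linarith
    have hN0 : 0 ≤ N := Nat.cast_nonneg _
    have hS0 : (0 : ℝ) ≤ S.card := Nat.cast_nonneg _
    have hT0 : (0 : ℝ) ≤ T.card := Nat.cast_nonneg _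
    by_cases hcase : (T.card : ℝ) ≤ k * N
    · have h1 : (cnt (E2 neg zer E) S T : ℝ) ≤ (S.card : ℝ) * T.card := by
        exact_mod_cast cnt_le _ S T
      calc _ ≤ (S.card : ℝ) * T.card := h1
        _ ≤ S.card * (k * N) := mul_le_mul_of_nonneg_left hcase hS0
        _ = k * (N * S.card) := by ring
        _ ≤ k * ((3 + C * (1 + 5 * Λ)) * N * (S.card + T.card)) := by
            apply mul_le_mul_of_nonneg_left _ hk0.le
            have h2 : 0 ≤ C * (1 + 5 * Λ) := mul_nonneg hC (by linarith)
            have h3 : N * S.card ≤ N * (S.card + T.card) :=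
              mul_le_mul_of_nonneg_left (by linarith) hN0
            have h4 : 0 ≤ N * (S.card + T.card) := mul_nonneg hN0 (by linarith)
            nlinarith [mul_nonneg h2 h4]
    · push Not at hcase
      -- bicliques inside a slice
      have hbic1 : ∀ x, ((slice S x).card : ℝ) * (T.filter (fun b => neg x b)).card ≤
          k * ((slice S x).card + (T.filter (fun b => neg x b)).card) := by
        intro x
        have := hST ((slice S x).image (Prod.mk x)) (by
          intro p hp
          rw [Finset.mem_image] at hp
          obtain ⟨a, ha, rfl⟩ := hp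
          exact (mem_slice _ _ _).1 ha) (T.filter (fun b => neg x b)) (Finset.filter_subset _ _)
          (by
            intro p hp b hb
            rw [Finset.mem_image] at hp
            obtain ⟨a, ha, rfl⟩ := hp
            exact Or.inl (Finset.mem_filter.1 hb).2)
        rwa [Finset.card_image_of_injective _ (Prod.mk_right_injective x)] at this
      have hbic2 : ∀ x, ∀ S' ⊆ slice S x, ∀ T' ⊆ T.filter (fun b => zer x b),
          (∀ a ∈ S', ∀ b ∈ T', E a b) → (S'.card : ℝ) * T'.card ≤ k * (S'.card + T'.card) := by
        intro x S' hS' T' hT' hE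
        have := hST (S'.image (Prod.mk x)) (by
          intro p hp
          rw [Finset.mem_image] at hp
          obtain ⟨a, ha, rfl⟩ := hp
          exact (mem_slice _ _ _).1 (hS' ha)) T'
          (fun b hb => (Finset.mem_filter.1 (hT' hb)).1)
          (by
            intro p hp b hb
            rw [Finset.mem_image] at hp
            obtain ⟨a, ha, rfl⟩ := hp
            exact Or.inr ⟨(Finset.mem_filter.1 (hT' hb)).2, hE a ha b hb⟩)
        rwa [Finset.card_image_of_injective _ (Prod.mk_right_injective x)] at this
      set X1 : Finset X := univ.filter (fun x => ((T.filter (fun b => neg x b)).card : ℝ) ≤ 2 * k)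
        with hX1
      have hTle : ∀ (p : B → Prop), ((T.filter p).card : ℝ) ≤ T.card := by
        intro p
        exact_mod_cast Finset.card_filter_le _ _
      have hterm : ∀ x, (((slice S x).card * (T.filter (fun b => neg x b)).card +
          cnt E (slice S x) (T.filter (fun b => zer x b)) : ℕ) : ℝ) ≤
          k * ((slice S x).card + T.card) + 2 * k * T.card +
            (if x ∈ X1 then k * (C * N * ((slice S x).card +
              (T.filter (fun b => zer x b)).card)) else 0) := by
        intro x
        push_cast
        have h1 := hbic1 x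
        have h2 := hTle (fun b => neg x b)
        have h3 : k * (((slice S x).card : ℝ) + (T.filter (fun b => neg x b)).card) ≤
            k * ((slice S x).card + T.card) := mul_le_mul_of_nonneg_left (by linarith) hk0.le
        split_ifs with hx
        · have h4 := hG.dense k hk (slice S x) (T.filter (fun b => zer x b)) (hbic2 x)
          have h5 : 0 ≤ 2 * k * (T.card : ℝ) := by positivity
          linarith
        · have hx' : 2 * k < ((T.filter (fun b => neg x b)).card : ℝ) := by
            by_contra hcon
            push Not at hcon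
            exact hx (Finset.mem_filter.2 ⟨Finset.mem_univ _, hcon⟩)
          have h4 : ((slice S x).card : ℝ) ≤ 2 * k := by
            by_contra hcon
            push Not at hcon
            nlinarith
          have h5 : (cnt E (slice S x) (T.filter (fun b => zer x b)) : ℝ) ≤
              (slice S x).card * T.card := by
            have h6 : (cnt E (slice S x) (T.filter (fun b => zer x b)) : ℝ) ≤
              (slice S x).card * (T.filter (fun b => zer x b)).card := by
              exact_mod_cast cnt_le E (slice S x) (T.filter (fun b => zer x b))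
            have h7 : ((slice S x).card : ℝ) * (T.filter (fun b => zer x b)).card ≤
              (slice S x).card * T.card :=
              mul_le_mul_of_nonneg_left (hTle _) (Nat.cast_nonneg _)
            linarith
          have h8 : ((slice S x).card : ℝ) * T.card ≤ 2 * k * T.card :=
            mul_le_mul_of_nonneg_right h4 hT0
          linarith
      have hsl : ∑ x, ((slice S x).card : ℝ) = S.card := by
        rw [card_slice S]; push_cast; rfl
      have hsl1 : ∑ x ∈ X1, ((slice S x).card : ℝ) ≤ S.card := by
        rw [← hsl]
        apply Finset.sum_le_sum_of_subset_of_nonneg (Finset.subset_univ _)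
        intro x _ _
        exact Nat.cast_nonneg _
      have hz1 : ∑ x ∈ X1, ((T.filter (fun b => zer x b)).card : ℝ) = cnt zer X1 T := by
        unfold cnt; push_cast; rfl
      have hX1N : (X1.card : ℝ) ≤ N := by
        rw [hN]; exact_mod_cast Finset.card_le_univ X1
      have hneg1 : (cnt neg X1 T : ℝ) ≤ 2 * (T.card : ℝ) := by
        have h1 : (cnt neg X1 T : ℝ) ≤ ∑ x ∈ X1, 2 * k := by
          unfold cnt
          push_cast
          apply Finset.sum_le_sum
          intro x hx
          exact (Finset.mem_filter.1 hx).2
        rw [Finset.sum_const, nsmul_eq_mul] at h1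
        have h2 : (X1.card : ℝ) * (2 * k) ≤ N * (2 * k) :=
          mul_le_mul_of_nonneg_right hX1N (by linarith)
        nlinarith
      have hN2 : N ≤ 2 * (T.card : ℝ) := by
        have : N ≤ 2 * (k * N) := by nlinarith
        linarith
      have hzer1 : (cnt zer X1 T : ℝ) ≤ Λ * (5 * T.card) := by
        have h1 := hM.hneg X1 T
        refine h1.trans (mul_le_mul_of_nonneg_left ?_ hΛ)
        linarith
      rw [cnt_E2 hM]
      push_cast
      have hsum : ∑ x, (((slice S x).card : ℝ) * (T.filter (fun b => neg x b)).card +
          cnt E (slice S x) (T.filter (fun b => zer x b))) ≤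
          k * (S.card + N * T.card) + N * (2 * k * T.card) +
            k * (C * N * (S.card + Λ * (5 * T.card))) := by
        calc _ ≤ ∑ x, (k * ((slice S x).card + T.card) + 2 * k * T.card +
            (if x ∈ X1 then k * (C * N * ((slice S x).card +
              (T.filter (fun b => zer x b)).card)) else 0)) := by
              apply Finset.sum_le_sum
              intro x _
              have := hterm x
              push_cast at this
              exact this
          _ = k * (S.card + N * T.card) + N * (2 * k * T.card) +
              k * (C * N * (∑ x ∈ X1, ((slice S x).card : ℝ) + cnt zer X1 T)) := by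
              simp only [Finset.sum_add_distrib, Finset.sum_ite_mem, Finset.univ_inter,
                ← Finset.mul_sum, hsl, hz1, Finset.sum_const, Finset.card_univ, nsmul_eq_mul]
              rw [← hN]
              ring
          _ ≤ _ := by
              have h1 : k * (C * N * (∑ x ∈ X1, ((slice S x).card : ℝ) + cnt zer X1 T)) ≤
                  k * (C * N * (S.card + Λ * (5 * T.card))) := by
                apply mul_le_mul_of_nonneg_left _ hk0.le
                apply mul_le_mul_of_nonneg_left _ (mul_nonneg hC hN0)
                linarith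
              linarith
      refine hsum.trans ?_
      have e1 : k * ((S.card : ℝ) + N * T.card) + N * (2 * k * T.card) +
            k * (C * N * (S.card + Λ * (5 * T.card))) =
            k * (S.card + 3 * N * T.card + C * N * (S.card + Λ * (5 * T.card))) := by ring
      rw [e1]
      apply mul_le_mul_of_nonneg_left _ hk0.le
      by_cases hX0 : Fintype.card X = 0
      · have hS : S.card = 0 := by
          have hu : (Finset.univ : Finset X) = ∅ :=
            Finset.card_eq_zero.1 (by rw [Finset.card_univ]; exact hX0)
          rw [card_slice S, hu]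
          simp
        have hNz : N = 0 := by rw [hN, hX0]; simp
        rw [hS, hNz]; simp
      · have hN1 : 1 ≤ N := by
          rw [hN]; exact_mod_cast Nat.one_le_iff_ne_zero.2 hX0
        have f1 : (S.card : ℝ) ≤ N * S.card := le_mul_of_one_le_left hS0 hN1
        have f2 : 0 ≤ N * (S.card : ℝ) := mul_nonneg hN0 hS0
        have f3 : 0 ≤ N * (T.card : ℝ) := mul_nonneg hN0 hT0
        have f4 : 0 ≤ C * (N * (T.card : ℝ)) := mul_nonneg hC f3
        have f5 : 0 ≤ C * (N * (S.card : ℝ)) * Λ := mul_nonneg (mul_nonneg hC f2) hΛ
        nlinarith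

end Pool.Agent.R35.BC
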