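import Mathlib
import Pool.Agent.R35.BCRandom
import Pool.Agent.R35.BCStep

set_option autoImplicit false

/-!
The construction, transported to Fin types.
-/

namespace Pool.Agent.R35.BC

open Finset Classical

/-- the relations read off from a matrix, with row 0 and column 0 made negative -/
def negR {N b : ℕ} (l : Fin (N + 1) × Fin (b + 1) → Fin 4) : Fin (N + 1) → Fin (b + 1) → Prop :=
  fun x y => x = 0 ∨ y = 0 ∨ l (x, y) = 0

/-- zero relation -/
def zerR {N b : ℕ} (l : Fin (N + 1) × Fin (b + 1) → Fin 4) : Fin (N + 1) → Fin (b + 1) → Prop :=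
  fun x y => x ≠ 0 ∧ y ≠ 0 ∧ 2 ≤ l (x, y)

/-- positive relation -/
def posR {N b : ℕ} (l : Fin (N + 1) × Fin (b + 1) → Fin 4) : Fin (N + 1) → Fin (b + 1) → Prop :=
  fun x y => x ≠ 0 ∧ y ≠ 0 ∧ l (x, y) = 1

theorem cnt_eq_card {α β : Type} (E : α → β → Prop) (S : Finset α) (T : Finset β) :
    cnt E S T = ((S ×ˢ T).filter (fun p => E p.1 p.2)).card := by
  unfold cnt
  rw [Finset.card_filter, Finset.sum_product]
  apply Finset.sum_congr rfl
  intro a _
  rw [Finset.card_filter]

theorem cnt_mono {α β : Type} {E E' : α → β → Prop} {S S' : Finset α} {T T' : Finset β}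
    (hS : S ⊆ S') (hT : T ⊆ T') (h : ∀ a ∈ S, ∀ b ∈ T, E a b → E' a b) :
    cnt E S T ≤ cnt E' S' T' := by
  rw [cnt_eq_card, cnt_eq_card]
  apply Finset.card_le_card
  intro p hp
  rw [Finset.mem_filter, Finset.mem_product] at hp ⊢
  exact ⟨⟨hS hp.1.1, hT hp.1.2⟩, h _ hp.1.1 _ hp.1.2 hp.2⟩

theorem exists_mat (N b q : ℕ) (hN : 7 ≤ N) (hb : 7 ≤ b)
    (hq : 8 * ((N + 1) + (b + 1)) ≤ 2 ^ q) :
    ∃ l : Fin (N + 1) × Fin (b + 1) → Fin 4,
      Mat (negR l) (zerR l) (posR l) (4 * q + 3 : ℕ) ∧
      (N + 1) * (b + 1) ≤ 4 * cnt (zerR l) univ univ := by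
  obtain ⟨l, hl, h0, h1⟩ := exists_good (X := Fin (N + 1)) (B := Fin (b + 1)) q
    (by rw [Fintype.card_fin, Fintype.card_fin]; exact hq)
  refine ⟨l, ?_, ?_⟩
  · have hzer : ∀ S T, cnt (zerR l) S T = zc l (S.erase 0) (T.erase 0) := by
      intro S T
      rw [cnt_eq_card, zc]
      congr 1
      ext p
      rw [Finset.mem_filter, Finset.mem_filter, Finset.mem_product, Finset.mem_product,
        Finset.mem_erase, Finset.mem_erase]
      unfold zerR
      tauto
    have hneg : ∀ S T, vc 0 l (S.erase 0) (T.erase 0) ≤ cnt (negR l) S T := by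
      intro S T
      rw [cnt_eq_card, vc]
      apply Finset.card_le_card
      intro p
      rw [Finset.mem_filter, Finset.mem_filter, Finset.mem_product, Finset.mem_product,
        Finset.mem_erase, Finset.mem_erase]
      unfold negR
      tauto
    have hpos : ∀ S T, vc 1 l (S.erase 0) (T.erase 0) ≤ cnt (posR l) S T := by
      intro S T
      rw [cnt_eq_card, vc]
      apply Finset.card_le_card
      intro p
      rw [Finset.mem_filter, Finset.mem_filter, Finset.mem_product, Finset.mem_product,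
        Finset.mem_erase, Finset.mem_erase]
      unfold posR
      tauto
    refine ⟨?_, ?_, ?_, ?_, ?_, ?_⟩
    · rintro x y (h | h | h) ⟨h1, h2, h3⟩
      · exact h1 h
      · exact h2 h
      · rw [h] at h3; exact absurd h3 (by decide)
    · rintro x y ⟨-, -, h⟩ ⟨-, -, h3⟩
      rw [h] at h3; exact absurd h3 (by decide)
    · rintro x y (h | h | h) ⟨h1, h2, h3⟩
      · exact h1 h
      · exact h2 h
      · rw [h] at h3; exact absurd h3 (by decide)
    · intro x y
      unfold negR zerR posR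
      by_cases hx : x = 0
      · exact Or.inl (Or.inl hx)
      by_cases hy : y = 0
      · exact Or.inl (Or.inr (Or.inl hy))
      have : ∀ u : Fin 4, u = 0 ∨ u = 1 ∨ 2 ≤ u := by decide
      rcases this (l (x, y)) with h | h | h
      · exact Or.inl (Or.inr (Or.inr h))
      · exact Or.inr (Or.inr ⟨hx, hy, h⟩)
      · exact Or.inr (Or.inl ⟨hx, hy, h⟩)
    · intro S T
      have e1 := h0 (S.erase 0) (T.erase 0)
      have e2 := Finset.card_erase_le (s := S) (a := 0)
      have e3 := Finset.card_erase_le (s := T) (a := 0)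
      have e4 : cnt (zerR l) S T ≤ (4 * q + 3) * (S.card + T.card + cnt (negR l) S T) := by
        rw [hzer]
        refine e1.trans (Nat.mul_le_mul_left _ ?_)
        have := hneg S T
        omega
      exact_mod_cast e4
    · intro S T
      have e1 := h1 (S.erase 0) (T.erase 0)
      have e2 := Finset.card_erase_le (s := S) (a := 0)
      have e3 := Finset.card_erase_le (s := T) (a := 0)
      have e4 : cnt (zerR l) S T ≤ (4 * q + 3) * (S.card + T.card + cnt (posR l) S T) := by
        rw [hzer]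
        refine e1.trans (Nat.mul_le_mul_left _ ?_)
        have := hpos S T
        omega
      exact_mod_cast e4
  · -- number of zeros
    have e1 : zc l univ univ ≤ cnt (zerR l) univ univ + (N + 1) + (b + 1) := by
      rw [cnt_eq_card, zc]
      have hsub : ((univ ×ˢ univ : Finset (Fin (N + 1) × Fin (b + 1))).filter
          (fun p => 2 ≤ l p)) ⊆
          ((univ ×ˢ univ).filter (fun p => zerR l p.1 p.2)) ∪
          (univ.image (fun x : Fin (N + 1) => (x, (0 : Fin (b + 1)))) ∪
            univ.image (fun y : Fin (b + 1) => ((0 : Fin (N + 1)), y))) := by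
        rintro ⟨x, y⟩ hp
        rw [Finset.mem_filter] at hp
        rw [Finset.mem_union, Finset.mem_union, Finset.mem_image, Finset.mem_image,
          Finset.mem_filter]
        by_cases hx : x = 0
        · right; right; exact ⟨y, Finset.mem_univ _, by rw [hx]⟩
        by_cases hy : y = 0
        · right; left; exact ⟨x, Finset.mem_univ _, by rw [hy]⟩
        left; exact ⟨hp.1, hx, hy, hp.2⟩
      refine (Finset.card_le_card hsub).trans ?_
      refine (Finset.card_union_le _ _).trans ?_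
      have e2 := Finset.card_union_le (univ.image (fun x : Fin (N + 1) => (x, (0 : Fin (b + 1)))))
        (univ.image (fun y : Fin (b + 1) => ((0 : Fin (N + 1)), y)))
      have e3 : (univ.image (fun x : Fin (N + 1) => (x, (0 : Fin (b + 1))))).card ≤ N + 1 := by
        refine Finset.card_image_le.trans ?_
        rw [Finset.card_univ, Fintype.card_fin]
      have e4 : (univ.image (fun y : Fin (b + 1) => ((0 : Fin (N + 1)), y))).card ≤ b + 1 := by
        refine Finset.card_image_le.trans ?_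
        rw [Finset.card_univ, Fintype.card_fin]
      omega
    rw [Fintype.card_prod, Fintype.card_fin, Fintype.card_fin] at hl
    have e5 : 4 * ((N + 1) + (b + 1)) ≤ (N + 1) * (b + 1) := by nlinarith
    omega

/-- the constants -/
noncomputable def Cc (Λ : ℝ) : ℕ → ℝ
  | 0 => 2
  | r + 1 => 3 + Cc Λ r * (1 + 5 * Λ)

theorem Cc_pos (Λ : ℝ) (hΛ : 0 ≤ Λ) (r : ℕ) : 0 < Cc Λ r := by
  induction r with
  | zero => simp [Cc]
  | succ r ih =>
    simp only [Cc]
    have : 0 ≤ Cc Λ r * (1 + 5 * Λ) := mul_nonneg ih.le (by linarith)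
    linarith

theorem Cc_le (Λ : ℝ) (hΛ : 1 ≤ Λ) (r : ℕ) : Cc Λ r ≤ 3 * (1 + 5 * Λ) ^ r - 1 := by
  induction r with
  | zero => simp [Cc]; norm_num
  | succ r ih =>
    simp only [Cc]
    rw [pow_succ]
    have h1 : 0 ≤ 1 + 5 * Λ := by linarith
    have h2 := mul_le_mul_of_nonneg_right ih h1
    nlinarith

theorem exists_struct {X B : Type} [Fintype X] [Fintype B] {neg zer pos : X → B → Prop} {Λ : ℝ}
    (hΛ : 0 ≤ Λ) (hM : Mat neg zer pos Λ) (x0 : X) (b0 : B) (hx0 : ∀ b, neg x0 b)
    (hb0 : ∀ x, neg x b0) (r : ℕ) :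
    ∃ (α : Type) (_ : Fintype α) (E E' : α → B → Prop),
      Fintype.card α = Fintype.card X ^ (r + 2) ∧
      Good (Fintype.card X) E E' (Λ * (1 + Λ) ^ (r + 1)) (Cc Λ (r + 1)) ∧
      (∀ b, (univ.filter (fun a => E' a b)).card =
        (univ.filter (fun x => zer x b)).card ^ (r + 2)) ∧
      (∀ a, ∃ b, E a b) ∧ (∀ b, ∃ a, E a b) ∧ Nonempty α := by
  have key : ∀ r : ℕ, ∃ (α : Type) (_ : Fintype α) (E E' : α → B → Prop),
      Fintype.card α = Fintype.card X ^ (r + 1) ∧
      Good (Fintype.card X) E E' (Λ * (1 + Λ) ^ r) (Cc Λ r) ∧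
      (∀ b, (univ.filter (fun a => E' a b)).card =
        (univ.filter (fun x => zer x b)).card ^ (r + 1)) ∧
      (1 ≤ r → (∀ a, ∃ b, E a b) ∧ (∀ b, ∃ a, E a b)) ∧ Nonempty α := by
    intro r
    induction r with
    | zero =>
      refine ⟨X, inferInstance, zer, zer, by simp, ?_, by simp, by simp, ⟨x0⟩⟩
      simpa [Cc] using base hM
    | succ r ih =>
      obtain ⟨α, hα, E, E', hcard, hG, hE', -, hne⟩ := ih
      refine ⟨X × α, inferInstance, E2 neg zer E, T2 zer E', ?_, ?_, ?_, ?_, ?_⟩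
      · rw [Fintype.card_prod, hcard, ← pow_succ']
      · have h1 := step hΛ hM (L := Λ * (1 + Λ) ^ r) (C := Cc Λ r) (by positivity)
          (Cc_pos Λ hΛ r).le hG
        rw [pow_succ, ← mul_assoc]
        exact h1
      · intro b
        have h1 : (univ.filter (fun a : X × α => T2 zer E' a b)) =
            (univ.filter (fun x => zer x b)) ×ˢ (univ.filter (fun a => E' a b)) := by
          ext p
          rw [Finset.mem_filter, Finset.mem_product, Finset.mem_filter, Finset.mem_filter]
          unfold T2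
          simp
        rw [h1, Finset.card_product, hE' b, ← pow_succ']
      · intro _
        obtain ⟨a0⟩ := hne
        exact ⟨fun p => ⟨b0, Or.inl (hb0 p.1)⟩, fun b => ⟨(x0, a0), Or.inl (hx0 b)⟩⟩
      · obtain ⟨a0⟩ := hne
        exact ⟨(x0, a0)⟩
  obtain ⟨α, hα, E, E', h1, h2, h3, h4, h5⟩ := key (r + 1)
  exact ⟨α, hα, E, E', h1, h2, h3, (h4 (by omega)).1, (h4 (by omega)).2, h5⟩

theorem cnt_equiv {α α' B : Type} (e : α' ≃ α) (E : α → B → Prop) (S : Finset α')
    (T : Finset B) : cnt (fun a b => E (e a) b) S T = cnt E (S.map e.toEmbedding) T := by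
  unfold cnt
  rw [Finset.sum_map]
  rfl

theorem Good.transport {α α' B : Type} {N : ℕ} {E E' : α → B → Prop} {L C : ℝ}
    (hG : Good N E E' L C) (e : α' ≃ α) :
    Good N (fun a b => E (e a) b) (fun a b => E' (e a) b) L C := by
  refine ⟨fun a b h => hG.sub _ _ h, ?_, ?_⟩
  · intro S T h
    rw [cnt_equiv]
    have := hG.sparse (S.map e.toEmbedding) T (by
      intro a ha b hb
      rw [Finset.mem_map] at ha
      obtain ⟨a', ha', rfl⟩ := ha
      exact h a' ha' b hb)
    rwa [Finset.card_map] at this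
  · intro k hk S T h
    rw [cnt_equiv]
    have := hG.dense k hk (S.map e.toEmbedding) T (by
      intro S' hS' T' hT' hE
      have h1 := h (S'.map e.symm.toEmbedding) (by
        intro a ha
        rw [Finset.mem_map] at ha
        obtain ⟨a', ha', rfl⟩ := ha
        have := hS' ha'
        rw [Finset.mem_map] at this
        obtain ⟨a'', h1, h2⟩ := this
        rw [← h2]
        simpa using h1) T' hT' (by
        intro a ha b hb
        rw [Finset.mem_map] at ha
        obtain ⟨a', ha', rfl⟩ := ha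
        have := hE a' ha' b hb
        simpa using this)
      rwa [Finset.card_map] at h1)
    rwa [Finset.card_map] at this

/-- The final object: a relation on Fin m × Fin m, m = N ^ (r+2). -/
theorem exists_final (N r q : ℕ) (hN : 8 ≤ N) (hq : 16 * N ^ (r + 2) ≤ 2 ^ q) :
    ∃ E E' : Fin (N ^ (r + 2)) → Fin (N ^ (r + 2)) → Prop,
      Good N E E' ((4 * q + 3 : ℕ) * (1 + (4 * q + 3 : ℕ)) ^ (r + 1) : ℝ)
        (Cc (4 * q + 3 : ℕ) (r + 1)) ∧
      ((N ^ (r + 2) : ℕ) : ℝ) ^ 2 / 4 ^ (r + 2) ≤ (cnt E' univ univ : ℝ) ∧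
      (∀ a, ∃ b, E a b) ∧ (∀ b, ∃ a, E a b) := by
  obtain ⟨N', rfl⟩ : ∃ N', N = N' + 1 := ⟨N - 1, by omega⟩
  set m := (N' + 1) ^ (r + 2) with hm
  have hmN : N' + 1 ≤ m := by
    rw [hm]; exact Nat.le_self_pow (by omega) _
  obtain ⟨b', hb'⟩ : ∃ b', m = b' + 1 := ⟨m - 1, by omega⟩
  rw [hb']
  obtain ⟨l, hM, hz⟩ := exists_mat N' b' q (by omega) (by omega) (by omega)
  obtain ⟨α, hα, E, E', h1, h2, h3, h4, h5, h6⟩ := exists_struct
    (Λ := ((4 * q + 3 : ℕ) : ℝ)) (Nat.cast_nonneg _) hM 0 0 (fun _ => Or.inl rfl)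
    (fun _ => Or.inr (Or.inl rfl)) r
  rw [Fintype.card_fin, ← hm, hb'] at h1
  have e : Fin (b' + 1) ≃ α := (Fintype.equivFinOfCardEq h1).symm
  refine ⟨fun a b => E (e a) b, fun a b => E' (e a) b, ?_, ?_, ?_, ?_⟩
  · have := h2.transport e
    rwa [Fintype.card_fin] at this
  · -- counting
    have hswap : cnt (fun a b => E' (e a) b) univ univ =
        ∑ b, (univ.filter (fun a => E' a b)).card := by
      have e0 : cnt (fun a b => E' (e a) b) univ univ = cnt E' (univ : Finset α) univ := by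
        rw [cnt_equiv]
        congr 1
        ext a
        simp
      rw [e0]
      unfold cnt
      simp only [Finset.card_filter]
      rw [Finset.sum_comm]
    have hzsum : cnt (zerR l) univ univ = ∑ b, (univ.filter (fun x => zerR l x b)).card := by
      unfold cnt
      simp only [Finset.card_filter]
      rw [Finset.sum_comm]
    rw [hswap]
    push_cast
    rw [Finset.sum_congr rfl (fun b _ => by rw [h3 b])]
    push_cast
    have hj := pow_sum_div_card_le_sum_pow (s := (univ : Finset (Fin (b' + 1))))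
      (f := fun b => ((univ.filter (fun x => zerR l x b)).card : ℝ))
      (fun _ _ => Nat.cast_nonneg _) (r + 1)
    refine le_trans ?_ hj
    rw [Finset.card_univ, Fintype.card_fin]
    have hz' : (((N' + 1) * (b' + 1) : ℕ) : ℝ) / 4 ≤
        ∑ b, ((univ.filter (fun x => zerR l x b)).card : ℝ) := by
      have : ((N' + 1) * (b' + 1) : ℕ) ≤ 4 * ∑ b, (univ.filter (fun x => zerR l x b)).card := by
        rw [← hzsum]; exact hz
      have h7 : (((N' + 1) * (b' + 1) : ℕ) : ℝ) ≤
          4 * ∑ b, ((univ.filter (fun x => zerR l x b)).card : ℝ) := by exact_mod_cast this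
      linarith
    have hbpos : (0 : ℝ) < ((b' + 1 : ℕ) : ℝ) := by positivity
    rw [le_div_iff₀ (by positivity)]
    have h8 : ((((N' + 1) * (b' + 1) : ℕ) : ℝ) / 4) ^ (r + 1 + 1) ≤
        (∑ b, ((univ.filter (fun x => zerR l x b)).card : ℝ)) ^ (r + 1 + 1) :=
      pow_le_pow_left₀ (by positivity) hz' _
    refine le_trans (le_of_eq ?_) h8
    have h9 : ((b' + 1 : ℕ) : ℝ) = ((N' + 1 : ℕ) : ℝ) ^ (r + 2) := by
      rw [← hb', hm]; push_cast; rfl
    have h10 : ((b' : ℝ) + 1) = ((b' + 1 : ℕ) : ℝ) := by push_cast; rfl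
    rw [h10]
    rw [div_pow, Nat.cast_mul, mul_pow]
    rw [show r + 1 + 1 = r + 2 by ring]
    rw [← h9]
    rw [show r + 2 = (r + 1) + 1 by ring, pow_succ ((b' + 1 : ℕ) : ℝ) (r + 1)]
    ring
  · intro a
    exact h4 (e a)
  · intro b
    obtain ⟨a, ha⟩ := h5 b
    exact ⟨e.symm a, by simpa using ha⟩

end Pool.Agent.R35.BC
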