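import Mathlib

set_option autoImplicit false

/-!
A Brooks-type theorem: a connected graph without a clique on q + 2 vertices which is not itself a
clique on q + 1 vertices has a colouring with q colours in which the ends of every monochromatic
edge are told apart by a vertex of another colour adjacent to exactly one of them.
-/

namespace Pool.Agent.R35.Brooks

variable {V : Type*} [DecidableEq V]

/-- The colouring c is good on U: the ends of each monochromatic edge inside U are told apart by a
vertex of U of another colour. -/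
def Good {q : ℕ} (G : SimpleGraph V) (U : Finset V) (c : V → Fin q) : Prop :=
  ∀ u ∈ U, ∀ v ∈ U, G.Adj u v → c u = c v → ∃ w ∈ U, c w ≠ c u ∧ ¬ (G.Adj w u ↔ G.Adj w v)

theorem step_main (G : SimpleGraph V) {q : ℕ} (hfree : G.CliqueFree (q + 2)) (U : Finset V)
    (y : V) (hy : y ∉ U) (c : V → Fin q) (hc : Good G U c)
    (x : Fin q → V) (hxU : ∀ l, x l ∈ U) (hxc : ∀ l, c (x l) = l) (hxy : ∀ l, G.Adj y (x l))
    (hx : ∀ l, ∀ w ∈ U, c w ≠ l → (G.Adj w y ↔ G.Adj w (x l)))
    (k j : Fin q) (hjk : j ≠ k) (s : V) (hsU : s ∈ U) (hsc : c s = k) (hsx : s ≠ x k)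
    (hs : ¬ (G.Adj s y ↔ G.Adj s (x k))) :
    ∃ c' : V → Fin q, Good G (insert y U) c' := by
  classical
  have hyx : ∀ l, y ≠ x l := fun l h => hy (h ▸ hxU l)
  have hyU : ∀ v ∈ U, v ≠ y := fun v hv h => hy (h ▸ hv)
  have hxadj : ∀ l m, l ≠ m → G.Adj (x l) (x m) := by
    intro l m hlm
    have := (hx m (x l) (hxU l) (by rw [hxc]; exact hlm)).1 (hxy l).symm
    exact this
  have hxinj : Function.Injective x := by
    intro l m h
    rw [← hxc l, ← hxc m, h]
  -- cliques
  have hcl : ∀ S : Finset (Fin q), G.IsNClique S.card (S.image x) := by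
    intro S
    constructor
    · intro a ha b hb hab
      simp only [Finset.coe_image, Set.mem_image, Finset.mem_coe] at ha hb
      obtain ⟨l, -, rfl⟩ := ha
      obtain ⟨m, -, rfl⟩ := hb
      exact hxadj l m (fun h => hab (by rw [h]))
    · exact Finset.card_image_of_injective _ hxinj
  have hK1 : ∀ t ∈ U, t ≠ x (c t) → G.Adj t y → ¬ G.Adj t (x (c t)) := by
    intro t ht htx hty htx2
    have h1 := hcl Finset.univ
    have h2 : G.IsNClique _ _ := h1.insert (a := y) (by
      intro b hb
      simp only [Finset.mem_image, Finset.mem_univ, true_and] at hb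
      obtain ⟨l, rfl⟩ := hb
      exact hxy l)
    have h3 : G.IsNClique _ _ := h2.insert (a := t) (by
      intro b hb
      simp only [Finset.mem_insert, Finset.mem_image, Finset.mem_univ, true_and] at hb
      rcases hb with rfl | ⟨l, rfl⟩
      · exact hty
      · by_cases hl : c t = l
        · rw [← hl]; exact htx2
        · exact (hx l t ht hl).1 hty)
    rw [Finset.card_univ, Fintype.card_fin] at h3
    exact hfree _ h3
  have hK2 : ∀ t ∈ U, ∀ t' ∈ U, c t = j → c t' = j → G.Adj t y → G.Adj t' y → ¬ G.Adj t t' := by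
    intro t ht t' ht' hct hct' hty hty' htt'
    have h1 := hcl (Finset.univ.erase j)
    have h2 : G.IsNClique _ _ := h1.insert (a := y) (by
      intro b hb
      simp only [Finset.mem_image] at hb
      obtain ⟨l, -, rfl⟩ := hb
      exact hxy l)
    have h3 : G.IsNClique _ _ := h2.insert (a := t) (by
      intro b hb
      simp only [Finset.mem_insert, Finset.mem_image, Finset.mem_erase, Finset.mem_univ,
        and_true] at hb
      rcases hb with rfl | ⟨l, hl, rfl⟩
      · exact hty
      · exact (hx l t ht (by rw [hct]; exact hl.symm)).1 hty)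
    have h4 : G.IsNClique _ _ := h3.insert (a := t') (by
      intro b hb
      simp only [Finset.mem_insert, Finset.mem_image, Finset.mem_erase, Finset.mem_univ,
        and_true] at hb
      rcases hb with rfl | rfl | ⟨l, hl, rfl⟩
      · exact htt'.symm
      · exact hty'
      · exact (hx l t' ht' (by rw [hct']; exact hl.symm)).1 hty')
    rw [Finset.card_erase_of_mem (Finset.mem_univ _), Finset.card_univ, Fintype.card_fin] at h4
    have hq : q - 1 + 1 + 1 + 1 = q + 2 := by
      have := j.pos
      omega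
    rw [hq] at h4
    exact hfree _ h4
  -- the set T
  set T : Finset V := U.filter (fun t => c t = j ∧ t ≠ x j ∧ G.Adj t y ∧
    ∃ t' ∈ U, c t' = j ∧ t' ≠ x j ∧ ¬ G.Adj t' y ∧ ∀ w ∈ U, c w ≠ j → w ≠ x k →
      (G.Adj w t ↔ G.Adj w t')) with hT
  have hTmem : ∀ t, t ∈ T ↔ t ∈ U ∧ c t = j ∧ t ≠ x j ∧ G.Adj t y ∧
    ∃ t' ∈ U, c t' = j ∧ t' ≠ x j ∧ ¬ G.Adj t' y ∧ ∀ w ∈ U, c w ≠ j → w ≠ x k →
      (G.Adj w t ↔ G.Adj w t') := by
    intro t; rw [hT, Finset.mem_filter]
  set c' : V → Fin q := fun v => if v = y then j else if v = x k then j else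
    if v = x j ∨ v ∈ T then k else c v with hc'
  have c'y : c' y = j := by simp [hc']
  have c'xk : c' (x k) = j := by
    simp [hc', (hyx k).symm]
  have c'xj : c' (x j) = k := by
    have h0 : x j ≠ x k := fun h => hjk (hxinj h)
    simp [hc', (hyx j).symm, h0]
  have c'T : ∀ t ∈ T, c' t = k := by
    intro t ht
    have h1 := (hTmem t).1 ht
    simp only [hc']
    rw [if_neg (hyU t h1.1), if_neg, if_pos (Or.inr ht)]
    intro h
    apply hjk
    rw [← h1.2.1, h, hxc]
  have c'else : ∀ v, v ≠ y → v ≠ x k → v ≠ x j → v ∉ T → c' v = c v := by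
    intro v h1 h2 h3 h4
    simp only [hc']
    rw [if_neg h1, if_neg h2, if_neg (by tauto)]
  -- other vertices with other colours
  have c'other : ∀ v ∈ U, c v ≠ j → v ≠ x k → c' v = c v := by
    intro v hv hvj hvk
    apply c'else v (hyU v hv) hvk
    · intro h; apply hvj; rw [h, hxc]
    · intro h; exact hvj ((hTmem v).1 h).2.1
  -- classification
  have hclass : ∀ v ∈ insert y U, (v = y ∨ v = x k ∨ v = x j ∨ v ∈ T) ∨
      (v ∈ U ∧ v ≠ y ∧ v ≠ x k ∧ v ≠ x j ∧ v ∉ T ∧ c' v = c v) := by
    intro v hv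
    by_cases h1 : v = y
    · left; left; exact h1
    by_cases h2 : v = x k
    · left; right; left; exact h2
    by_cases h3 : v = x j
    · left; right; right; left; exact h3
    by_cases h4 : v ∈ T
    · left; right; right; right; exact h4
    right
    exact ⟨Finset.mem_of_mem_insert_of_ne hv h1, h1, h2, h3, h4, c'else v h1 h2 h3 h4⟩
  have hUy : ∀ v ∈ U, v ∈ insert y U := fun v hv => Finset.mem_insert_of_mem hv
  have hyin : y ∈ insert y U := Finset.mem_insert_self _ _
  -- class k pairs
  -- (a)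
  have pa : ∀ t ∈ T, ∀ r ∈ U, c r = k → r ≠ x k →
      ∃ w ∈ insert y U, c' w ≠ k ∧ ¬ (G.Adj w t ↔ G.Adj w r) := by
    intro t ht r hr hrc hrx
    obtain ⟨htU, htc, htx, hty, -⟩ := (hTmem t).1 ht
    by_cases hry : G.Adj r y
    · refine ⟨x k, hUy _ (hxU k), by rw [c'xk]; exact hjk, ?_⟩
      have h1 : ¬ G.Adj r (x k) := by
        have := hK1 r hr (by rw [hrc]; exact hrx) hry
        rwa [hrc] at this
      have h2 : G.Adj t (x k) := (hx k t htU (by rw [htc]; exact hjk)).1 hty
      intro h
      exact h1 (h.1 h2.symm).symm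
    · refine ⟨y, hyin, by rw [c'y]; exact hjk, ?_⟩
      intro h
      exact hry (h.1 hty.symm).symm
  have pd : ∀ r ∈ U, c r = k → r ≠ x k → G.Adj r (x j) →
      ∃ w ∈ insert y U, c' w ≠ k ∧ ¬ (G.Adj w (x j) ↔ G.Adj w r) := by
    intro r hr hrc hrx hrxj
    have hry : G.Adj r y := (hx j r hr (by rw [hrc]; exact hjk.symm)).2 hrxj
    have h1 : ¬ G.Adj r (x k) := by
      have := hK1 r hr (by rw [hrc]; exact hrx) hry
      rwa [hrc] at this
    refine ⟨x k, hUy _ (hxU k), by rw [c'xk]; exact hjk, ?_⟩
    intro h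
    exact h1 (h.1 (hxadj k j hjk.symm)).symm
  have pe : ∀ r ∈ U, ∀ r' ∈ U, c r = k → c r' = k → r ≠ x k → r' ≠ x k → G.Adj r r' →
      ∃ w ∈ insert y U, c' w ≠ k ∧ ¬ (G.Adj w r ↔ G.Adj w r') := by
    intro r hr r' hr' hrc hrc' hrx hrx' hadj
    obtain ⟨w, hwU, hwc, hw⟩ := hc r hr r' hr' hadj (by rw [hrc, hrc'])
    rw [hrc] at hwc
    by_cases hwj : w = x j
    · refine ⟨y, hyin, by rw [c'y]; exact hjk, ?_⟩
      subst hwj
      have h1 := hx j r hr (by rw [hrc]; exact hjk.symm)
      have h2 := hx j r' hr' (by rw [hrc']; exact hjk.symm)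
      intro h
      apply hw
      rw [G.adj_comm (x j) r, G.adj_comm (x j) r', ← h1, ← h2, G.adj_comm r y, G.adj_comm r' y]
      exact h
    by_cases hwT : w ∈ T
    · obtain ⟨-, hwc2, hwx, hwy, w', hw'U, hw'c, hw'x, hw'y, hww'⟩ := (hTmem w).1 hwT
      have h1 := hww' r hr (by rw [hrc]; exact hjk.symm) hrx
      have h2 := hww' r' hr' (by rw [hrc']; exact hjk.symm) hrx'
      refine ⟨w', hUy _ hw'U, ?_, ?_⟩
      · have h3 : c' w' = c w' := by
          apply c'else w' (hyU _ hw'U) _ hw'x
          · intro h; exact hw'y ((hTmem w').1 h).2.2.2.1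
          · intro h; apply hjk; rw [← hw'c, h, hxc]
        rw [h3, hw'c]; exact hjk
      · intro h
        apply hw
        rw [G.adj_comm w r, G.adj_comm w r', h1, h2, G.adj_comm r w', G.adj_comm r' w']
        exact h
    · refine ⟨w, hUy _ hwU, ?_, hw⟩
      rw [c'else w (hyU _ hwU) _ hwj hwT]
      · exact hwc
      · intro h; apply hwc; rw [h, hxc]
  -- class j pairs
  have pf : ∃ w ∈ insert y U, c' w ≠ j ∧ ¬ (G.Adj w y ↔ G.Adj w (x k)) := by
    refine ⟨s, hUy _ hsU, ?_, hs⟩
    rw [c'other s hsU (by rw [hsc]; exact hjk.symm) hsx, hsc]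
    exact hjk.symm
  have hnj : ∀ t ∈ U, c t = j → t ≠ x j → G.Adj t y → ¬ G.Adj t (x j) := by
    intro t ht htc htx hty
    have := hK1 t ht (by rw [htc]; exact htx) hty
    rwa [htc] at this
  have pg : ∀ t ∈ U, c t = j → t ≠ x j → G.Adj t y →
      ∃ w ∈ insert y U, c' w ≠ j ∧ ¬ (G.Adj w y ↔ G.Adj w t) := by
    intro t ht htc htx hty
    refine ⟨x j, hUy _ (hxU j), by rw [c'xj]; exact hjk.symm, ?_⟩
    intro h
    exact hnj t ht htc htx hty (h.1 (hxy j).symm).symm
  have ph : ∀ t ∈ U, c t = j → t ≠ x j → G.Adj t (x k) →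
      ∃ w ∈ insert y U, c' w ≠ j ∧ ¬ (G.Adj w (x k) ↔ G.Adj w t) := by
    intro t ht htc htx htxk
    have hty : G.Adj t y := (hx k t ht (by rw [htc]; exact hjk)).2 htxk
    refine ⟨x j, hUy _ (hxU j), by rw [c'xj]; exact hjk.symm, ?_⟩
    intro h
    exact hnj t ht htc htx hty (h.1 (hxadj j k hjk)).symm
  have pi1 : ∀ t ∈ U, ∀ t' ∈ U, c t = j → c t' = j → t ≠ x j → t' ≠ x j → t ∉ T →
      G.Adj (x k) t → ¬ G.Adj (x k) t' →
      ∃ w ∈ insert y U, c' w ≠ j ∧ ¬ (G.Adj w t ↔ G.Adj w t') := by
    intro t ht t' ht' htc htc' htx htx' htT hxt hxt'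
    have hty : G.Adj t y := (hx k t ht (by rw [htc]; exact hjk)).2 hxt.symm
    have hty' : ¬ G.Adj t' y := fun h => hxt' ((hx k t' ht' (by rw [htc']; exact hjk)).1 h).symm
    by_cases hex : ∃ w ∈ U, c w ≠ j ∧ w ≠ x k ∧ ¬ (G.Adj w t ↔ G.Adj w t')
    · obtain ⟨w, hwU, hwc, hwx, hw⟩ := hex
      refine ⟨w, hUy _ hwU, ?_, hw⟩
      rw [c'other w hwU hwc hwx]; exact hwc
    · push Not at hex
      exfalso
      apply htT
      rw [hTmem]
      refine ⟨ht, htc, htx, hty, t', ht', htc', htx', hty', ?_⟩
      intro w hwU hwc hwx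
      exact hex w hwU hwc hwx
  have pi2 : ∀ t ∈ U, ∀ t' ∈ U, c t = j → c t' = j → t ≠ x j → t' ≠ x j → t ∉ T → t' ∉ T →
      G.Adj t t' → ∃ w ∈ insert y U, c' w ≠ j ∧ ¬ (G.Adj w t ↔ G.Adj w t') := by
    intro t ht t' ht' htc htc' htx htx' htT htT' hadj
    obtain ⟨w, hwU, hwc, hw⟩ := hc t ht t' ht' hadj (by rw [htc, htc'])
    rw [htc] at hwc
    by_cases hwx : w = x k
    · subst hwx
      by_cases h1 : G.Adj (x k) t
      · have h2 : ¬ G.Adj (x k) t' := fun h => hw ⟨fun _ => h, fun _ => h1⟩
        exact pi1 t ht t' ht' htc htc' htx htx' htT h1 h2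
      · have h2 : G.Adj (x k) t' := by
          by_contra h
          exact hw ⟨fun h' => absurd h' h1, fun h' => absurd h' h⟩
        obtain ⟨w, h3, h4, h5⟩ := pi1 t' ht' t ht htc' htc htx' htx htT' h2 h1
        exact ⟨w, h3, h4, fun h => h5 h.symm⟩
    · refine ⟨w, hUy _ hwU, ?_, hw⟩
      rw [c'other w hwU hwc hwx]; exact hwc
  have pm : ∀ u ∈ U, ∀ v ∈ U, c u = c v → c u ≠ j → c u ≠ k → G.Adj u v →
      ∃ w ∈ insert y U, c' w ≠ c u ∧ ¬ (G.Adj w u ↔ G.Adj w v) := by
    intro u hu v hv huv huj huk hadj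
    obtain ⟨w, hwU, hwc, hw⟩ := hc u hu v hv hadj huv
    refine ⟨w, hUy _ hwU, ?_, hw⟩
    rcases hclass w (hUy _ hwU) with (h | h | h | h) | h
    · rw [h, c'y]; exact huj.symm
    · rw [h, c'xk]; exact huj.symm
    · rw [h, c'xj]; exact huk.symm
    · rw [c'T w h]; exact huk.symm
    · rw [h.2.2.2.2.2]; exact hwc
  have hsymm : ∀ (a b : V) (m : Fin q), (∃ w ∈ insert y U, c' w ≠ m ∧ ¬ (G.Adj w a ↔ G.Adj w b)) →
      (∃ w ∈ insert y U, c' w ≠ m ∧ ¬ (G.Adj w b ↔ G.Adj w a)) := by
    rintro a b m ⟨w, h1, h2, h3⟩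
    exact ⟨w, h1, h2, fun h => h3 h.symm⟩
  refine ⟨c', ?_⟩
  intro u hu v hv hadj huv
  rcases hclass u hu with (h | h | h | h) | ⟨huU, huy, huk, huj, huT, huc⟩
  · -- u = y
    subst h
    rw [c'y] at huv ⊢
    rcases hclass v hv with (h | h | h | h) | ⟨hvU, hvy, hvk, hvj, hvT, hvc⟩
    · subst h; exact absurd hadj (G.loopless.irrefl _)
    · subst h; exact pf
    · subst h; rw [c'xj] at huv; exact absurd huv hjk
    · rw [c'T v h] at huv; exact absurd huv hjk
    · exact pg v hvU (by rw [← hvc, ← huv]) hvj hadj.symm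
  · -- u = x k
    subst h
    rw [c'xk] at huv ⊢
    rcases hclass v hv with (h | h | h | h) | ⟨hvU, hvy, hvk, hvj, hvT, hvc⟩
    · subst h; exact hsymm _ _ _ pf
    · subst h; exact absurd hadj (G.loopless.irrefl _)
    · subst h; rw [c'xj] at huv; exact absurd huv hjk
    · rw [c'T v h] at huv; exact absurd huv hjk
    · exact ph v hvU (by rw [← hvc, ← huv]) hvj hadj.symm
  · -- u = x j
    subst h
    rw [c'xj] at huv ⊢
    rcases hclass v hv with (h | h | h | h) | ⟨hvU, hvy, hvk, hvj, hvT, hvc⟩
    · subst h; rw [c'y] at huv; exact absurd huv.symm hjk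
    · subst h; rw [c'xk] at huv; exact absurd huv.symm hjk
    · subst h; exact absurd hadj (G.loopless.irrefl _)
    · obtain ⟨htU, htc, htx, hty, -⟩ := (hTmem v).1 h
      exact absurd hadj.symm (hnj v htU htc htx hty)
    · exact pd v hvU (by rw [← hvc, ← huv]) hvk hadj.symm
  · -- u in T
    rw [c'T u h] at huv ⊢
    obtain ⟨htU, htc, htx, hty, -⟩ := (hTmem u).1 h
    rcases hclass v hv with (h' | h' | h' | h') | ⟨hvU, hvy, hvk, hvj, hvT, hvc⟩
    · subst h'; rw [c'y] at huv; exact absurd huv.symm hjk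
    · subst h'; rw [c'xk] at huv; exact absurd huv.symm hjk
    · subst h'; exact absurd hadj (hnj u htU htc htx hty)
    · obtain ⟨htU', htc', htx', hty', -⟩ := (hTmem v).1 h'
      exact absurd hadj (hK2 u htU v htU' htc htc' hty hty')
    · exact pa u h v hvU (by rw [← hvc, ← huv]) hvk
  · -- u other
    rw [huc] at huv ⊢
    rcases hclass v hv with (h | h | h | h) | ⟨hvU, hvy, hvk, hvj, hvT, hvc⟩
    · subst h; rw [c'y] at huv; rw [huv]
      exact hsymm _ _ _ (pg u huU huv huj hadj)
    · subst h; rw [c'xk] at huv; rw [huv]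
      exact hsymm _ _ _ (ph u huU huv huj hadj)
    · subst h; rw [c'xj] at huv; rw [huv]
      exact hsymm _ _ _ (pd u huU huv huk hadj)
    · rw [c'T v h] at huv; rw [huv]
      exact hsymm _ _ _ (pa v h u huU huv huk)
    · rw [hvc] at huv
      by_cases h1 : c u = j
      · rw [h1]
        exact pi2 u huU v hvU h1 (by rw [← huv, h1]) huj hvj huT hvT hadj
      by_cases h2 : c u = k
      · rw [h2]
        exact pe u huU v hvU h2 (by rw [← huv, h2]) huk hvk hadj
      exact pm u huU v hvU huv h1 h2 hadj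

theorem step (G : SimpleGraph V) {q : ℕ} (hq : 2 ≤ q) (hfree : G.CliqueFree (q + 2))
    (U : Finset V)
    (hconn : ∀ A ⊆ U, A.Nonempty → A ≠ U → ∃ a ∈ A, ∃ s ∈ U, s ∉ A ∧ G.Adj a s)
    (y : V) (hy : y ∉ U) (hyU : ∃ a ∈ U, G.Adj y a)
    (h : (∃ c : V → Fin q, Good G U c) ∨ G.IsNClique (q + 1) U) :
    (∃ c : V → Fin q, Good G (insert y U) c) ∨ G.IsNClique (q + 1) (insert y U) := by
  classical
  have hyU' : ∀ v ∈ U, v ≠ y := fun v hv h => hy (h ▸ hv)
  rcases h with ⟨c, hc⟩ | hcl
  · by_cases hgood : ∃ c : V → Fin q, Good G (insert y U) c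
    · exact Or.inl hgood
    right
    -- obstacles
    have hobs : ∀ l : Fin q, ∃ z ∈ U, c z = l ∧ G.Adj y z ∧
        ∀ w ∈ U, c w ≠ l → (G.Adj w y ↔ G.Adj w z) := by
      intro l
      by_contra hno
      apply hgood
      refine ⟨Function.update c y l, ?_⟩
      have hold : ∀ v ∈ U, Function.update c y l v = c v := by
        intro v hv
        exact Function.update_of_ne (hyU' v hv) _ _
      have hnew : Function.update c y l y = l := Function.update_self _ _ _
      have key : ∀ v ∈ U, G.Adj y v → c v = l → ∃ w ∈ insert y U,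
          Function.update c y l w ≠ l ∧ ¬ (G.Adj w y ↔ G.Adj w v) := by
        intro v hv hyv hcv
        by_contra hno2
        apply hno
        refine ⟨v, hv, hcv, hyv, ?_⟩
        intro w hw hwl
        by_contra hne
        exact hno2 ⟨w, Finset.mem_insert_of_mem hw, by rw [hold w hw]; exact hwl, hne⟩
      intro u hu v hv hadj huv
      rcases Finset.mem_insert.1 hu with rfl | hu
      · rcases Finset.mem_insert.1 hv with rfl | hv
        · exact absurd hadj (G.loopless.irrefl _)
        · rw [hnew, hold v hv] at huv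
          rw [hnew]
          exact key v hv hadj huv.symm
      · rcases Finset.mem_insert.1 hv with hvy | hv
        · subst hvy
          have hu' : u ∈ U := by assumption
          rw [hnew, hold u hu'] at huv
          rw [hold u hu', huv]
          obtain ⟨w, h1, h2, h3⟩ := key u hu' hadj.symm huv
          exact ⟨w, h1, h2, fun h => h3 h.symm⟩
        · rw [hold u hu, hold v hv] at huv
          obtain ⟨w, hw, hwc, hne⟩ := hc u hu v hv hadj huv
          refine ⟨w, Finset.mem_insert_of_mem hw, ?_, hne⟩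
          rw [hold u hu, hold w hw]
          exact hwc
    choose x hxU hxc hxy hx using hobs
    have hxadj : ∀ l m, l ≠ m → G.Adj (x l) (x m) := by
      intro l m hlm
      exact (hx m (x l) (hxU l) (by rw [hxc]; exact hlm)).1 (hxy l).symm
    have hxinj : Function.Injective x := by
      intro l m h
      rw [← hxc l, ← hxc m, h]
    have hcl0 : G.IsNClique q (Finset.univ.image x) := by
      constructor
      · intro a ha b hb hab
        simp only [Finset.coe_image, Set.mem_image, Finset.mem_coe] at ha hb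
        obtain ⟨l, -, rfl⟩ := ha
        obtain ⟨m, -, rfl⟩ := hb
        exact hxadj l m (fun h => hab (by rw [h]))
      · rw [Finset.card_image_of_injective _ hxinj, Finset.card_univ, Fintype.card_fin]
    have hcl1 : G.IsNClique (q + 1) (insert y (Finset.univ.image x)) := hcl0.insert (by
      intro b hb
      simp only [Finset.mem_image, Finset.mem_univ, true_and] at hb
      obtain ⟨l, rfl⟩ := hb
      exact hxy l)
    by_cases hUeq : Finset.univ.image x = U
    · rw [← hUeq]; exact hcl1
    exfalso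
    have hsub : Finset.univ.image x ⊆ U := by
      intro v hv
      simp only [Finset.mem_image, Finset.mem_univ, true_and] at hv
      obtain ⟨l, rfl⟩ := hv
      exact hxU l
    have hne : (Finset.univ.image x).Nonempty := by
      refine ⟨x ⟨0, by omega⟩, ?_⟩
      simp
    obtain ⟨a, ha, s, hsU, hsx, has⟩ := hconn _ hsub hne hUeq
    simp only [Finset.mem_image, Finset.mem_univ, true_and] at ha
    obtain ⟨l, rfl⟩ := ha
    have hsx' : ∀ m, s ≠ x m := by
      intro m h
      apply hsx
      simp only [Finset.mem_image, Finset.mem_univ, true_and]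
      exact ⟨m, h.symm⟩
    -- s is not adjacent to both y and x (c s)
    have hnot : ¬ (G.Adj s y ∧ G.Adj s (x (c s))) := by
      rintro ⟨h1, h2⟩
      have h3 : G.IsNClique (q + 1 + 1) (insert s (insert y (Finset.univ.image x))) :=
        hcl1.insert (by
          intro b hb
          simp only [Finset.mem_insert, Finset.mem_image, Finset.mem_univ, true_and] at hb
          rcases hb with rfl | ⟨m, rfl⟩
          · exact h1
          · by_cases hm : c s = m
            · rw [← hm]; exact h2
            · exact (hx m s hsU hm).1 h1)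
      exact hfree _ h3
    have hs : ¬ (G.Adj s y ↔ G.Adj s (x (c s))) := by
      intro hiff
      apply hnot
      by_cases hl : c s = l
      · have h1 : G.Adj s (x (c s)) := by rw [hl]; exact has.symm
        exact ⟨hiff.2 h1, h1⟩
      · have h1 : G.Adj s y := (hx l s hsU hl).2 has.symm
        exact ⟨h1, hiff.1 h1⟩
    have hj : ∃ j : Fin q, j ≠ c s := by
      by_contra hno
      push Not at hno
      have h0 := hno ⟨0, by omega⟩
      have h1 := hno ⟨1, by omega⟩
      rw [← h0] at h1
      have := congrArg Fin.val h1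
      simp at this
    obtain ⟨j, hj⟩ := hj
    exact hgood (step_main G hfree U y hy c hc x hxU hxc hxy hx (c s) j hj s hsU rfl (hsx' _) hs)
  · left
    obtain ⟨a, haU, hya⟩ := hyU
    have hb : ∃ b ∈ U, ¬ G.Adj y b := by
      by_contra hno
      push Not at hno
      exact hfree _ (hcl.insert (a := y) hno)
    obtain ⟨b, hbU, hyb⟩ := hb
    have hab : a ≠ b := fun h => hyb (h ▸ hya)
    have hcard : (U.erase b).card = q := by
      rw [Finset.card_erase_of_mem hbU, hcl.card_eq]; rfl
    have e := Finset.equivFinOfCardEq hcard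
    have haE : a ∈ U.erase b := Finset.mem_erase.2 ⟨hab, haU⟩
    have hj : ∃ j : Fin q, j ≠ e ⟨a, haE⟩ := by
      by_contra hno
      push Not at hno
      have h0 := hno ⟨0, by omega⟩
      have h1 := hno ⟨1, by omega⟩
      rw [← h0] at h1
      have := congrArg Fin.val h1
      simp at this
    obtain ⟨j, hj⟩ := hj
    let c : V → Fin q := fun v => if v = b then e ⟨a, haE⟩ else
      if hv : v ∈ U.erase b then e ⟨v, hv⟩ else j
    have hcb : c b = e ⟨a, haE⟩ := by simp [c]
    have hcE : ∀ v (hv : v ∈ U.erase b), c v = e ⟨v, hv⟩ := by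
      intro v hv
      have h1 : v ≠ b := (Finset.mem_erase.1 hv).1
      simp only [c, if_neg h1, dif_pos hv]
    have hca : c a = e ⟨a, haE⟩ := hcE a haE
    have hcy : c y = j := by
      have h1 : y ≠ b := fun h => hyU' b hbU h.symm
      have h2 : y ∉ U.erase b := fun h => hy (Finset.mem_erase.1 h).2
      simp only [c, if_neg h1, dif_neg h2]
    have hcinj : ∀ u ∈ U.erase b, ∀ v ∈ U.erase b, c u = c v → u = v := by
      intro u hu v hv huv
      rw [hcE u hu, hcE v hv] at huv
      have := e.injective huv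
      exact congrArg Subtype.val this
    have hdist : ∃ w ∈ insert y U, c w ≠ e ⟨a, haE⟩ ∧ ¬ (G.Adj w a ↔ G.Adj w b) :=
      ⟨y, Finset.mem_insert_self _ _, by rw [hcy]; exact hj, fun h => hyb (h.1 hya)⟩
    have hyv : ∀ v ∈ U, c v = j → ∃ w ∈ insert y U, c w ≠ j ∧ ¬ (G.Adj w y ↔ G.Adj w v) := by
      intro v hv hcv
      refine ⟨b, Finset.mem_insert_of_mem hbU, by rw [hcb]; exact hj.symm, ?_⟩
      intro h
      have h1 : v ≠ b := by
        rintro rfl
        rw [hcb] at hcv
        exact hj hcv.symm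
      exact hyb (h.2 (hcl.isClique hbU hv h1.symm)).symm
    refine ⟨c, ?_⟩
    intro u hu v hv hadj huv
    rcases Finset.mem_insert.1 hu with rfl | hu
    · rcases Finset.mem_insert.1 hv with rfl | hv
      · exact absurd hadj (G.loopless.irrefl _)
      · rw [hcy] at huv ⊢
        exact hyv v hv huv.symm
    · rcases Finset.mem_insert.1 hv with hvy | hv
      · subst hvy
        have hu' : u ∈ U := by assumption
        rw [hcy] at huv
        rw [huv]
        obtain ⟨w, h1, h2, h3⟩ := hyv u hu' huv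
        exact ⟨w, h1, h2, fun h => h3 h.symm⟩
      · by_cases hub : u = b
        · subst hub
          have hvE : v ∈ U.erase u := Finset.mem_erase.2 ⟨fun h => hadj.ne h.symm, hv⟩
          rw [hcb, ← hca] at huv
          have h1 := hcinj a haE v hvE huv
          subst h1
          rw [hcb]
          obtain ⟨w, h1, h2, h3⟩ := hdist
          exact ⟨w, h1, h2, fun h => h3 h.symm⟩
        · have huE : u ∈ U.erase b := Finset.mem_erase.2 ⟨hub, hu⟩
          by_cases hvb : v = b
          · subst hvb
            rw [hcb, ← hca] at huv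
            have h1 := hcinj u huE a haE huv
            subst h1
            rw [hca]
            exact hdist
          · have hvE : v ∈ U.erase b := Finset.mem_erase.2 ⟨hvb, hv⟩
            exact absurd (hcinj u huE v hvE huv) hadj.ne

/-- Growing from a vertex. -/
theorem exists_good [Fintype V] (G : SimpleGraph V) (hG : G.Connected) {q : ℕ} (hq : 2 ≤ q)
    (hfree : G.CliqueFree (q + 2)) :
    (∃ c : V → Fin q, Good G Finset.univ c) ∨ G.IsNClique (q + 1) Finset.univ := by
  classical
  have main : ∀ n : ℕ, ∀ U : Finset V, Uᶜ.card = n → U.Nonempty →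
      (∀ A ⊆ U, A.Nonempty → A ≠ U → ∃ a ∈ A, ∃ s ∈ U, s ∉ A ∧ G.Adj a s) →
      ((∃ c : V → Fin q, Good G U c) ∨ G.IsNClique (q + 1) U) →
      ((∃ c : V → Fin q, Good G Finset.univ c) ∨ G.IsNClique (q + 1) Finset.univ) := by
    intro n
    induction n with
    | zero =>
      intro U hU _ _ h
      rw [Finset.card_eq_zero, Finset.compl_eq_empty_iff] at hU
      rw [← hU]; exact h
    | succ n ih =>
      intro U hU hne hconn h
      obtain ⟨u, hu⟩ := hne
      have hcompl : Uᶜ.Nonempty := by
        rw [← Finset.card_pos]; omega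
      obtain ⟨z, hz⟩ := hcompl
      rw [Finset.mem_compl] at hz
      -- an edge leaving U
      obtain ⟨p⟩ := hG.preconnected u z
      obtain ⟨d, hd, hd1, hd2⟩ := p.exists_boundary_dart (U : Set V) hu hz
      have hyU : ∃ a ∈ U, G.Adj d.snd a := ⟨d.fst, hd1, d.adj.symm⟩
      have hy : d.snd ∉ U := hd2
      generalize d.snd = y at hyU hy
      apply ih (insert y U)
      · have h1 : (insert y U)ᶜ = Uᶜ.erase y := by
          ext v; simp
        rw [h1, Finset.card_erase_of_mem (by simpa using hy), hU]; rfl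
      · exact ⟨y, Finset.mem_insert_self _ _⟩
      · -- connectivity
        intro A hA hAne hAU
        obtain ⟨a0, ha0, hya0⟩ := hyU
        by_cases h1 : y ∈ A
        · by_cases h2 : (A.erase y).Nonempty
          · by_cases h3 : A.erase y = U
            · exfalso
              apply hAU
              rw [← h3, Finset.insert_erase h1]
            · obtain ⟨a, ha, s, hs, hsA, hadj⟩ := hconn (A.erase y) (by
                intro v hv
                exact Finset.mem_of_mem_insert_of_ne (hA (Finset.mem_erase.1 hv).2)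
                  (Finset.mem_erase.1 hv).1) h2 h3
              refine ⟨a, (Finset.mem_erase.1 ha).2, s, Finset.mem_insert_of_mem hs, ?_, hadj⟩
              intro hsA'
              apply hsA
              exact Finset.mem_erase.2 ⟨fun h => hy (h ▸ hs), hsA'⟩
          · rw [Finset.not_nonempty_iff_eq_empty] at h2
            refine ⟨y, h1, a0, Finset.mem_insert_of_mem ha0, ?_, hya0⟩
            intro h4
            have : a0 ∈ A.erase y := Finset.mem_erase.2 ⟨hya0.ne', h4⟩
            rw [h2] at this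
            exact absurd this (Finset.notMem_empty _)
        · have hAsub : A ⊆ U := by
            intro v hv
            exact Finset.mem_of_mem_insert_of_ne (hA hv) (fun h => h1 (h ▸ hv))
          by_cases h3 : A = U
          · subst h3
            exact ⟨a0, ha0, y, Finset.mem_insert_self _ _, h1, hya0.symm⟩
          · obtain ⟨a, ha, s, hs, hsA, hadj⟩ := hconn A hAsub hAne h3
            exact ⟨a, ha, s, Finset.mem_insert_of_mem hs, hsA, hadj⟩
      · exact step G hq hfree U hconn y hy hyU h
  obtain ⟨v0⟩ := hG.nonempty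
  apply main _ {v0} rfl ⟨v0, Finset.mem_singleton_self _⟩
  · intro A hA hAne hAU
    exfalso
    apply hAU
    exact Finset.Subset.antisymm hA (by
      obtain ⟨a, ha⟩ := hAne
      have := hA ha
      rw [Finset.mem_singleton] at this
      subst this
      exact Finset.singleton_subset_iff.2 ha)
  · left
    refine ⟨fun _ => ⟨0, by omega⟩, ?_⟩
    intro u hu v hv hadj
    rw [Finset.mem_singleton] at hu hv
    subst hu; subst hv
    exact absurd hadj (G.loopless.irrefl _)

end Pool.Agent.R35.Brooks
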