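import Mathlib
import Pool.Agent.Helper805.CHS.Density

/-!
Random placement lemma and the construction of complete minors from a system of connected sets
that pairwise meet rarely.
-/

set_option autoImplicit false
set_option linter.unusedSectionVars false

namespace Pool.Agent.R35.Cong

open Finset

/-! ### Random placement -/

section placement

variable {V W : Type} [Fintype V] [DecidableEq V] [Fintype W] [DecidableEq W]

/-- Update a function at four places. -/
def upd4 (φ : W → V) (a b c d : W) (q : V × V × V × V) : W → V :=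
  Function.update (Function.update (Function.update (Function.update φ a q.1) b q.2.1) c q.2.2.1) d
    q.2.2.2

lemma upd4_a {φ : W → V} {a b c d : W} (h1 : a ≠ b) (h2 : a ≠ c) (h3 : a ≠ d)
    (q : V × V × V × V) : upd4 φ a b c d q a = q.1 := by
  simp [upd4, h1, h2, h3]

lemma upd4_b {φ : W → V} {a b c d : W} (h2 : b ≠ c) (h3 : b ≠ d)
    (q : V × V × V × V) : upd4 φ a b c d q b = q.2.1 := by
  simp [upd4, h2, h3]

lemma upd4_c {φ : W → V} {a b c d : W} (h3 : c ≠ d)
    (q : V × V × V × V) : upd4 φ a b c d q c = q.2.2.1 := by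
  simp [upd4, h3]

lemma upd4_d {φ : W → V} {a b c d : W}
    (q : V × V × V × V) : upd4 φ a b c d q d = q.2.2.2 := by
  simp [upd4]

lemma upd4_other {φ : W → V} {a b c d x : W} (q : V × V × V × V)
    (h1 : x ≠ a) (h2 : x ≠ b) (h3 : x ≠ c) (h4 : x ≠ d) : upd4 φ a b c d q x = φ x := by
  simp [upd4, h1, h2, h3, h4]

/-- The number of functions whose values at four distinct places satisfy a property. -/
lemma card_four (Q : Finset (V × V × V × V)) {a b c d : W} (hab : a ≠ b) (hac : a ≠ c)
    (had : a ≠ d) (hbc : b ≠ c) (hbd : b ≠ d) (hcd : c ≠ d) :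
    (univ.filter (fun φ : W → V => (φ a, φ b, φ c, φ d) ∈ Q)).card * (Fintype.card V) ^ 4 ≤
      Q.card * (Fintype.card V) ^ (Fintype.card W) := by
  have h1 : ((univ.filter (fun φ : W → V => (φ a, φ b, φ c, φ d) ∈ Q)) ×ˢ
      (univ : Finset (V × V × V × V))).card ≤ (Q ×ˢ (univ : Finset (W → V))).card := by
    apply Finset.card_le_card_of_injOn
      (fun p => ((p.1 a, p.1 b, p.1 c, p.1 d), upd4 p.1 a b c d p.2))
    · intro p hp
      simp only [coe_product, coe_filter, mem_univ, true_and, coe_univ, Set.mem_prod,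
        Set.mem_ofPred_eq, Set.mem_univ, and_true] at hp
      simp only [coe_product, coe_univ, Set.mem_prod, mem_coe, Set.mem_univ, and_true]
      exact hp
    · rintro ⟨φ, q⟩ _ ⟨φ', q'⟩ _ h
      simp only [Prod.mk.injEq] at h
      obtain ⟨⟨e1, e2, e3, e4⟩, e5⟩ := h
      have ha := congrFun e5 a
      have hb := congrFun e5 b
      have hc := congrFun e5 c
      have hd := congrFun e5 d
      rw [upd4_a hab hac had, upd4_a hab hac had] at ha
      rw [upd4_b hbc hbd, upd4_b hbc hbd] at hb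
      rw [upd4_c hcd, upd4_c hcd] at hc
      rw [upd4_d, upd4_d] at hd
      have hq : q = q' := by
        ext <;> assumption
      have hφ : φ = φ' := by
        funext x
        by_cases h1 : x = a
        · rw [h1, e1]
        by_cases h2 : x = b
        · rw [h2, e2]
        by_cases h3 : x = c
        · rw [h3, e3]
        by_cases h4 : x = d
        · rw [h4, e4]
        have := congrFun e5 x
        rwa [upd4_other _ h1 h2 h3 h4, upd4_other _ h1 h2 h3 h4] at this
      rw [hq, hφ]
  rw [Finset.card_product, Finset.card_product] at h1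
  simp only [Finset.card_univ, Fintype.card_prod, Fintype.card_fun] at h1
  calc _ = (univ.filter (fun φ : W → V => (φ a, φ b, φ c, φ d) ∈ Q)).card *
        (Fintype.card V * (Fintype.card V * (Fintype.card V * Fintype.card V))) := by ring
    _ ≤ _ := h1

/-- **Random placement.** If the sets `A x y` cover every point rarely, then the points of a
bounded set `W` can be placed such that the sets of disjoint pairs are disjoint. -/
theorem placement [Nonempty V] (A : V → V → Finset V)
    (h : (Fintype.card W) ^ 4 *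
      (∑ v : V, (univ.filter (fun p : V × V => v ∈ A p.1 p.2)).card ^ 2) <
        (Fintype.card V) ^ 4) :
    ∃ φ : W → V, ∀ a b c d : W, a ≠ b → a ≠ c → a ≠ d → b ≠ c → b ≠ d → c ≠ d →
      Disjoint (A (φ a) (φ b)) (A (φ c) (φ d)) := by
  classical
  set Q : Finset (V × V × V × V) :=
    univ.filter (fun q => ¬ Disjoint (A q.1 q.2.1) (A q.2.2.1 q.2.2.2)) with hQ
  have hQc : Q.card ≤ ∑ v : V, (univ.filter (fun p : V × V => v ∈ A p.1 p.2)).card ^ 2 := by
    have : Q ⊆ univ.biUnion (fun v : V =>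
        ((univ.filter (fun p : V × V => v ∈ A p.1 p.2)) ×ˢ
          (univ.filter (fun p : V × V => v ∈ A p.1 p.2))).image
            (fun r => (r.1.1, r.1.2, r.2.1, r.2.2))) := by
      intro q hq
      rw [hQ, mem_filter, Finset.not_disjoint_iff] at hq
      obtain ⟨-, v, hv1, hv2⟩ := hq
      rw [mem_biUnion]
      refine ⟨v, mem_univ _, ?_⟩
      rw [mem_image]
      refine ⟨((q.1, q.2.1), (q.2.2.1, q.2.2.2)), ?_, rfl⟩
      rw [mem_product, mem_filter, mem_filter]
      exact ⟨⟨mem_univ _, hv1⟩, ⟨mem_univ _, hv2⟩⟩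
    refine (Finset.card_le_card this).trans (Finset.card_biUnion_le.trans ?_)
    apply Finset.sum_le_sum
    intro v _
    refine Finset.card_image_le.trans ?_
    rw [Finset.card_product, sq]
  set T : Finset (W × W × W × W) := univ.filter (fun τ => τ.1 ≠ τ.2.1 ∧ τ.1 ≠ τ.2.2.1 ∧
    τ.1 ≠ τ.2.2.2 ∧ τ.2.1 ≠ τ.2.2.1 ∧ τ.2.1 ≠ τ.2.2.2 ∧ τ.2.2.1 ≠ τ.2.2.2) with hT
  set bad : Finset (W → V) := T.biUnion (fun τ =>
    univ.filter (fun φ : W → V => (φ τ.1, φ τ.2.1, φ τ.2.2.1, φ τ.2.2.2) ∈ Q)) with hbad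
  have hTc : T.card ≤ (Fintype.card W) ^ 4 := by
    refine (Finset.card_le_univ _).trans ?_
    simp only [Fintype.card_prod]
    apply le_of_eq
    ring
  have hVpos : 0 < Fintype.card V := Fintype.card_pos
  have hb : bad.card < (Finset.univ : Finset (W → V)).card := by
    have h1 : bad.card * (Fintype.card V) ^ 4 ≤
        T.card * (Q.card * (Fintype.card V) ^ (Fintype.card W)) := by
      calc bad.card * (Fintype.card V) ^ 4
          ≤ (∑ τ ∈ T, (univ.filter (fun φ : W → V =>
              (φ τ.1, φ τ.2.1, φ τ.2.2.1, φ τ.2.2.2) ∈ Q)).card) * (Fintype.card V) ^ 4 :=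
            Nat.mul_le_mul_right _ Finset.card_biUnion_le
        _ = ∑ τ ∈ T, (univ.filter (fun φ : W → V =>
              (φ τ.1, φ τ.2.1, φ τ.2.2.1, φ τ.2.2.2) ∈ Q)).card * (Fintype.card V) ^ 4 :=
            Finset.sum_mul _ _ _
        _ ≤ ∑ τ ∈ T, Q.card * (Fintype.card V) ^ (Fintype.card W) := by
            apply Finset.sum_le_sum
            intro τ hτ
            rw [hT, mem_filter] at hτ
            obtain ⟨-, h1, h2, h3, h4, h5, h6⟩ := hτ
            exact card_four Q h1 h2 h3 h4 h5 h6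
        _ = _ := by rw [Finset.sum_const, smul_eq_mul]
    rw [Finset.card_univ, Fintype.card_fun]
    have h2 : T.card * Q.card < (Fintype.card V) ^ 4 :=
      lt_of_le_of_lt (Nat.mul_le_mul hTc hQc) h
    have h3 : 0 < (Fintype.card V) ^ (Fintype.card W) := by positivity
    have h4 : bad.card * (Fintype.card V) ^ 4 <
        (Fintype.card V) ^ (Fintype.card W) * (Fintype.card V) ^ 4 := by
      calc bad.card * (Fintype.card V) ^ 4
          ≤ T.card * (Q.card * (Fintype.card V) ^ (Fintype.card W)) := h1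
        _ = (T.card * Q.card) * (Fintype.card V) ^ (Fintype.card W) := by ring
        _ < (Fintype.card V) ^ 4 * (Fintype.card V) ^ (Fintype.card W) :=
            Nat.mul_lt_mul_of_pos_right h2 h3
        _ = _ := by ring
    exact lt_of_mul_lt_mul_right h4 (Nat.zero_le _)
  obtain ⟨φ, -, hφ⟩ := Finset.exists_mem_notMem_of_card_lt_card hb
  refine ⟨φ, fun a b c d hab hac had hbc hbd hcd => ?_⟩
  by_contra hcon
  apply hφ
  rw [hbad, mem_biUnion]
  refine ⟨(a, b, c, d), ?_, ?_⟩
  · rw [hT, mem_filter]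
    exact ⟨mem_univ _, hab, hac, had, hbc, hbd, hcd⟩
  · rw [mem_filter]
    refine ⟨mem_univ _, ?_⟩
    rw [hQ, mem_filter]
    exact ⟨mem_univ _, hcon⟩

end placement

/-! ### Links -/

section link

variable {V : Type} {G : SimpleGraph V}

lemma single_conn (x : V) : (G.induce ({x} : Set V)).Connected :=
  { preconnected := .of_subsingleton, nonempty := ⟨⟨x, rfl⟩⟩ }

/-- The initial part of a walk before it enters `F`. -/
lemma exists_link (M F : Set V) {x y : V} (p : G.Walk x y) :
    (∀ z ∈ p.support, z ∈ M) → x ∉ F → y ∈ F →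
    ∃ X : Set V, X ⊆ M ∧ Disjoint X F ∧ x ∈ X ∧ (G.induce X).Connected ∧
      ∃ u ∈ X, ∃ v ∈ F, G.Adj u v := by
  induction p with
  | nil => intro _ hx hy; exact absurd hy hx
  | @cons x x' y hadj p ih =>
    intro hM hx hy
    by_cases hx' : x' ∈ F
    · refine ⟨{x}, ?_, ?_, rfl, ?_, x, rfl, x', hx', hadj⟩
      · rintro z rfl
        exact hM _ (by simp)
      · rw [Set.disjoint_singleton_left]
        exact hx
      · exact single_conn x
    · obtain ⟨X, h1, h2, h3, h4, u, hu, v, hv, huv⟩ :=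
        ih (fun z hz => hM z (by simp [hz])) hx' hy
      refine ⟨{x} ∪ X, ?_, ?_, Or.inl rfl, ?_, u, Or.inr hu, v, hv, huv⟩
      · apply Set.union_subset _ h1
        rintro z rfl
        exact hM _ (by simp)
      · rw [Set.disjoint_union_left]
        exact ⟨by rw [Set.disjoint_singleton_left]; exact hx, h2⟩
      · exact SimpleGraph.connected_induce_union
          (single_conn x).preconnected h4.preconnected
          (Set.mem_singleton x) h3 hadj

/-- A system of walks that only meet at pairs with a common place gives a complete minor. -/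
theorem minor_of_placement {T : ℕ} (hT : 2 ≤ T) (A : V → V → Finset V)
    (w : ∀ x y : V, G.Walk x y) (hA : ∀ x y z, z ∈ A x y ↔ z ∈ (w x y).support)
    (φ : Fin T × Fin T → V)
    (hφ : ∀ a b c d : Fin T × Fin T, a ≠ b → a ≠ c → a ≠ d → b ≠ c → b ≠ d → c ≠ d →
      Disjoint (A (φ a) (φ b)) (A (φ c) (φ d))) :
    ∃ f : Fin T → Set V, (∀ i, (G.induce (f i)).Connected) ∧
      (∀ i j, i ≠ j → Disjoint (f i) (f j)) ∧
      (∀ i j, i ≠ j → ∃ u ∈ f i, ∃ v ∈ f j, G.Adj u v) := by
  classical
  have hAs : ∀ x y, x ∈ A x y := fun x y => (hA x y x).2 (w x y).start_mem_support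
  have hAe : ∀ x y, y ∈ A x y := fun x y => (hA x y y).2 (w x y).end_mem_support
  have hAc : ∀ x y, (G.induce ((A x y : Finset V) : Set V)).Connected := by
    intro x y
    have h1 : ((A x y : Finset V) : Set V) = {v | v ∈ (w x y).support} := by
      ext z
      exact hA x y z
    rw [h1]
    exact (w x y).connected_induce_support
  have hother : ∀ i : Fin T, ∃ j : Fin T, j ≠ i := by
    intro i
    haveI : Nontrivial (Fin T) := Fin.nontrivial_iff_two_le.2 hT
    exact exists_ne i
  -- the cores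
  let S : Fin T → Set (Set V) := fun i =>
    {s | ∃ j : Fin T, j ≠ i ∧ s = ((A (φ (i, i)) (φ (i, j)) : Finset V) : Set V)}
  let F : Fin T → Set V := fun i => ⋃₀ (S i)
  have hFmem : ∀ i x, x ∈ F i ↔ ∃ j : Fin T, j ≠ i ∧ x ∈ A (φ (i, i)) (φ (i, j)) := by
    intro i x
    constructor
    · rintro ⟨s, ⟨j, hj, rfl⟩, hx⟩
      exact ⟨j, hj, hx⟩
    · rintro ⟨j, hj, hx⟩
      exact ⟨_, ⟨j, hj, rfl⟩, hx⟩
  have hFc : ∀ i, (G.induce (F i)).Connected := by
    intro i
    apply SimpleGraph.induce_sUnion_connected_of_pairwise_not_disjoint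
    · obtain ⟨j, hj⟩ := hother i
      exact ⟨_, j, hj, rfl⟩
    · rintro s t ⟨j, hj, rfl⟩ ⟨k, hk, rfl⟩
      exact ⟨φ (i, i), hAs _ _, hAs _ _⟩
    · rintro s ⟨j, hj, rfl⟩
      exact hAc _ _
  have hFd : ∀ i k, i ≠ k → Disjoint (F i) (F k) := by
    intro i k hik
    rw [Set.disjoint_left]
    intro x hx hx'
    obtain ⟨j, hj, hxj⟩ := (hFmem i x).1 hx
    obtain ⟨l, hl, hxl⟩ := (hFmem k x).1 hx'
    have := hφ (i, i) (i, j) (k, k) (k, l) (by simp [hj.symm]) (by simp [hik])
      (by simp [hik]) (by simp [hik]) (by simp [hik]) (by simp [hl.symm])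
    exact Finset.disjoint_left.1 this hxj hxl
  have hFin : ∀ i k, i ≠ k → φ (i, k) ∈ F i := fun i k hik =>
    (hFmem i _).2 ⟨k, hik.symm, hAe _ _⟩
  -- the links
  have hlink : ∀ i k : Fin T, ∃ X : Set V, i ≠ k →
      (X ⊆ ((A (φ (i, k)) (φ (k, i)) : Finset V) : Set V) ∧ Disjoint X (F k) ∧ φ (i, k) ∈ X ∧
        (G.induce X).Connected ∧ ∃ u ∈ X, ∃ v ∈ F k, G.Adj u v) := by
    intro i k
    by_cases hik : i = k
    · exact ⟨∅, fun h => absurd hik h⟩
    · obtain ⟨X, hX⟩ := exists_link ((A (φ (i, k)) (φ (k, i)) : Finset V) : Set V) (F k)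
        (w (φ (i, k)) (φ (k, i))) (fun z hz => (hA _ _ z).2 hz)
        (fun h => Set.disjoint_left.1 (hFd i k hik) (hFin i k hik) h)
        (hFin k i (Ne.symm hik))
      exact ⟨X, fun _ => hX⟩
  choose X hX using hlink
  let R : Fin T → Set (Set V) := fun i => {s | s = F i ∨ ∃ k : Fin T, i < k ∧ s = F i ∪ X i k}
  let f : Fin T → Set V := fun i => ⋃₀ (R i)
  have hfmem : ∀ i x, x ∈ f i ↔ x ∈ F i ∨ ∃ k : Fin T, i < k ∧ x ∈ X i k := by
    intro i x
    constructor
    · rintro ⟨s, (rfl | ⟨k, hk, rfl⟩), hx⟩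
      · exact Or.inl hx
      · rcases hx with hx | hx
        · exact Or.inl hx
        · exact Or.inr ⟨k, hk, hx⟩
    · rintro (hx | ⟨k, hk, hx⟩)
      · exact ⟨_, Or.inl rfl, hx⟩
      · exact ⟨_, Or.inr ⟨k, hk, rfl⟩, Or.inr hx⟩
  have hFne : ∀ i, (F i).Nonempty := by
    intro i
    obtain ⟨j, hj⟩ := hother i
    exact ⟨_, hFin i j hj.symm⟩
  -- the links avoid the other cores
  have hXF : ∀ i k l : Fin T, i < k → l ≠ i → Disjoint (X i k) (F l) := by
    intro i k l hik hli
    obtain ⟨h1, h2, -⟩ := hX i k hik.ne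
    by_cases hlk : l = k
    · rw [hlk]; exact h2
    · rw [Set.disjoint_left]
      intro x hx hx'
      obtain ⟨j, hj, hxj⟩ := (hFmem l x).1 hx'
      have := hφ (l, l) (l, j) (i, k) (k, i) (by simp [hj.symm]) (by simp [hli])
        (by simp [hlk]) (by simp [hli]) (by simp [hlk]) (by simp [hik.ne])
      exact Finset.disjoint_left.1 this hxj (h1 hx)
  have hXX : ∀ i k l m : Fin T, i < k → l < m → i ≠ l → Disjoint (X i k) (X l m) := by
    intro i k l m hik hlm hil
    obtain ⟨h1, -⟩ := hX i k hik.ne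
    obtain ⟨h2, -⟩ := hX l m hlm.ne
    rw [Set.disjoint_left]
    intro x hx hx'
    have e1 : ¬ (i = m ∧ k = l) := by
      rintro ⟨e, e'⟩
      rw [e, e'] at hik
      exact absurd hik (not_lt.2 hlm.le)
    have := hφ (i, k) (k, i) (l, m) (m, l) (by simp [hik.ne]) (by simp [hil])
      (by simpa using e1)
      (by
        intro e
        simp only [Prod.mk.injEq] at e
        exact e1 ⟨e.2, e.1⟩)
      (by
        intro e
        simp only [Prod.mk.injEq] at e
        exact hil e.2) (by simp [hlm.ne])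
    exact Finset.disjoint_left.1 this (h1 hx) (h2 hx')
  refine ⟨f, ?_, ?_, ?_⟩
  · intro i
    apply SimpleGraph.induce_sUnion_connected_of_pairwise_not_disjoint
    · exact ⟨_, Or.inl rfl⟩
    · intro s t hs ht
      have hs' : F i ⊆ s := by
        rcases hs with rfl | ⟨k, _, rfl⟩
        · exact le_rfl
        · exact Set.subset_union_left
      have ht' : F i ⊆ t := by
        rcases ht with rfl | ⟨k, _, rfl⟩
        · exact le_rfl
        · exact Set.subset_union_left
      obtain ⟨x, hx⟩ := hFne i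
      exact ⟨x, hs' hx, ht' hx⟩
    · rintro s (rfl | ⟨k, hk, rfl⟩)
      · exact hFc i
      · obtain ⟨h1, h2, h3, h4, -⟩ := hX i k hk.ne
        exact SimpleGraph.induce_union_connected (hFc i).preconnected h4.preconnected
          ⟨_, hFin i k hk.ne, h3⟩
  · intro i l hil
    rw [Set.disjoint_left]
    intro x hx hx'
    rcases (hfmem i x).1 hx with h | ⟨k, hk, h⟩ <;>
    rcases (hfmem l x).1 hx' with h' | ⟨m, hm, h'⟩
    · exact Set.disjoint_left.1 (hFd i l hil) h h'
    · exact Set.disjoint_left.1 (hXF l m i hm hil) h' h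
    · exact Set.disjoint_left.1 (hXF i k l hk hil.symm) h h'
    · exact Set.disjoint_left.1 (hXX i k l m hk hm hil) h h'
  · have key : ∀ i j : Fin T, i < j → ∃ u ∈ f i, ∃ v ∈ f j, G.Adj u v := by
      intro i j hij
      obtain ⟨-, -, -, -, u, hu, v, hv, huv⟩ := hX i j hij.ne
      exact ⟨u, (hfmem i u).2 (Or.inr ⟨j, hij, hu⟩), v, (hfmem j v).2 (Or.inl hv), huv⟩
    intro i j hij
    rcases lt_or_gt_of_ne hij with h | h
    · exact key i j h
    · obtain ⟨u, hu, v, hv, huv⟩ := key j i h
      exact ⟨v, hv, u, hu, huv.symm⟩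

end link

end Pool.Agent.R35.Cong
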