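import Mathlib

set_option autoImplicit false

/-!
# Graphs in which any two vertices are joined by paths of prescribed orders
-/

namespace Pool.Agent.R35.PathOrd

open Finset

variable {V : Type}

/-- there is a path with exactly `i` vertices from `u` to `v` -/
def Q (G : SimpleGraph V) (i : ℕ) (u v : V) : Prop :=
  ∃ p : G.Walk u v, p.IsPath ∧ p.support.length = i

/-- any two distinct vertices are joined by a path with exactly `i` vertices -/
def HasP (G : SimpleGraph V) (i : ℕ) : Prop := ∀ u v : V, u ≠ v → Q G i u v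

theorem Q.symm {G : SimpleGraph V} {i : ℕ} {u v : V} (h : Q G i u v) : Q G i v u := by
  obtain ⟨p, hp, hl⟩ := h
  exact ⟨p.reverse, hp.reverse, by simpa using hl⟩

theorem q3 {G : SimpleGraph V} {u a v : V} (h1 : G.Adj u a) (h2 : G.Adj a v)
    (hn : [u, a, v].Nodup) : Q G 3 u v :=
  ⟨SimpleGraph.Walk.cons h1 (SimpleGraph.Walk.cons h2 SimpleGraph.Walk.nil), by
    rw [SimpleGraph.Walk.isPath_def]; exact hn, rfl⟩

theorem q4 {G : SimpleGraph V} {u a b v : V} (h1 : G.Adj u a) (h2 : G.Adj a b) (h3 : G.Adj b v)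
    (hn : [u, a, b, v].Nodup) : Q G 4 u v :=
  ⟨SimpleGraph.Walk.cons h1 (SimpleGraph.Walk.cons h2 (SimpleGraph.Walk.cons h3
    SimpleGraph.Walk.nil)), by
    rw [SimpleGraph.Walk.isPath_def]; exact hn, rfl⟩

theorem q5 {G : SimpleGraph V} {u a b c v : V} (h1 : G.Adj u a) (h2 : G.Adj a b) (h3 : G.Adj b c)
    (h4 : G.Adj c v) (hn : [u, a, b, c, v].Nodup) : Q G 5 u v :=
  ⟨SimpleGraph.Walk.cons h1 (SimpleGraph.Walk.cons h2 (SimpleGraph.Walk.cons h3
    (SimpleGraph.Walk.cons h4 SimpleGraph.Walk.nil))), by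
    rw [SimpleGraph.Walk.isPath_def]; exact hn, rfl⟩

theorem q6 {G : SimpleGraph V} {u a b c d v : V} (h1 : G.Adj u a) (h2 : G.Adj a b)
    (h3 : G.Adj b c) (h4 : G.Adj c d) (h5 : G.Adj d v) (hn : [u, a, b, c, d, v].Nodup) :
    Q G 6 u v :=
  ⟨SimpleGraph.Walk.cons h1 (SimpleGraph.Walk.cons h2 (SimpleGraph.Walk.cons h3
    (SimpleGraph.Walk.cons h4 (SimpleGraph.Walk.cons h5 SimpleGraph.Walk.nil)))), by
    rw [SimpleGraph.Walk.isPath_def]; exact hn, rfl⟩

theorem q3_inv {G : SimpleGraph V} {u v : V} (h : Q G 3 u v) : ∃ a, G.Adj u a ∧ G.Adj a v := by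
  obtain ⟨p, _, hl⟩ := h
  rcases p with _ | ⟨h1, _ | ⟨h2, _ | ⟨h3, p⟩⟩⟩
  · simp at hl
  · simp at hl
  · exact ⟨_, h1, h2⟩
  · simp only [SimpleGraph.Walk.support_cons, List.length_cons] at hl
    have := p.support.length_pos_of_ne_nil p.support_ne_nil
    omega

theorem q5_inv {G : SimpleGraph V} {u v : V} (h : Q G 5 u v) :
    ∃ a b c, G.Adj u a ∧ G.Adj a b ∧ G.Adj b c ∧ G.Adj c v ∧ [u, a, b, c, v].Nodup := by
  obtain ⟨p, hp, hl⟩ := h
  rcases p with _ | ⟨h1, _ | ⟨h2, _ | ⟨h3, _ | ⟨h4, _ | ⟨h5, p⟩⟩⟩⟩⟩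
  · simp at hl
  · simp at hl
  · simp at hl
  · simp at hl
  · rw [SimpleGraph.Walk.isPath_def] at hp
    exact ⟨_, _, _, h1, h2, h3, h4, hp⟩
  · simp only [SimpleGraph.Walk.support_cons, List.length_cons] at hl
    have := p.support.length_pos_of_ne_nil p.support_ne_nil
    omega

theorem q6_inv {G : SimpleGraph V} {u v : V} (h : Q G 6 u v) :
    ∃ a b c d, G.Adj u a ∧ G.Adj a b ∧ G.Adj b c ∧ G.Adj c d ∧ G.Adj d v ∧
      [u, a, b, c, d, v].Nodup := by
  obtain ⟨p, hp, hl⟩ := h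
  rcases p with _ | ⟨h1, _ | ⟨h2, _ | ⟨h3, _ | ⟨h4, _ | ⟨h5, _ | ⟨h6, p⟩⟩⟩⟩⟩⟩
  · simp at hl
  · simp at hl
  · simp at hl
  · simp at hl
  · simp at hl
  · rw [SimpleGraph.Walk.isPath_def] at hp
    exact ⟨_, _, _, _, h1, h2, h3, h4, h5, hp⟩
  · simp only [SimpleGraph.Walk.support_cons, List.length_cons] at hl
    have := p.support.length_pos_of_ne_nil p.support_ne_nil
    omega

/-- A Hamiltonian path as an injective enumeration. -/
theorem ham_enum [Fintype V] {G : SimpleGraph V} {u v : V} (h : Q G (Fintype.card V) u v) :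
    ∃ f : ℕ → V, f 0 = u ∧ f (Fintype.card V - 1) = v ∧
      (∀ k, k + 1 < Fintype.card V → G.Adj (f k) (f (k + 1))) ∧
      (∀ i j, i < Fintype.card V → j < Fintype.card V → f i = f j → i = j) ∧
      (∀ w, ∃ i, i < Fintype.card V ∧ f i = w) := by
  classical
  obtain ⟨p, hp, hl⟩ := h
  have hlen : p.length + 1 = Fintype.card V := by
    rw [← hl, SimpleGraph.Walk.length_support]
  refine ⟨p.getVert, p.getVert_zero, ?_, ?_, ?_, ?_⟩
  · rw [← hlen, Nat.add_sub_cancel]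
    exact p.getVert_length
  · intro k hk
    exact p.adj_getVert_succ (by omega)
  · intro i j hi hj hij
    exact hp.getVert_injOn (by simp only [Set.mem_ofPred_eq]; omega)
      (by simp only [Set.mem_ofPred_eq]; omega) hij
  · intro w
    have hnd : p.support.Nodup := hp.support_nodup
    have hc : p.support.toFinset.card = Fintype.card V := by
      rw [List.toFinset_card_of_nodup hnd, hl]
    have hu : p.support.toFinset = univ := (Finset.card_eq_iff_eq_univ _).mp hc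
    have hw : w ∈ p.support := by
      rw [← List.mem_toFinset, hu]
      exact mem_univ w
    obtain ⟨i, hi, hi'⟩ := SimpleGraph.Walk.mem_support_iff_exists_getVert.mp hw
    exact ⟨i, by omega, hi⟩

/-- Hamilton-connected graphs have no cuts with two vertices. -/
theorem no_cut [Fintype V] {G : SimpleGraph V} (hH : HasP G (Fintype.card V)) {x y : V}
    (hxy : x ≠ y) (B : Set V) (hx : x ∉ B) (hy : y ∉ B) {b0 c0 : V} (hb : b0 ∈ B) (hc : c0 ∉ B)
    (hcx : c0 ≠ x) (hcy : c0 ≠ y) :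
    ∃ b c, b ∈ B ∧ c ∉ B ∧ c ≠ x ∧ c ≠ y ∧ G.Adj b c := by
  obtain ⟨f, f0, f1, fa, fi, fs⟩ := ham_enum (hH x y hxy)
  set N := Fintype.card V with hN
  by_contra hcon
  push Not at hcon
  have hne : ∀ k, 1 ≤ k → k + 1 < N → f k ≠ x ∧ f k ≠ y := by
    intro k hk hkN
    constructor
    · intro h
      rw [← f0] at h
      have := fi _ _ (by omega) (by omega) h
      omega
    · intro h
      rw [← f1] at h
      have := fi _ _ (by omega) (by omega) h
      omega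
  have hstep : ∀ k, 1 ≤ k → k + 2 < N → (f k ∈ B ↔ f (k + 1) ∈ B) := by
    intro k hk hkN
    have hadj := fa k (by omega)
    have h1 := hne k hk (by omega)
    have h2 := hne (k + 1) (by omega) (by omega)
    constructor
    · intro h
      by_contra h'
      exact hcon _ _ h h' h2.1 h2.2 hadj
    · intro h
      by_contra h'
      exact hcon _ _ h h' h1.1 h1.2 hadj.symm
  have hall : ∀ k, 1 ≤ k → k + 1 < N → (f k ∈ B ↔ f 1 ∈ B) := by
    intro k hk
    induction k, hk using Nat.le_induction with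
    | base => intro _; exact Iff.rfl
    | succ k hk ih =>
      intro hkN
      rw [← hstep k hk (by omega)]
      exact ih (by omega)
  have hin : ∀ w, w ≠ x → w ≠ y → ∃ k, 1 ≤ k ∧ k + 1 < N ∧ f k = w := by
    intro w hwx hwy
    obtain ⟨i, hi, hiw⟩ := fs w
    refine ⟨i, ?_, ?_, hiw⟩
    · rcases Nat.eq_zero_or_pos i with h | h
      · rw [h, f0] at hiw
        exact absurd hiw.symm hwx
      · exact h
    · by_contra h
      have : i = N - 1 := by omega
      rw [this, f1] at hiw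
      exact hwy hiw.symm
  have hbx : b0 ≠ x := fun h => hx (h ▸ hb)
  have hby : b0 ≠ y := fun h => hy (h ▸ hb)
  obtain ⟨i, hi1, hi2, hi3⟩ := hin b0 hbx hby
  obtain ⟨j, hj1, hj2, hj3⟩ := hin c0 hcx hcy
  have h1 := hall i hi1 hi2
  have h2 := hall j hj1 hj2
  rw [hi3] at h1
  rw [hj3] at h2
  exact hc (h2.mpr (h1.mp hb))

/-! ## Order five -/

theorem exists_fresh [Fintype V] [DecidableEq V] (s : Finset V) (h : s.card < Fintype.card V) :
    ∃ c, c ∉ s := by
  by_contra hcon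
  push Not at hcon
  have : (univ : Finset V) ⊆ s := fun x _ => hcon x
  have := Finset.card_le_card this
  rw [Finset.card_univ] at this
  omega

section five

variable [Fintype V] {G : SimpleGraph V} {u v : V}

omit [Fintype V] in
theorem key2 (h5 : ¬ Q G 5 u v) (huv : u ≠ v) {a c z : V} (hav : a ≠ v) (hua : G.Adj u a)
    (hcu : c ≠ u) (hvc : G.Adj v c) (hac : a ≠ c) (hzu : z ≠ u) (hzv : z ≠ v) (haz : G.Adj a z)
    (hzc : G.Adj z c) : False := by
  apply h5
  apply q5 hua haz hzc hvc.symm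
  have h1 := hua.ne
  have h2 := haz.ne
  have h3 := hzc.ne
  have h4 := hvc.ne
  simp only [List.nodup_cons, List.mem_cons, List.not_mem_nil, or_false, not_or,
    List.nodup_nil, and_true, not_false_eq_true]
  exact ⟨⟨h1, hzu.symm, hcu.symm, huv⟩, ⟨h2, hac, hav⟩, ⟨h3, hzv⟩, h4.symm⟩

/-- all other vertices are adjacent to `v`: impossible -/
theorem noR (h3 : HasP G 3) (hH : HasP G (Fintype.card V)) (hn : 5 ≤ Fintype.card V)
    (huv : u ≠ v) (h5 : ¬ Q G 5 u v) (hAD : ∀ x, x ≠ v → G.Adj u x → G.Adj v x)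
    (hR : ∀ x, x ≠ u → x ≠ v → G.Adj v x) : False := by
  classical
  obtain ⟨a, hua, hav'⟩ := q3_inv (h3 u v huv)
  have hau : a ≠ u := hua.ne.symm
  have hav : a ≠ v := hav'.ne
  obtain ⟨c0, hc0⟩ := exists_fresh ({u, v, a} : Finset V) (lt_of_le_of_lt Finset.card_le_three
    (by omega))
  simp only [mem_insert, mem_singleton, not_or] at hc0
  obtain ⟨a', b, ha', hba, hbu, hbv, hab⟩ := no_cut hH huv ({a} : Set V)
    (by simpa using hau.symm) (by simpa using hav.symm) (b0 := a) (c0 := c0) rfl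
    (by simpa using hc0.2.2) hc0.1 hc0.2.1
  obtain rfl : a' = a := by simpa using ha'
  have hba' : b ≠ a' := by simpa using hba
  have hub : G.Adj u b := by
    obtain ⟨b', c', hb', hcb, hca, hcv, hbc⟩ := no_cut hH hav ({b} : Set V)
      (by simpa using hba'.symm) (by simpa using hbv.symm) (b0 := b) (c0 := u) rfl
      (by simpa using hbu.symm) hau.symm huv
    obtain rfl : b' = b := by simpa using hb'
    have hcb' : c' ≠ b' := by simpa using hcb
    by_cases hcu : c' = u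
    · subst hcu
      exact hbc.symm
    · exfalso
      exact key2 h5 huv hav hua hcu (hR c' hcu hcv) hca.symm hbu hbv hab hbc
  obtain ⟨c1, hc1⟩ := exists_fresh ({u, v, a', b} : Finset V) (lt_of_le_of_lt Finset.card_le_four
    (by omega))
  simp only [mem_insert, mem_singleton, not_or] at hc1
  obtain ⟨d, e, hd, he, heu, hev, hde⟩ := no_cut hH huv ({a', b} : Set V)
    (by simp only [Set.mem_insert_iff, Set.mem_singleton_iff, not_or]; exact ⟨hau.symm, hbu.symm⟩)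
    (by simp only [Set.mem_insert_iff, Set.mem_singleton_iff, not_or]; exact ⟨hav.symm, hbv.symm⟩)
    (b0 := a') (c0 := c1) (by simp)
    (by simp only [Set.mem_insert_iff, Set.mem_singleton_iff, not_or]; exact ⟨hc1.2.2.1, hc1.2.2.2⟩)
    hc1.1 hc1.2.1
  simp only [Set.mem_insert_iff, Set.mem_singleton_iff, not_or] at hd he
  rcases hd with rfl | rfl
  · exact key2 h5 huv hbv hub heu (hR e heu hev) (fun h => he.2 h.symm) hau hav hab.symm hde
  · exact key2 h5 huv hav hua heu (hR e heu hev) (fun h => he.1 h.symm) hbu hbv hab hde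

theorem five_aux (h3 : HasP G 3) (hH : HasP G (Fintype.card V)) (hn : 5 ≤ Fintype.card V)
    (huv : u ≠ v) (h5 : ¬ Q G 5 u v) (hAD : ∀ x, x ≠ v → G.Adj u x → G.Adj v x) :
    11 ≤ Fintype.card V := by
  classical
  -- vertices of R have a neighbour in A
  have ha : ∀ x, x ≠ u → x ≠ v → ¬ G.Adj v x → ∃ a, a ≠ v ∧ G.Adj u a ∧ G.Adj a x := by
    intro x hxu hxv hx
    obtain ⟨z, h1, h2⟩ := q3_inv (h3 u x hxu.symm)
    exact ⟨z, fun h => hx (h ▸ h2), h1, h2⟩
  have hux : ∀ x, x ≠ v → ¬ G.Adj v x → ¬ G.Adj u x := fun x hxv hx h => hx (hAD x hxv h)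
  have hb : ∀ x a c, x ≠ u → x ≠ v → ¬ G.Adj v x → a ≠ v → G.Adj u a → G.Adj a x → c ≠ u →
      G.Adj v c → G.Adj c x → c = a := by
    intro x a c hxu hxv hx hav hua hax hcu hvc hcx
    by_contra hca
    exact key2 h5 huv hav hua hcu hvc (fun h => hca h.symm) hxu hxv hax hcx.symm
  -- R is not empty
  obtain ⟨x0, hx0u, hx0v, hx0⟩ : ∃ x, x ≠ u ∧ x ≠ v ∧ ¬ G.Adj v x := by
    by_contra hcon
    push Not at hcon
    exact noR h3 hH hn huv h5 hAD hcon
  set RR : Set V := {x | x ≠ u ∧ x ≠ v ∧ ¬ G.Adj v x} with hRR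
  have huR : u ∉ RR := fun h => h.1 rfl
  have hvR : v ∉ RR := fun h => h.2.1 rfl
  have haR : ∀ a, G.Adj v a → a ∉ RR := fun a h h' => h'.2.2 h
  -- neighbours of vertices of R outside R
  have hnb : ∀ b c, b ∈ RR → c ∉ RR → G.Adj b c → c ≠ u ∧ c ≠ v ∧ G.Adj v c := by
    intro b c hbR hcR hbc
    have hcu : c ≠ u := by
      rintro rfl
      exact hux b hbR.2.1 hbR.2.2 hbc.symm
    have hcv : c ≠ v := by
      rintro rfl
      exact hbR.2.2 hbc.symm
    refine ⟨hcu, hcv, ?_⟩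
    by_contra h
    exact hcR ⟨hcu, hcv, h⟩
  -- D = A
  have hDA : ∀ c, c ≠ u → G.Adj v c → G.Adj u c := by
    intro c hcu hvc
    by_contra huc
    have c1 : ∀ x a, x ≠ u → x ≠ v → ¬ G.Adj v x → a ≠ v → G.Adj u a → G.Adj a x →
        G.Adj a c := by
      intro x a hxu hxv hx hav hua hax
      have hxc : x ≠ c := by
        rintro rfl
        exact hx hvc
      obtain ⟨z, hz1, hz2⟩ := q3_inv (h3 x c hxc)
      have hzu : z ≠ u := by
        rintro rfl
        exact hux x hxv hx hz1.symm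
      have hzv : z ≠ v := by
        rintro rfl
        exact hx hz1.symm
      by_cases hvz : G.Adj v z
      · have := hb x a z hxu hxv hx hav hua hax hzu hvz hz1.symm
        rw [← this]
        exact hz2
      · exfalso
        obtain ⟨a', ha'v, hua', ha'z⟩ := ha z hzu hzv hvz
        have := hb z a' c hzu hzv hvz ha'v hua' ha'z hcu hvc hz2.symm
        rw [this] at huc
        exact huc hua'
    obtain ⟨a, hav, hua, hax⟩ := ha x0 hx0u hx0v hx0
    obtain ⟨b, c', hbR, hcR, hca, hcu', hbc⟩ := no_cut hH hua.ne.symm RR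
      (haR a (hAD a hav hua)) huR (b0 := x0) (c0 := v) ⟨hx0u, hx0v, hx0⟩ hvR hav.symm huv.symm
    obtain ⟨g1, g2, g3⟩ := hnb b c' hbR hcR hbc
    obtain ⟨a', ha'v, hua', ha'b⟩ := ha b hbR.1 hbR.2.1 hbR.2.2
    have h1 := hb b a' c' hbR.1 hbR.2.1 hbR.2.2 ha'v hua' ha'b g1 g3 hbc.symm
    have h2 := c1 x0 a hx0u hx0v hx0 hav hua hax
    have h3' := c1 b a' hbR.1 hbR.2.1 hbR.2.2 ha'v hua' ha'b
    have hcv : c ≠ v := fun h => by
      rw [h] at hvc
      exact G.loopless.irrefl v hvc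
    have haa : a ≠ a' := by
      rintro rfl
      exact hca h1
    exact key2 h5 huv hav hua hua'.ne.symm (hAD a' ha'v hua') haa hcu hcv h2 h3'.symm
  -- three vertices of A with neighbours in R
  obtain ⟨a1, ha1v, hua1, ha1x⟩ := ha x0 hx0u hx0v hx0
  obtain ⟨x2, a2, hx2, ha2R, ha21, ha2u, hxa2⟩ := no_cut hH hua1.ne.symm RR
    (haR a1 (hAD a1 ha1v hua1)) huR (b0 := x0) (c0 := v) ⟨hx0u, hx0v, hx0⟩ hvR ha1v.symm huv.symm
  obtain ⟨g1, g2, g3⟩ := hnb x2 a2 hx2 ha2R hxa2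
  have hua2 := hDA a2 g1 g3
  obtain ⟨x3, a3, hx3, ha3R, ha31, ha32, hxa3⟩ := no_cut hH ha21.symm RR
    (haR a1 (hAD a1 ha1v hua1)) (haR a2 g3) (b0 := x0) (c0 := u) ⟨hx0u, hx0v, hx0⟩ huR
    hua1.ne hua2.ne
  obtain ⟨g4, g5, g6⟩ := hnb x3 a3 hx3 ha3R hxa3
  have hua3 := hDA a3 g4 g6
  have hx0R : x0 ∈ RR := ⟨hx0u, hx0v, hx0⟩
  -- second vertices
  have hsec : ∀ a x, a ≠ v → G.Adj u a → x ∈ RR → G.Adj x a →
      ∃ y, y ∈ RR ∧ y ≠ x ∧ G.Adj y a := by
    intro a x hav hua hx hxa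
    obtain ⟨z, hz1, hz2⟩ := q3_inv (h3 x a hxa.ne)
    by_cases hzR : z ∈ RR
    · exact ⟨z, hzR, hz1.ne.symm, hz2⟩
    · exfalso
      obtain ⟨k1, k2, k3⟩ := hnb x z hx hzR hz1
      have := hb x a z hx.1 hx.2.1 hx.2.2 hav hua hxa.symm k1 k3 hz1.symm
      rw [this] at hz2
      exact G.loopless.irrefl a hz2
  obtain ⟨y1, hy1, hyx1, hya1⟩ := hsec a1 x0 ha1v hua1 hx0R ha1x.symm
  obtain ⟨y2, hy2, hyx2, hya2⟩ := hsec a2 x2 g2 hua2 hx2 hxa2
  obtain ⟨y3, hy3, hyx3, hya3⟩ := hsec a3 x3 g5 hua3 hx3 hxa3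
  have huniq : ∀ a b x, x ∈ RR → a ≠ v → G.Adj u a → G.Adj x a → b ≠ u → G.Adj v b →
      G.Adj x b → b = a := fun a b x hx hav hua hxa hbu hvb hxb =>
    hb x a b hx.1 hx.2.1 hx.2.2 hav hua hxa.symm hbu hvb hxb.symm
  have hd : ∀ a b x y, x ∈ RR → a ≠ v → G.Adj u a → G.Adj x a → b ≠ u → G.Adj v b →
      G.Adj y b → b ≠ a → x ≠ y := by
    intro a b x y hx hav hua hxa hbu hvb hyb hba hxy
    rw [← hxy] at hyb
    exact hba (huniq a b x hx hav hua hxa hbu hvb hyb)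
  have hAR : ∀ a x, G.Adj v a → x ∈ RR → a ≠ x := fun a x h1 h2 h => h2.2.2 (h ▸ h1)
  have hva1 := hAD a1 ha1v hua1
  have hnd : [u, v, a1, a2, a3, x0, y1, x2, y2, x3, y3].Nodup := by
    simp only [List.nodup_cons, List.mem_cons, List.not_mem_nil, or_false, not_or,
      List.nodup_nil, and_true, not_false_eq_true]
    refine ⟨⟨huv, hua1.ne, hua2.ne, hua3.ne, hx0u.symm, hy1.1.symm, hx2.1.symm, hy2.1.symm,
      hx3.1.symm, hy3.1.symm⟩, ⟨ha1v.symm, g2.symm, g5.symm, hx0v.symm, hy1.2.1.symm,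
      hx2.2.1.symm, hy2.2.1.symm, hx3.2.1.symm, hy3.2.1.symm⟩,
      ⟨ha21.symm, ha31.symm, hAR _ _ hva1 hx0R, hAR _ _ hva1 hy1, hAR _ _ hva1 hx2,
        hAR _ _ hva1 hy2, hAR _ _ hva1 hx3, hAR _ _ hva1 hy3⟩,
      ⟨ha32.symm, hAR _ _ g3 hx0R, hAR _ _ g3 hy1, hAR _ _ g3 hx2,
        hAR _ _ g3 hy2, hAR _ _ g3 hx3, hAR _ _ g3 hy3⟩,
      ⟨hAR _ _ g6 hx0R, hAR _ _ g6 hy1, hAR _ _ g6 hx2,
        hAR _ _ g6 hy2, hAR _ _ g6 hx3, hAR _ _ g6 hy3⟩,
      ⟨hyx1.symm, hd a1 a2 _ _ hx0R ha1v hua1 ha1x.symm g1 g3 hxa2 ha21,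
        hd a1 a2 _ _ hx0R ha1v hua1 ha1x.symm g1 g3 hya2 ha21,
        hd a1 a3 _ _ hx0R ha1v hua1 ha1x.symm g4 g6 hxa3 ha31,
        hd a1 a3 _ _ hx0R ha1v hua1 ha1x.symm g4 g6 hya3 ha31⟩,
      ⟨hd a1 a2 _ _ hy1 ha1v hua1 hya1 g1 g3 hxa2 ha21,
        hd a1 a2 _ _ hy1 ha1v hua1 hya1 g1 g3 hya2 ha21,
        hd a1 a3 _ _ hy1 ha1v hua1 hya1 g4 g6 hxa3 ha31,
        hd a1 a3 _ _ hy1 ha1v hua1 hya1 g4 g6 hya3 ha31⟩,
      ⟨hyx2.symm, hd a2 a3 _ _ hx2 g2 hua2 hxa2 g4 g6 hxa3 ha32,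
        hd a2 a3 _ _ hx2 g2 hua2 hxa2 g4 g6 hya3 ha32⟩,
      ⟨hd a2 a3 _ _ hy2 g2 hua2 hya2 g4 g6 hxa3 ha32,
        hd a2 a3 _ _ hy2 g2 hua2 hya2 g4 g6 hya3 ha32⟩, hyx3.symm⟩
  have := hnd.length_le_card
  simpa using this

/-- Order five: if `P_3` and `P_n` hold and `P_5` fails then there are at least 11 vertices. -/
theorem five (h3 : HasP G 3) (hH : HasP G (Fintype.card V)) (hn : 5 ≤ Fintype.card V)
    (huv : u ≠ v) (h5 : ¬ Q G 5 u v) : 11 ≤ Fintype.card V := by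
  by_cases hAD : ∀ x, x ≠ v → G.Adj u x → G.Adj v x
  · exact five_aux h3 hH hn huv h5 hAD
  by_cases hDA : ∀ x, x ≠ u → G.Adj v x → G.Adj u x
  · exact five_aux h3 hH hn huv.symm (fun h => h5 h.symm) hDA
  exfalso
  push Not at hAD hDA
  obtain ⟨a, hav, hua, hva⟩ := hAD
  obtain ⟨c, hcu, hvc, huc⟩ := hDA
  have hac : a ≠ c := by
    rintro rfl
    exact hva hvc
  obtain ⟨z, hz1, hz2⟩ := q3_inv (h3 a c hac)
  exact key2 h5 huv hav hua hcu hvc hac (fun h => huc (h ▸ hz2)) (fun h => hva (h ▸ hz1.symm))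
    hz1 hz2

end five

/-! ## Order six -/

section six

variable {G : SimpleGraph V} {u v : V}

theorem p1 (h6 : ¬ Q G 6 u v) (huv : u ≠ v) {x a b : V} (hxu : x ≠ u) (hxv : x ≠ v)
    (hux : ¬ G.Adj u x) (hvx : ¬ G.Adj v x) (hav : a ≠ v) (hua : G.Adj u a) (hax : G.Adj a x)
    (hbu : b ≠ u) (hvb : G.Adj v b) (hbx : G.Adj b x) (hab : a ≠ b) (z : V) (hxz : G.Adj x z)
    (hza : G.Adj z a) : z = b := by
  by_contra hzb
  apply h6
  have hzu : z ≠ u := by rintro rfl; exact hux hxz.symm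
  have hzv : z ≠ v := by rintro rfl; exact hvx hxz.symm
  apply q6 hua hza.symm hxz.symm hbx.symm hvb.symm
  simp only [List.nodup_cons, List.mem_cons, List.not_mem_nil, or_false, not_or,
    List.nodup_nil, and_true, not_false_eq_true]
  exact ⟨⟨hua.ne, hzu.symm, hxu.symm, hbu.symm, huv⟩, ⟨hza.ne.symm, hax.ne, hab, hav⟩,
    ⟨hxz.ne.symm, hzb, hzv⟩, ⟨hbx.ne.symm, hxv⟩, hvb.ne.symm⟩

theorem p2 (h6 : ¬ Q G 6 u v) (huv : u ≠ v) {x a b : V} (hxu : x ≠ u) (hxv : x ≠ v)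
    (hux : ¬ G.Adj u x) (hvx : ¬ G.Adj v x) (hav : a ≠ v) (hua : G.Adj u a) (hax : G.Adj a x)
    (hbu : b ≠ u) (hvb : G.Adj v b) (hbx : G.Adj b x) (hab : a ≠ b) (z : V) (hxz : G.Adj x z)
    (hzb : G.Adj z b) : z = a :=
  p1 (fun h => h6 h.symm) huv.symm hxv hxu hvx hux hbu hvb hbx hav hua hax hab.symm z hxz hzb

/-- two adjacent vertices not adjacent to `u`, `v` -/
theorem p3 (h6 : ¬ Q G 6 u v) (huv : u ≠ v) {x y a b : V} (hxu : x ≠ u) (hxv : x ≠ v)
    (_hux : ¬ G.Adj u x) (hvx : ¬ G.Adj v x) (hyu : y ≠ u) (hyv : y ≠ v)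
    (huy : ¬ G.Adj u y) (hvy : ¬ G.Adj v y) (hxy : G.Adj x y) (hav : a ≠ v) (hua : G.Adj u a)
    (hax : G.Adj a x) (hbu : b ≠ u) (hvb : G.Adj v b) (hby : G.Adj b y) : a = b := by
  by_contra hab
  apply h6
  apply q6 hua hax hxy hby.symm hvb.symm
  have hay : a ≠ y := by rintro rfl; exact huy hua
  have hxb : x ≠ b := by rintro rfl; exact hvx hvb
  simp only [List.nodup_cons, List.mem_cons, List.not_mem_nil, or_false, not_or,
    List.nodup_nil, and_true, not_false_eq_true]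
  exact ⟨⟨hua.ne, hxu.symm, hyu.symm, hbu.symm, huv⟩, ⟨hax.ne, hay, hab, hav⟩,
    ⟨hxy.ne, hxb, hxv⟩, ⟨hby.ne.symm, hyv⟩, hvb.ne.symm⟩

/-- Order six: `P_3` and `P_n` imply `P_6` for `n ≥ 7`. -/
theorem six [Fintype V] (h3 : HasP G 3) (hH : HasP G (Fintype.card V)) (hn : 7 ≤ Fintype.card V)
    (huv : u ≠ v) : Q G 6 u v := by
  classical
  by_contra h6
  have ha : ∀ x, x ≠ u → ¬ G.Adj v x → ∃ a, a ≠ v ∧ G.Adj u a ∧ G.Adj a x := by
    intro x hxu hx
    obtain ⟨z, h1, h2⟩ := q3_inv (h3 u x hxu.symm)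
    exact ⟨z, fun h => hx (h ▸ h2), h1, h2⟩
  have hb : ∀ x, x ≠ v → ¬ G.Adj u x → ∃ a, a ≠ u ∧ G.Adj v a ∧ G.Adj a x := by
    intro x hxv hx
    obtain ⟨z, h1, h2⟩ := q3_inv (h3 v x hxv.symm)
    exact ⟨z, fun h => hx (h ▸ h2), h1, h2⟩
  -- claim 1
  have claim1 : ∀ x a b, x ≠ u → x ≠ v → ¬ G.Adj u x → ¬ G.Adj v x → a ≠ v → G.Adj u a →
      G.Adj a x → b ≠ u → G.Adj v b → G.Adj b x → a = b := by
    intro x a b hxu hxv hux hvx hav hua hax hbu hvb hbx
    by_contra hab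
    have hno : ∀ y, y ≠ u → y ≠ v → ¬ G.Adj u y → ¬ G.Adj v y → ¬ G.Adj x y := by
      intro y hyu hyv huy hvy hxy
      obtain ⟨a1, ha1v, hua1, ha1y⟩ := ha y hyu hvy
      obtain ⟨b1, hb1u, hvb1, hb1y⟩ := hb y hyv huy
      have e1 := p3 h6 huv hyu hyv huy hvy hxu hxv hux hvx hxy.symm ha1v hua1 ha1y hbu hvb hbx
      have e2 := p3 h6 huv hxu hxv hux hvx hyu hyv huy hvy hxy hav hua hax hb1u hvb1 hb1y
      rw [← e2] at hb1y
      exact hab (p3 h6 huv hyu hyv huy hvy hxu hxv hux hvx hxy.symm hav hua hb1y hbu hvb hbx)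
    obtain ⟨x', c, hx', hcx, hca, hcb, hxc⟩ := no_cut hH hab ({x} : Set V)
      (by simpa using hax.ne) (by simpa using hbx.ne) (b0 := x) (c0 := u) rfl
      (by simpa using hxu.symm) hua.ne hbu.symm
    obtain rfl : x' = x := by simpa using hx'
    have hcu : c ≠ u := by rintro rfl; exact hux hxc.symm
    have hcv : c ≠ v := by rintro rfl; exact hvx hxc.symm
    by_cases huc : G.Adj u c
    · obtain ⟨z, hz1, hz2⟩ := q3_inv (h3 x' b hbx.ne.symm)
      have e1 := p2 h6 huv hxu hxv hux hvx hav hua hax hbu hvb hbx hab z hz1 hz2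
      have e2 := p2 h6 huv hxu hxv hux hvx hcv huc hxc.symm hbu hvb hbx hcb z hz1 hz2
      exact hca (e2.symm.trans e1)
    by_cases hvc : G.Adj v c
    · obtain ⟨z, hz1, hz2⟩ := q3_inv (h3 x' a hax.ne.symm)
      have e1 := p1 h6 huv hxu hxv hux hvx hav hua hax hbu hvb hbx hab z hz1 hz2
      have e2 := p1 h6 huv hxu hxv hux hvx hav hua hax hcu hvc hxc.symm (fun h => hca h.symm)
        z hz1 hz2
      exact hcb (e2.symm.trans e1)
    exact hno c hcu hcv huc hvc hxc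
  -- claim 2
  have claim2 : ∀ x, x ≠ u → x ≠ v → G.Adj u x ∨ G.Adj v x := by
    intro x hxu hxv
    by_contra hcon
    push Not at hcon
    obtain ⟨hux, hvx⟩ := hcon
    obtain ⟨a, hav, hua, hax⟩ := ha x hxu hvx
    obtain ⟨b, hbu, hvb, hbx⟩ := hb x hxv hux
    obtain rfl := claim1 x a b hxu hxv hux hvx hav hua hax hbu hvb hbx
    obtain ⟨b', c, hb', hcB, hca, hcu, hbc⟩ := no_cut hH hbu
      {y | y ≠ u ∧ y ≠ v ∧ ¬ G.Adj u y ∧ ¬ G.Adj v y ∧ G.Adj a y}
      (fun h => G.loopless.irrefl a h.2.2.2.2) (fun h => h.1 rfl) (b0 := x) (c0 := v)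
      ⟨hxu, hxv, hux, hvx, hax⟩ (fun h => h.2.1 rfl) hav.symm huv.symm
    obtain ⟨k1, k2, k3, k4, k5⟩ := hb'
    have hcv : c ≠ v := by rintro rfl; exact k4 hbc.symm
    by_cases huc : G.Adj u c
    · exact hca (claim1 b' c a k1 k2 k3 k4 hcv huc hbc.symm hbu hvb k5)
    by_cases hvc : G.Adj v c
    · exact hca (claim1 b' a c k1 k2 k3 k4 hav hua k5 hcu hvc hbc.symm).symm
    obtain ⟨a2, ha2v, hua2, ha2c⟩ := ha c hcu hvc
    have e := p3 h6 huv hcu hcv huc hvc k1 k2 k3 k4 hbc.symm ha2v hua2 ha2c hbu hvb k5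
    rw [e] at ha2c
    exact hcB ⟨hcu, hcv, huc, hvc, ha2c⟩
  -- the Hamiltonian path
  obtain ⟨f, f0, f1, fa, fi, fs⟩ := ham_enum (hH u v huv)
  set N := Fintype.card V with hN
  have fu : ∀ i, 1 ≤ i → i + 1 < N → f i ≠ u := by
    intro i h1 h2 h
    rw [← f0] at h
    have := fi _ _ (by omega) (by omega) h
    omega
  have fv : ∀ i, 1 ≤ i → i + 1 < N → f i ≠ v := by
    intro i h1 h2 h
    rw [← f1] at h
    have := fi _ _ (by omega) (by omega) h
    omega
  have ff : ∀ i j, i < N → j < N → i ≠ j → f i ≠ f j := fun i j hi hj hij h => hij (fi i j hi hj h)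
  -- four vertex paths of H
  have key : ∀ i j k l, 1 ≤ i → i + 1 < N → 1 ≤ j → j + 1 < N → 1 ≤ k → k + 1 < N → 1 ≤ l →
      l + 1 < N → i ≠ j → i ≠ k → i ≠ l → j ≠ k → j ≠ l → k ≠ l → G.Adj u (f i) →
      G.Adj (f i) (f j) → G.Adj (f j) (f k) → G.Adj (f k) (f l) → G.Adj (f l) v → False := by
    intro i j k l hi hi' hj hj' hk hk' hl hl' n1 n2 n3 n4 n5 n6 e1 e2 e3 e4 e5
    apply h6
    apply q6 e1 e2 e3 e4 e5
    simp only [List.nodup_cons, List.mem_cons, List.not_mem_nil, or_false, not_or,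
      List.nodup_nil, and_true, not_false_eq_true]
    exact ⟨⟨(fu i hi hi').symm, (fu j hj hj').symm, (fu k hk hk').symm, (fu l hl hl').symm, huv⟩,
      ⟨ff i j (by omega) (by omega) n1, ff i k (by omega) (by omega) n2,
        ff i l (by omega) (by omega) n3, fv i hi hi'⟩,
      ⟨ff j k (by omega) (by omega) n4, ff j l (by omega) (by omega) n5, fv j hj hj'⟩,
      ⟨ff k l (by omega) (by omega) n6, fv k hk hk'⟩, fv l hl hl'⟩
  have key1 : ∀ i, 1 ≤ i → i + 4 < N → G.Adj u (f i) → G.Adj v (f (i + 3)) → False := by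
    intro i h1 h2 h3' h4
    exact key i (i + 1) (i + 2) (i + 3) h1 (by omega) (by omega) (by omega) (by omega) (by omega)
      (by omega) (by omega) (by omega) (by omega) (by omega) (by omega) (by omega) (by omega)
      h3' (fa i (by omega)) (fa (i + 1) (by omega)) (fa (i + 2) (by omega)) h4.symm
  have key2' : ∀ i, 1 ≤ i → i + 4 < N → G.Adj v (f i) → G.Adj u (f (i + 3)) → False := by
    intro i h1 h2 h3' h4
    exact key (i + 3) (i + 2) (i + 1) i (by omega) (by omega) (by omega) (by omega) (by omega)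
      (by omega) h1 (by omega) (by omega) (by omega) (by omega) (by omega) (by omega) (by omega)
      h4 (fa (i + 2) (by omega)).symm (fa (i + 1) (by omega)).symm (fa i (by omega)).symm h3'.symm
  obtain ⟨c, huc, hcv⟩ := q3_inv (h3 u v huv)
  obtain ⟨i, hiN, hic⟩ := fs c
  have hi1 : 1 ≤ i := by
    rcases Nat.eq_zero_or_pos i with h | h
    · rw [h, f0] at hic
      rw [← hic] at huc
      exact absurd huc (G.loopless.irrefl u)
    · exact h
  have hi2 : i + 1 < N := by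
    by_contra h
    have : i = N - 1 := by omega
    rw [this, f1] at hic
    rw [← hic] at hcv
    exact G.loopless.irrefl v hcv
  have hi3 : ¬ i + 4 < N := by
    intro h
    rcases claim2 (f (i + 3)) (fu _ (by omega) (by omega)) (fv _ (by omega) (by omega)) with h' | h'
    · exact key2' i hi1 h (hic ▸ hcv.symm) h'
    · exact key1 i hi1 h (hic ▸ huc) h'
  have hi4 : i < 4 := by
    by_contra h
    obtain ⟨j, rfl⟩ := Nat.exists_eq_add_of_le' (show 3 ≤ i by omega)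
    rcases claim2 (f j) (fu _ (by omega) (by omega)) (fv _ (by omega) (by omega)) with h' | h'
    · exact key1 j (by omega) (by omega) h' (hic ▸ hcv.symm)
    · exact key2' j (by omega) (by omega) h' (hic ▸ huc)
  have hN7 : N = 7 := by omega
  have hi5 : i = 3 := by omega
  subst hi5
  have f6 : f 6 = v := by
    rw [← f1]
    congr 1
    omega
  have a12 : G.Adj (f 1) (f 2) := fa 1 (by omega)
  have a23 : G.Adj (f 2) (f 3) := fa 2 (by omega)
  have a34 : G.Adj (f 3) (f 4) := fa 3 (by omega)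
  have a45 : G.Adj (f 4) (f 5) := fa 4 (by omega)
  have u1 : G.Adj u (f 1) := f0 ▸ fa 0 (by omega)
  have v5 : G.Adj v (f 5) := by
    have := fa 5 (by omega)
    rw [f6] at this
    exact this.symm
  have u3 : G.Adj u (f 3) := hic ▸ huc
  have v3 : G.Adj v (f 3) := hic ▸ hcv.symm
  have nv4 : ¬ G.Adj v (f 4) := fun h => key1 1 (by omega) (by omega) u1 h
  have u4 : G.Adj u (f 4) := (claim2 (f 4) (fu 4 (by omega) (by omega))
    (fv 4 (by omega) (by omega))).resolve_right nv4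
  have nv1 : ¬ G.Adj v (f 1) := fun h => key2' 1 (by omega) (by omega) h u4
  have nu2 : ¬ G.Adj u (f 2) := fun h => key1 2 (by omega) (by omega) h v5
  have v2 : G.Adj v (f 2) := (claim2 (f 2) (fu 2 (by omega) (by omega))
    (fv 2 (by omega) (by omega))).resolve_left nu2
  have nu5 : ¬ G.Adj u (f 5) := fun h => key2' 2 (by omega) (by omega) v2 h
  obtain ⟨z, hz1, hz2⟩ := q3_inv (h3 (f 1) (f 5) (ff 1 5 (by omega) (by omega) (by omega)))
  obtain ⟨k, hk, rfl⟩ := fs z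
  have hk7 : k < 7 := by omega
  clear hk
  interval_cases k
  · rw [f0] at hz2
    exact nu5 hz2
  · exact G.loopless.irrefl _ hz1
  · exact key 3 4 5 2 (by omega) (by omega) (by omega) (by omega) (by omega)
      (by omega) (by omega) (by omega) (by omega) (by omega) (by omega)
      (by omega) (by omega) (by omega) u3 a34 a45 hz2.symm v2.symm
  · exact key 1 2 3 5 (by omega) (by omega) (by omega) (by omega) (by omega)
      (by omega) (by omega) (by omega) (by omega) (by omega) (by omega)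
      (by omega) (by omega) (by omega) u1 a12 a23 hz2 v5.symm
  · exact key 4 1 2 3 (by omega) (by omega) (by omega) (by omega) (by omega)
      (by omega) (by omega) (by omega) (by omega) (by omega) (by omega)
      (by omega) (by omega) (by omega) u4 hz1.symm a12 a23 v3.symm
  · exact G.loopless.irrefl _ hz2
  · rw [f6] at hz1
    exact nv1 hz1.symm

end six

end Pool.Agent.R35.PathOrd
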