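import Mathlib
import Pool.Agent.R35.PathOrd

set_option autoImplicit false

/-!
# A graph with paths of all orders except five
-/

namespace Pool.Agent.R35.PathOrd

open Finset

variable {V : Type}

/-- a path with `i` vertices, all in `T` -/
def PI (G : SimpleGraph V) (T : Set V) (i : ℕ) (u v : V) : Prop :=
  ∃ p : G.Walk u v, p.IsPath ∧ p.support.length = i ∧ ∀ z ∈ p.support, z ∈ T

theorem PI.toQ {G : SimpleGraph V} {T : Set V} {i : ℕ} {u v : V} (h : PI G T i u v) :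
    Q G i u v := by
  obtain ⟨p, h1, h2, _⟩ := h
  exact ⟨p, h1, h2⟩

theorem PI.symm {G : SimpleGraph V} {T : Set V} {i : ℕ} {u v : V} (h : PI G T i u v) :
    PI G T i v u := by
  obtain ⟨p, h1, h2, h3⟩ := h
  exact ⟨p.reverse, h1.reverse, by simpa using h2, by simpa using h3⟩

theorem PI.cons {G : SimpleGraph V} {T : Set V} {i : ℕ} {u v w : V} (h : PI G T i u v)
    (hw : G.Adj w u) (hT : w ∉ T) : PI G (insert w T) (i + 1) w v := by
  obtain ⟨p, h1, h2, h3⟩ := h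
  refine ⟨SimpleGraph.Walk.cons hw p, ?_, ?_, ?_⟩
  · rw [SimpleGraph.Walk.cons_isPath_iff]
    exact ⟨h1, fun h => hT (h3 w h)⟩
  · rw [SimpleGraph.Walk.support_cons, List.length_cons, h2]
  · intro z hz
    rw [SimpleGraph.Walk.support_cons, List.mem_cons] at hz
    rcases hz with rfl | hz
    · exact Set.mem_insert _ _
    · exact Set.mem_insert_of_mem _ (h3 z hz)

theorem PI.snoc {G : SimpleGraph V} {T : Set V} {i : ℕ} {u v w : V} (h : PI G T i u v)
    (hw : G.Adj v w) (hT : w ∉ T) : PI G (insert w T) (i + 1) u w :=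
  (h.symm.cons hw.symm hT).symm

theorem PI.two {G : SimpleGraph V} {u v : V} (h : G.Adj u v) : PI G {u, v} 2 u v := by
  refine ⟨SimpleGraph.Walk.cons h SimpleGraph.Walk.nil, ?_, rfl, ?_⟩
  · rw [SimpleGraph.Walk.isPath_def]
    simp [h.ne]
  · simp

theorem PI.mono {G : SimpleGraph V} {T T' : Set V} {i : ℕ} {u v : V} (h : PI G T i u v)
    (hT : T ⊆ T') : PI G T' i u v := by
  obtain ⟨p, h1, h2, h3⟩ := h
  exact ⟨p, h1, h2, fun z hz => hT (h3 z hz)⟩

theorem PI_complete [DecidableEq V] {G : SimpleGraph V} : ∀ (s : ℕ), 2 ≤ s → ∀ (T : Finset V),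
    (∀ x ∈ T, ∀ y ∈ T, x ≠ y → G.Adj x y) → s ≤ T.card → ∀ x ∈ T, ∀ y ∈ T, x ≠ y →
    PI G (T : Set V) s x y := by
  intro s hs
  induction s, hs using Nat.le_induction with
  | base =>
    intro T hT _ x hx y hy hxy
    exact (PI.two (hT x hx y hy hxy)).mono (by
      intro z hz
      rcases hz with rfl | rfl
      · exact hx
      · exact hy)
  | succ s hs ih =>
    intro T hT hc x hx y hy hxy
    have h2 : ({x, y} : Finset V).card < T.card := by
      rw [Finset.card_pair hxy]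
      omega
    obtain ⟨z, hz, hz'⟩ := Finset.exists_mem_notMem_of_card_lt_card h2
    rw [mem_insert, mem_singleton, not_or] at hz'
    have h := ih (T.erase x) (fun a ha b hb => hT a (mem_of_mem_erase ha) b (mem_of_mem_erase hb))
      (by rw [Finset.card_erase_of_mem hx]; omega) z (mem_erase.mpr ⟨hz'.1, hz⟩) y
      (mem_erase.mpr ⟨hxy.symm, hy⟩) hz'.2
    have h' := h.cons (hT x hx z hz (fun h => hz'.1 h.symm)) (by simp)
    refine h'.mono ?_
    intro w hw
    rw [Set.mem_insert_iff] at hw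
    rcases hw with rfl | hw
    · exact hx
    · exact mem_of_mem_erase hw

/-- the configuration -/
structure Cfg (G : SimpleGraph V) (R : Finset V) (p q a b c : V) : Prop where
  pq : G.Adj p q
  pa : G.Adj p a
  pb : G.Adj p b
  pc : G.Adj p c
  qa : G.Adj q a
  qb : G.Adj q b
  qc : G.Adj q c
  pR : p ∉ R
  qR : q ∉ R
  aR : a ∉ R
  bR : b ∉ R
  cR : c ∉ R
  ab : a ≠ b
  ac : a ≠ c
  bc : b ≠ c
  RR : ∀ x ∈ R, ∀ y ∈ R, x ≠ y → G.Adj x y
  a2 : ∀ z, ∃ x ∈ R, x ≠ z ∧ G.Adj a x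
  b2 : ∀ z, ∃ x ∈ R, x ≠ z ∧ G.Adj b x
  c2 : ∀ z, ∃ x ∈ R, x ≠ z ∧ G.Adj c x
  dab : ∀ x ∈ R, G.Adj a x → ¬ G.Adj b x
  dac : ∀ x ∈ R, G.Adj a x → ¬ G.Adj c x
  dbc : ∀ x ∈ R, G.Adj b x → ¬ G.Adj c x
  cov : ∀ x ∈ R, G.Adj a x ∨ G.Adj b x ∨ G.Adj c x
  six : 6 ≤ R.card

namespace Cfg

variable {G : SimpleGraph V} {R : Finset V} {p q a b c : V}

theorem sw (h : Cfg G R p q a b c) : Cfg G R q p a b c :=
  ⟨h.pq.symm, h.qa, h.qb, h.qc, h.pa, h.pb, h.pc, h.qR, h.pR, h.aR, h.bR, h.cR, h.ab, h.ac, h.bc,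
    h.RR, h.a2, h.b2, h.c2, h.dab, h.dac, h.dbc, h.cov, h.six⟩

theorem rot (h : Cfg G R p q a b c) : Cfg G R p q b c a :=
  ⟨h.pq, h.pb, h.pc, h.pa, h.qb, h.qc, h.qa, h.pR, h.qR, h.bR, h.cR, h.aR, h.bc, h.ab.symm,
    h.ac.symm, h.RR, h.b2, h.c2, h.a2, h.dbc, fun x hx h1 h2 => h.dab x hx h2 h1,
    fun x hx h1 h2 => h.dac x hx h2 h1, fun x hx => by
      rcases h.cov x hx with h | h | h
      · exact Or.inr (Or.inr h)
      · exact Or.inl h
      · exact Or.inr (Or.inl h), h.six⟩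

theorem tr (h : Cfg G R p q a b c) : Cfg G R p q b a c :=
  ⟨h.pq, h.pb, h.pa, h.pc, h.qb, h.qa, h.qc, h.pR, h.qR, h.bR, h.aR, h.cR, h.ab.symm, h.bc,
    h.ac, h.RR, h.b2, h.a2, h.c2, fun x hx h1 h2 => h.dab x hx h2 h1, h.dbc, h.dac, fun x hx => by
      rcases h.cov x hx with h | h | h
      · exact Or.inr (Or.inl h)
      · exact Or.inl h
      · exact Or.inr (Or.inr h), h.six⟩

theorem ne_of (h : Cfg G R p q a b c) {x y : V} (hx : x ∈ R) (h1 : G.Adj a x) (h2 : G.Adj b y) :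
    x ≠ y := by
  rintro rfl
  exact h.dab x hx h1 h2

variable [DecidableEq V]

/-- R-segments -/
theorem seg (h : Cfg G R p q a b c) {s : ℕ} (hs : 2 ≤ s) (hs' : s ≤ R.card) {x y : V} (hx : x ∈ R)
    (hy : y ∈ R) (hxy : x ≠ y) : PI G (R : Set V) s x y :=
  PI_complete s hs R h.RR hs' x hx y hy hxy

theorem seg' (h : Cfg G R p q a b c) {s : ℕ} (hs : 2 ≤ s) (hs' : s + 1 ≤ R.card) {w x y : V}
    (hw : w ∈ R) (hx : x ∈ R) (hy : y ∈ R) (hxy : x ≠ y) (hxw : x ≠ w) (hyw : y ≠ w) :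
    PI G ((R.erase w : Finset V) : Set V) s x y :=
  PI_complete s hs (R.erase w) (fun a ha b hb => h.RR a (mem_of_mem_erase ha) b
    (mem_of_mem_erase hb)) (by rw [Finset.card_erase_of_mem hw]; omega) x
    (mem_erase.mpr ⟨hxw, hx⟩) y (mem_erase.mpr ⟨hyw, hy⟩) hxy

/-- pairs `p, a` -/
theorem PA (h : Cfg G R p q a b c) {i : ℕ} (hi : 3 ≤ i) (hi5 : i ≠ 5) (hi' : i ≤ R.card + 5) :
    Q G i p a := by
  have npq := h.pq.ne
  have npa := h.pa.ne
  have npb := h.pb.ne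
  have npc := h.pc.ne
  have nqa := h.qa.ne
  have nqb := h.qb.ne
  have nqc := h.qc.ne
  have nab := h.ab
  have nac := h.ac
  have nbc := h.bc
  have hpR := h.pR
  have hqR := h.qR
  have haR := h.aR
  have hbR := h.bR
  have hcR := h.cR
  have hsix := h.six
  obtain ⟨xa, hxa, -, hxa'⟩ := h.a2 a
  obtain ⟨xb, hxb, -, hxb'⟩ := h.b2 a
  obtain ⟨xc, hxc, -, hxc'⟩ := h.c2 a
  by_cases h3 : i = 3
  · subst h3
    exact q3 h.pq h.qa (by simp [npq, npa, nqa])
  by_cases h4 : i = 4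
  · subst h4
    exact q4 h.pb h.qb.symm h.qa (by simp [npq, npa, npb, nqa, nqb.symm, nab.symm])
  by_cases h6 : i = 6
  · subst h6
    exact (((((h.seg (s := 2) (by omega) (by omega) hxb hxa (h.tr.ne_of hxb hxb' hxa')).cons
      hxb' (by simpa using hbR)).cons h.qb (by simp [nqb, hqR])).cons h.pq
      (by simp [npq, npb, hpR])).snoc hxa'.symm (by simp [npa.symm, nqa.symm, nab, haR])).toQ
  · obtain ⟨s, rfl⟩ := Nat.exists_eq_add_of_le' (show 5 ≤ i by omega)
    exact ((((((h.seg (s := s) (by omega) (by omega) hxc hxa (h.rot.rot.ne_of hxc hxc' hxa')).cons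
      hxc' (by simpa using hcR)).cons h.qc (by simp [nqc, hqR])).cons h.qb.symm
      (by simp [nqb.symm, nbc, hbR])).cons h.pb (by simp [npq, npb, npc, hpR])).snoc hxa'.symm
      (by simp [npa.symm, nqa.symm, nab, nac, haR])).toQ

/-- pairs `p, x` with `x ∈ R` adjacent to `a` -/
theorem PX (h : Cfg G R p q a b c) {i : ℕ} (hi : 3 ≤ i) (hi5 : i ≠ 5) (hi' : i ≤ R.card + 5)
    {x : V} (hx : x ∈ R) (hax : G.Adj a x) : Q G i p x := by
  have npq := h.pq.ne
  have npa := h.pa.ne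
  have npb := h.pb.ne
  have npc := h.pc.ne
  have nqa := h.qa.ne
  have nqb := h.qb.ne
  have nqc := h.qc.ne
  have nab := h.ab
  have nac := h.ac
  have nbc := h.bc
  have hpR := h.pR
  have hqR := h.qR
  have haR := h.aR
  have hbR := h.bR
  have hcR := h.cR
  have hsix := h.six
  have npx : p ≠ x := fun h => hpR (h ▸ hx)
  have nqx : q ≠ x := fun h => hqR (h ▸ hx)
  have nbx : b ≠ x := fun h => hbR (h ▸ hx)
  have ncx : c ≠ x := fun h => hcR (h ▸ hx)
  have nax : a ≠ x := fun h => haR (h ▸ hx)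
  obtain ⟨xa, hxa, hxax, hxa'⟩ := h.a2 x
  obtain ⟨xb, hxb, hxbx, hxb'⟩ := h.b2 x
  obtain ⟨xc, hxc, hxcx, hxc'⟩ := h.c2 x
  by_cases h3 : i = 3
  · subst h3
    exact q3 h.pa hax (by simp [npa, npx, nax])
  by_cases h4 : i = 4
  · subst h4
    exact q4 h.pq h.qa hax (by simp [npq, npa, npx, nqa, nqx, nax])
  by_cases h6 : i < 8
  · obtain ⟨s, rfl⟩ := Nat.exists_eq_add_of_le' (show 3 ≤ i by omega)
    exact ((((h.seg (s := s) (by omega) (by omega) hxb hx hxbx).cons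
      hxb' (by simpa using hbR)).cons h.qb (by simp [nqb, hqR])).cons h.pq
      (by simp [npq, npb, hpR])).toQ
  · obtain ⟨s, rfl⟩ := Nat.exists_eq_add_of_le' (show 6 ≤ i by omega)
    exact (((((((h.seg' (s := s) (by omega) (by omega) hx hxc hxa (h.rot.rot.ne_of hxc hxc' hxa')
      hxcx hxax).cons
      hxc' (by simp [hcR])).cons h.qc (by simp [nqc, hqR])).cons h.qb.symm
      (by simp [nqb.symm, nbc, hbR])).cons h.pb (by simp [npq, npb, npc, hpR])).snoc hxa'.symm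
      (by simp [npa.symm, nqa.symm, nab, nac, haR])).snoc hax
      (by simp [npx.symm, nqx.symm, nax.symm, nbx.symm, ncx.symm])).toQ

/-- pairs `a, b` -/
theorem AB (h : Cfg G R p q a b c) {i : ℕ} (hi : 3 ≤ i) (hi5 : i ≠ 5) (hi' : i ≤ R.card + 5) :
    Q G i a b := by
  have npq := h.pq.ne
  have npa := h.pa.ne
  have npb := h.pb.ne
  have npc := h.pc.ne
  have nqa := h.qa.ne
  have nqb := h.qb.ne
  have nqc := h.qc.ne
  have nab := h.ab
  have nac := h.ac
  have nbc := h.bc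
  have hpR := h.pR
  have hqR := h.qR
  have haR := h.aR
  have hbR := h.bR
  have hcR := h.cR
  have hsix := h.six
  obtain ⟨xa, hxa, -, hxa'⟩ := h.a2 a
  obtain ⟨xb, hxb, -, hxb'⟩ := h.b2 a
  obtain ⟨xc, hxc, -, hxc'⟩ := h.c2 a
  by_cases h3 : i = 3
  · subst h3
    exact q3 h.pa.symm h.pb (by simp [npa.symm, nab, npb])
  by_cases h4 : i = 4
  · subst h4
    exact q4 h.pa.symm h.pq h.qb (by simp [npq, npa.symm, npb, nqa.symm, nqb, nab])
  by_cases h6 : i = 6
  · subst h6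
    exact (((h.seg (s := 4) (by omega) (by omega) hxa hxb (h.ne_of hxa hxa' hxb')).cons
      hxa' (by simpa using haR)).snoc hxb'.symm (by simp [nab.symm, hbR])).toQ
  · obtain ⟨s, rfl⟩ := Nat.exists_eq_add_of_le' (show 5 ≤ i by omega)
    exact ((((((h.seg (s := s) (by omega) (by omega) hxc hxb
      (h.rot.tr.ne_of hxc hxc' hxb')).cons
      hxc' (by simpa using hcR)).cons h.qc (by simp [nqc, hqR])).cons h.pq
      (by simp [npq, npc, hpR])).cons h.pa.symm
      (by simp [npa.symm, nqa.symm, nac, haR])).snoc hxb'.symm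
      (by simp [npb.symm, nqb.symm, nab.symm, nbc, hbR])).toQ

/-- pairs `a, x` with `x ∈ R` -/
theorem AX (h : Cfg G R p q a b c) {i : ℕ} (hi : 3 ≤ i) (hi5 : i ≠ 5) (hi' : i ≤ R.card + 5)
    {x : V} (hx : x ∈ R) : Q G i a x := by
  have npq := h.pq.ne
  have npa := h.pa.ne
  have npb := h.pb.ne
  have npc := h.pc.ne
  have nqa := h.qa.ne
  have nqb := h.qb.ne
  have nqc := h.qc.ne
  have nab := h.ab
  have nac := h.ac
  have nbc := h.bc
  have hpR := h.pR
  have hqR := h.qR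
  have haR := h.aR
  have hbR := h.bR
  have hcR := h.cR
  have hsix := h.six
  obtain ⟨xa, hxa, hxax, hxa'⟩ := h.a2 x
  obtain ⟨xc, hxc, hxcx, hxc'⟩ := h.c2 x
  by_cases h6 : i ≤ 6
  · obtain ⟨s, rfl⟩ := Nat.exists_eq_add_of_le' (show 1 ≤ i by omega)
    exact ((h.seg (s := s) (by omega) (by omega) hxa hx hxax).cons
      hxa' (by simpa using haR)).toQ
  · obtain ⟨s, rfl⟩ := Nat.exists_eq_add_of_le' (show 5 ≤ i by omega)
    exact ((((((h.seg (s := s) (by omega) (by omega) hxc hx hxcx).cons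
      hxc' (by simpa using hcR)).cons h.qc (by simp [nqc, hqR])).cons h.qb.symm
      (by simp [nqb.symm, nbc, hbR])).cons h.pb
      (by simp [npq, npb, npc, hpR])).cons h.pa.symm
      (by simp [npa.symm, nqa.symm, nab, nac, haR])).toQ

/-- pairs `x, y` in `R`, `x` adjacent to `a` -/
theorem XY (h : Cfg G R p q a b c) {i : ℕ} (hi : 3 ≤ i) (hi5 : i ≠ 5) (hi' : i ≤ R.card + 5)
    {x y : V} (hx : x ∈ R) (hy : y ∈ R) (hxy : x ≠ y) (hax : G.Adj a x) : Q G i x y := by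
  have npq := h.pq.ne
  have npa := h.pa.ne
  have npb := h.pb.ne
  have npc := h.pc.ne
  have nqa := h.qa.ne
  have nqb := h.qb.ne
  have nqc := h.qc.ne
  have nab := h.ab
  have nac := h.ac
  have nbc := h.bc
  have hpR := h.pR
  have hqR := h.qR
  have haR := h.aR
  have hbR := h.bR
  have hcR := h.cR
  have hsix := h.six
  have npx : p ≠ x := fun h => hpR (h ▸ hx)
  have nqx : q ≠ x := fun h => hqR (h ▸ hx)
  have nbx : b ≠ x := fun h => hbR (h ▸ hx)
  have ncx : c ≠ x := fun h => hcR (h ▸ hx)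
  have nax : a ≠ x := fun h => haR (h ▸ hx)
  obtain ⟨xb, hxb, hxby, hxb'⟩ := h.b2 y
  have hxbx : xb ≠ x := h.tr.ne_of hxb hxb' hax
  by_cases h3 : i ≤ 4
  · exact (h.seg (s := i) (by omega) (by omega) hx hy hxy).toQ
  by_cases h6 : i < 8
  · obtain ⟨s, rfl⟩ := Nat.exists_eq_add_of_le' (show 4 ≤ i by omega)
    exact (((((h.seg' (s := s) (by omega) (by omega) hx hxb hy hxby hxbx hxy.symm).cons
      hxb' (by simp [hbR])).cons h.pb (by simp [npb, hpR])).cons h.pa.symm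
      (by simp [npa.symm, nab, haR])).cons hax.symm
      (by simp [npx.symm, nax.symm, nbx.symm])).toQ
  · obtain ⟨s, rfl⟩ := Nat.exists_eq_add_of_le' (show 6 ≤ i by omega)
    exact (((((((h.seg' (s := s) (by omega) (by omega) hx hxb hy hxby hxbx hxy.symm).cons
      hxb' (by simp [hbR])).cons h.qb (by simp [nqb, hqR])).cons h.qc.symm
      (by simp [nqc.symm, nbc.symm, hcR])).cons h.pc (by simp [npq, npb, npc, hpR])).cons h.pa.symm
      (by simp [npa.symm, nqa.symm, nab, nac, haR])).cons hax.symm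
      (by simp [npx.symm, nqx.symm, nax.symm, nbx.symm, ncx.symm])).toQ

/-- the pair `p, q`, when `a` and `b` are adjacent -/
theorem PQ (h : Cfg G R p q a b c) (hab : G.Adj a b) {i : ℕ} (hi : 3 ≤ i) (hi5 : i ≠ 5)
    (hi' : i ≤ R.card + 5) : Q G i p q := by
  have npq := h.pq.ne
  have npa := h.pa.ne
  have npb := h.pb.ne
  have npc := h.pc.ne
  have nqa := h.qa.ne
  have nqb := h.qb.ne
  have nqc := h.qc.ne
  have nab := h.ab
  have nac := h.ac
  have nbc := h.bc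
  have hpR := h.pR
  have hqR := h.qR
  have haR := h.aR
  have hbR := h.bR
  have hcR := h.cR
  have hsix := h.six
  obtain ⟨xa, hxa, -, hxa'⟩ := h.a2 a
  obtain ⟨xb, hxb, -, hxb'⟩ := h.b2 a
  obtain ⟨xc, hxc, -, hxc'⟩ := h.c2 a
  by_cases h3 : i = 3
  · subst h3
    exact q3 h.pa h.qa.symm (by simp [npq, npa, nqa.symm])
  by_cases h4 : i = 4
  · subst h4
    exact q4 h.pa hab h.qb.symm (by simp [npq, npa, npb, nqa.symm, nqb.symm, nab])
  by_cases h6 : i = 6
  · subst h6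
    exact (((((h.seg (s := 2) (by omega) (by omega) hxa hxb (h.ne_of hxa hxa' hxb')).cons
      hxa' (by simpa using haR)).cons h.pa (by simp [npa, hpR])).snoc hxb'.symm
      (by simp [npb.symm, nab.symm, hbR])).snoc h.qb.symm
      (by simp [npq.symm, nqa, nqb, hqR])).toQ
  · obtain ⟨s, rfl⟩ := Nat.exists_eq_add_of_le' (show 5 ≤ i by omega)
    exact ((((((h.seg (s := s) (by omega) (by omega) hxb hxc
      (h.rot.ne_of hxb hxb' hxc')).cons
      hxb' (by simpa using hbR)).cons hab (by simp [nab, haR])).cons h.pa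
      (by simp [npa, npb, hpR])).snoc hxc'.symm
      (by simp [npc.symm, nac.symm, nbc.symm, hcR])).snoc h.qc.symm
      (by simp [npq.symm, nqa, nqb, nqc, hqR])).toQ

end Cfg

end Pool.Agent.R35.PathOrd
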