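import Mathlib
import Pool.Agent.R35.Cong

/-!
A path-pairable graph has a system of walks joining all pairs of vertices such that every vertex `v`
is used at most `3 n deg v` times.
-/

set_option autoImplicit false
set_option linter.unusedSectionVars false

namespace Pool.Agent.R35.PathPair

open Finset

variable {V : Type} [Fintype V] [DecidableEq V] {G : SimpleGraph V} [DecidableRel G.Adj]

/-- Path-pairability. -/
def PP {V : Type} (G : SimpleGraph V) : Prop :=
  ∀ (k : ℕ) (s r : Fin k → V), Function.Injective (Sum.elim s r) →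
    ∃ p : (i : Fin k) → G.Walk (s i) (r i),
      (∀ i, (p i).IsPath) ∧ ∀ i j, i ≠ j → ∀ e ∈ (p i).edges, e ∉ (p j).edges

omit [Fintype V] [DecidableRel G.Adj] in
lemma pp_set (h : PP G) (S : Finset V) (r : V → V)
    (hinj : ∀ x ∈ S, ∀ y ∈ S, r x = r y → x = y) (hne : ∀ x ∈ S, ∀ y ∈ S, x ≠ r y) :
    ∃ W : (∀ x, x ∈ S → G.Walk x (r x)),
      ∀ x hx y hy, x ≠ y → ∀ e ∈ (W x hx).edges, e ∉ (W y hy).edges := by
  classical
  obtain ⟨p, -, hp⟩ := h S.card (fun i => (S.equivFin.symm i).1)
    (fun i => r (S.equivFin.symm i).1) (by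
      rintro (i | i) (j | j) hij
      · simp only [Sum.elim_inl] at hij
        have := S.equivFin.symm.injective (Subtype.ext hij)
        rw [this]
      · simp only [Sum.elim_inl, Sum.elim_inr] at hij
        exact absurd hij (hne _ (S.equivFin.symm i).2 _ (S.equivFin.symm j).2)
      · simp only [Sum.elim_inl, Sum.elim_inr] at hij
        exact absurd hij.symm (hne _ (S.equivFin.symm j).2 _ (S.equivFin.symm i).2)
      · simp only [Sum.elim_inr] at hij
        have h1 := hinj _ (S.equivFin.symm i).2 _ (S.equivFin.symm j).2 hij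
        have := S.equivFin.symm.injective (Subtype.ext h1)
        rw [this])
  refine ⟨fun x hx => (p (S.equivFin ⟨x, hx⟩)).copy (by simp) (by simp), ?_⟩
  intro x hx y hy hxy e he
  rw [SimpleGraph.Walk.edges_copy] at he ⊢
  apply hp _ _ _ e he
  intro h1
  apply hxy
  have := S.equivFin.injective h1
  exact congrArg Subtype.val this

/-- every vertex of a walk between different vertices lies on an edge of the walk -/
lemma exists_edge {x y v : V} (p : G.Walk x y) (hxy : x ≠ y) (hv : v ∈ p.support) :
    ∃ e ∈ p.edges, v ∈ e := by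
  rcases SimpleGraph.Walk.mem_support_iff_exists_mem_edges.1 hv with h | h
  · have hv' : v ∈ p.reverse.support := by
      rw [SimpleGraph.Walk.support_reverse, List.mem_reverse]
      exact hv
    rcases SimpleGraph.Walk.mem_support_iff_exists_mem_edges.1 hv' with h' | ⟨e, he, hve⟩
    · exact absurd (h'.symm.trans h) hxy
    · rw [SimpleGraph.Walk.edges_reverse, List.mem_reverse] at he
      exact ⟨e, he, hve⟩
  · exact h

theorem exists_system (h : PP G) (hn : 2 ≤ Fintype.card V) :
    ∃ w : ∀ x y : V, G.Walk x y, ∀ v : V,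
      (univ.filter (fun p : V × V => v ∈ (w p.1 p.2).support.toFinset)).card ≤
        3 * Fintype.card V * G.degree v := by
  classical
  obtain ⟨n, hnn⟩ : ∃ n, n = Fintype.card V := ⟨_, rfl⟩
  haveI : NeZero n := ⟨by omega⟩
  let idx : V → Fin (Fintype.card V) := Fintype.equivFin V
  have hidx : Function.Injective idx := (Fintype.equivFin V).injective
  have hcard : Fintype.card V = Fintype.card (ZMod n) := by rw [ZMod.card, hnn]
  let σ : V ≃ ZMod n := Fintype.equivOfCardEq hcard
  let pt : ZMod n → V → V := fun c x => σ.symm (c - σ x)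
  have hpt : ∀ c x, pt c (pt c x) = x := by
    intro c x
    simp [pt]
  have hpt2 : ∀ x y, pt (σ x + σ y) x = y := by
    intro x y
    simp [pt]
  let S : ZMod n → Finset V := fun c => univ.filter (fun x => idx x < idx (pt c x))
  have hS : ∀ c x, x ∈ S c ↔ idx x < idx (pt c x) := by
    intro c x
    simp [S]
  have hW : ∀ c : ZMod n, ∃ W : (∀ x, x ∈ S c → G.Walk x (pt c x)),
      ∀ x hx y hy, x ≠ y → ∀ e ∈ (W x hx).edges, e ∉ (W y hy).edges := by
    intro c
    apply pp_set h
    · intro x _ y _ hxy
      have := congrArg (pt c) hxy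
      rwa [hpt, hpt] at this
    · intro x hx y hy hxy
      rw [hS] at hx hy
      rw [hxy, hpt] at hx
      exact absurd hx (not_lt.2 hy.le)
  choose W hW using hW
  have hmem : ∀ x y, idx x < idx y → x ∈ S (σ x + σ y) := by
    intro x y hxy
    rw [hS, hpt2]
    exact hxy
  let w0 : ∀ x y : V, idx x < idx y → G.Walk x y := fun x y hxy =>
    (W (σ x + σ y) x (hmem x y hxy)).copy rfl (hpt2 x y)
  let w : ∀ x y : V, G.Walk x y := fun x y =>
    if hxy : idx x < idx y then w0 x y hxy
    else if hyx : idx y < idx x then (w0 y x hyx).reverse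
    else (SimpleGraph.Walk.nil : G.Walk x x).copy rfl
      (hidx (le_antisymm (not_lt.1 hyx) (not_lt.1 hxy)))
  have hw1 : ∀ x y (hxy : idx x < idx y), w x y = w0 x y hxy := by
    intro x y hxy
    simp only [w, hxy, dif_pos]
  have hw2 : ∀ x y (hxy : idx y < idx x), w x y = (w0 y x hxy).reverse := by
    intro x y hxy
    simp only [w, hxy, dif_pos, not_lt.2 hxy.le, dif_neg, not_false_iff]
  have hw3 : ∀ x, (w x x).support = [x] := by
    intro x
    simp only [w, lt_irrefl, dif_neg, not_false_iff]
    simp
  refine ⟨w, fun v => ?_⟩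
  -- the three kinds of pairs
  set L : Finset (V × V) := univ.filter (fun p => idx p.1 < idx p.2 ∧ v ∈ (w p.1 p.2).support)
    with hL
  set R : Finset (V × V) := univ.filter (fun p => idx p.2 < idx p.1 ∧ v ∈ (w p.1 p.2).support)
    with hR
  have hsub : (univ.filter (fun p : V × V => v ∈ (w p.1 p.2).support.toFinset)) ⊆
      (L ∪ R) ∪ {(v, v)} := by
    intro p hp
    rw [mem_filter, List.mem_toFinset] at hp
    rw [mem_union, mem_union, hL, hR, mem_filter, mem_filter]
    rcases lt_trichotomy (idx p.1) (idx p.2) with h1 | h1 | h1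
    · exact Or.inl (Or.inl ⟨mem_univ _, h1, hp.2⟩)
    · right
      have h2 : p.1 = p.2 := hidx h1
      have h3 := hp.2
      rw [← h2, hw3, List.mem_singleton] at h3
      rw [mem_singleton]
      exact Prod.ext h3.symm (h2.symm.trans h3.symm)
    · exact Or.inl (Or.inr ⟨mem_univ _, h1, hp.2⟩)
  have hLc : L.card ≤ n * G.degree v := by
    have h1 : L.card = ∑ c : ZMod n, (L.filter (fun p => σ p.1 + σ p.2 = c)).card :=
      Finset.card_eq_sum_card_fiberwise (fun p _ => mem_univ _)
    rw [h1]
    have h2 : ∀ c : ZMod n, (L.filter (fun p => σ p.1 + σ p.2 = c)).card ≤ G.degree v := by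
      intro c
      have hex : ∀ p : V × V, ∃ e : Sym2 V, p ∈ L → (e ∈ (w p.1 p.2).edges ∧ v ∈ e) := by
        intro p
        by_cases hp : p ∈ L
        · have hp' := hp
          rw [hL, mem_filter] at hp'
          obtain ⟨e, he1, he2⟩ := exists_edge (w p.1 p.2)
            (fun h => by rw [h] at hp'; exact absurd hp'.2.1 (lt_irrefl _)) hp'.2.2
          exact ⟨e, fun _ => ⟨he1, he2⟩⟩
        · exact ⟨s(p.1, p.2), fun h => absurd h hp⟩
      choose e he using hex
      rw [← SimpleGraph.card_incidenceFinset_eq_degree]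
      apply Finset.card_le_card_of_injOn e
      · intro p hp
        rw [Finset.mem_coe, mem_filter] at hp
        obtain ⟨he1, he2⟩ := he p hp.1
        rw [Finset.mem_coe, SimpleGraph.mem_incidenceFinset]
        exact ⟨SimpleGraph.Walk.edges_subset_edgeSet _ he1, he2⟩
      · intro p hp q hq hpq
        rw [Finset.mem_coe, mem_filter] at hp hq
        obtain ⟨hp1, hp2⟩ := hp
        obtain ⟨hq1, hq2⟩ := hq
        obtain ⟨he1, -⟩ := he p hp1
        obtain ⟨hf1, -⟩ := he q hq1
        rw [hL, mem_filter] at hp1 hq1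
        by_contra hne
        have hx : p.1 ≠ q.1 := by
          intro h1
          apply hne
          apply Prod.ext h1
          have : σ p.1 + σ p.2 = σ q.1 + σ q.2 := hp2.trans hq2.symm
          rw [h1] at this
          exact σ.injective (add_left_cancel this)
        rw [hw1 _ _ hp1.2.1] at he1
        rw [hw1 _ _ hq1.2.1, ← hpq] at hf1
        simp only [w0, SimpleGraph.Walk.edges_copy] at he1 hf1
        have key : ∀ (c' : ZMod n) (hc' : c' = c) (x y : V) (hx : x ∈ S c) (hy : y ∈ S c'),
            x ≠ y → ∀ e ∈ (W c x hx).edges, e ∉ (W c' y hy).edges := by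
          intro c' hc' x y hx hy hxy
          subst hc'
          exact hW c' x hx y hy hxy
        subst hp2
        exact key _ hq2 _ _ _ _ hx _ he1 hf1
    calc ∑ c : ZMod n, (L.filter (fun p => σ p.1 + σ p.2 = c)).card
        ≤ ∑ _c : ZMod n, G.degree v := Finset.sum_le_sum (fun c _ => h2 c)
      _ = n * G.degree v := by
        rw [Finset.sum_const, Finset.card_univ, ZMod.card, smul_eq_mul]
  have hRc : R.card ≤ L.card := by
    apply Finset.card_le_card_of_injOn Prod.swap
    · intro p hp
      rw [Finset.mem_coe, hR, mem_filter] at hp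
      rw [Finset.mem_coe, hL, mem_filter]
      obtain ⟨-, h1, h2⟩ := hp
      refine ⟨mem_univ _, h1, ?_⟩
      rw [hw2 _ _ h1, SimpleGraph.Walk.support_reverse, List.mem_reverse] at h2
      simp only [Prod.fst_swap, Prod.snd_swap]
      rw [hw1 _ _ h1]
      exact h2
    · exact Prod.swap_injective.injOn
  have hdeg : 1 ≤ G.degree v := by
    haveI : Nontrivial V := Fintype.one_lt_card_iff_nontrivial.1 (by omega)
    obtain ⟨u, hu⟩ := exists_ne v
    obtain ⟨e, he1, he2⟩ := exists_edge (w v u) hu.symm (w v u).start_mem_support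
    rw [Nat.one_le_iff_ne_zero, ← SimpleGraph.card_incidenceFinset_eq_degree]
    apply Finset.card_ne_zero_of_mem (a := e)
    rw [SimpleGraph.mem_incidenceFinset]
    exact ⟨SimpleGraph.Walk.edges_subset_edgeSet _ he1, he2⟩
  have h1 := Finset.card_le_card hsub
  have h2 := Finset.card_union_le (L ∪ R) ({(v, v)} : Finset (V × V))
  have h3 := Finset.card_union_le L R
  rw [Finset.card_singleton] at h2
  rw [← hnn]
  have h4 : 1 ≤ n * G.degree v := Nat.mul_pos (by omega) hdeg
  nlinarith

end Pool.Agent.R35.PathPair
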