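import Mathlib

set_option autoImplicit false

/-!
# Counting graphs which avoid a pattern on many disjoint sets of pairs
-/

namespace Pool.Agent.R35.RPCount

open Finset

open scoped Classical in
/-- overwrite the pairs in `T` by those of `H` -/
noncomputable def ov {V : Type} (H : SimpleGraph V) (T : Finset (Sym2 V)) (G : SimpleGraph V) :
    SimpleGraph V where
  Adj x y := if s(x, y) ∈ T then H.Adj x y else G.Adj x y
  symm := ⟨by
    intro x y h
    rw [Sym2.eq_swap (a := y) (b := x)]
    split_ifs at h ⊢ with h1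
    · exact h.symm
    · exact h.symm⟩
  loopless := ⟨by
    intro x h
    split_ifs at h with h1
    · exact H.loopless.irrefl x h
    · exact G.loopless.irrefl x h⟩

open scoped Classical in
theorem ov_adj {V : Type} (H : SimpleGraph V) (T : Finset (Sym2 V)) (G : SimpleGraph V) (x y : V) :
    (ov H T G).Adj x y ↔ if s(x, y) ∈ T then H.Adj x y else G.Adj x y := Iff.rfl

theorem ov_mem {V : Type} (H : SimpleGraph V) (T : Finset (Sym2 V)) (G : SimpleGraph V)
    {e : Sym2 V} (he : e ∈ T) : e ∈ (ov H T G).edgeSet ↔ e ∈ H.edgeSet := by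
  induction e with
  | _ x y =>
    rw [SimpleGraph.mem_edgeSet, SimpleGraph.mem_edgeSet, ov_adj, if_pos he]

theorem ov_not_mem {V : Type} (H : SimpleGraph V) (T : Finset (Sym2 V)) (G : SimpleGraph V)
    {e : Sym2 V} (he : e ∉ T) : e ∈ (ov H T G).edgeSet ↔ e ∈ G.edgeSet := by
  induction e with
  | _ x y =>
    rw [SimpleGraph.mem_edgeSet, SimpleGraph.mem_edgeSet, ov_adj, if_neg he]

open scoped Classical in
/-- the graphs which differ from `H` on each of the sets `T i`, `i ∈ J` -/
noncomputable def av {V ι : Type} [Fintype V] (H : SimpleGraph V) (T : ι → Finset (Sym2 V))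
    (J : Finset ι) : Finset (SimpleGraph V) :=
  univ.filter (fun G => ∀ i ∈ J, ∃ e ∈ T i, ¬ (e ∈ G.edgeSet ↔ e ∈ H.edgeSet))

open scoped Classical in
theorem avoid {V ι : Type} [Fintype V] (H : SimpleGraph V) (T : ι → Finset (Sym2 V)) (r : ℕ)
    (J : Finset ι) (hdisj : ∀ i ∈ J, ∀ j ∈ J, i ≠ j → Disjoint (T i) (T j))
    (hcard : ∀ i ∈ J, (T i).card ≤ r) :
    ((av H T J).card : ℝ) ≤ (1 - 1 / 2 ^ r) ^ J.card * (Nat.card (SimpleGraph V) : ℝ) := by
  classical
  rw [Nat.card_eq_fintype_card]
  induction J using Finset.induction_on with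
  | empty =>
    simp only [av, card_empty, pow_zero, one_mul]
    exact_mod_cast Finset.card_le_univ _
  | insert j J hj ih =>
    have ih' := ih (fun i hi k hk => hdisj i (mem_insert_of_mem hi) k (mem_insert_of_mem hk))
      (fun i hi => hcard i (mem_insert_of_mem hi))
    set X := av H T J with hX
    set X' := av H T (insert j J) with hX'
    have hsub : X' ⊆ X := by
      intro G hG
      simp only [hX', hX, av, mem_filter, mem_univ, true_and] at hG ⊢
      exact fun i hi => hG i (mem_insert_of_mem hi)
    have hmaps : ∀ G ∈ X, ov H (T j) G ∈ X \ X' := by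
      intro G hG
      simp only [hX', hX, av, mem_filter, mem_univ, true_and, mem_sdiff] at hG ⊢
      constructor
      · intro i hi
        obtain ⟨e, he, hne⟩ := hG i hi
        have hd := hdisj i (mem_insert_of_mem hi) j (mem_insert_self _ _) (by
          rintro rfl
          exact hj hi)
        have hej : e ∉ T j := fun h => (Finset.disjoint_left.mp hd) he h
        refine ⟨e, he, ?_⟩
        rw [ov_not_mem H (T j) G hej]
        exact hne
      · intro h
        obtain ⟨e, he, hne⟩ := h j (mem_insert_self _ _)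
        exact hne (ov_mem H (T j) G he)
    have hfib : ∀ K ∈ X \ X', (X.filter (fun G => ov H (T j) G = K)).card ≤ 2 ^ r := by
      intro K _
      have h1 : (X.filter (fun G => ov H (T j) G = K)).card ≤ ((T j).powerset).card := by
        apply Finset.card_le_card_of_injOn (fun G => (T j).filter (fun e => e ∈ G.edgeSet))
        · intro G _
          rw [Finset.mem_coe, Finset.mem_powerset]
          exact Finset.filter_subset _ _
        · intro G hG G' hG' heq
          simp only [coe_filter, Set.mem_ofPred_eq] at hG hG'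
          have heq' : (T j).filter (fun e => e ∈ G.edgeSet) =
            (T j).filter (fun e => e ∈ G'.edgeSet) := heq
          have key : ∀ e : Sym2 V, e ∈ G.edgeSet ↔ e ∈ G'.edgeSet := by
            intro e
            by_cases he : e ∈ T j
            · have := congrArg (fun s => e ∈ s) heq'
              simp only [mem_filter, he, true_and, eq_iff_iff] at this
              exact this
            · rw [← ov_not_mem H (T j) G he, ← ov_not_mem H (T j) G' he, hG.2, hG'.2]
          ext x y
          exact key s(x, y)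
      rw [Finset.card_powerset] at h1
      exact h1.trans (Nat.pow_le_pow_right (by norm_num) (hcard j (mem_insert_self _ _)))
    have h2 : X.card ≤ 2 ^ r * (X \ X').card :=
      Finset.card_le_mul_card_image_of_maps_to hmaps _ hfib
    have h3 : (X \ X').card = X.card - X'.card := Finset.card_sdiff_of_subset hsub
    have h4 : X'.card ≤ X.card := Finset.card_le_card hsub
    have h5 : (X.card : ℝ) ≤ 2 ^ r * ((X.card : ℝ) - X'.card) := by
      have : ((X \ X').card : ℝ) = (X.card : ℝ) - X'.card := by
        rw [h3, Nat.cast_sub h4]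
      rw [← this]
      exact_mod_cast h2
    have h2r : (0 : ℝ) < 2 ^ r := by positivity
    have h6 : (X'.card : ℝ) ≤ (1 - 1 / 2 ^ r) * X.card := by
      have : (X.card : ℝ) / 2 ^ r ≤ (X.card : ℝ) - X'.card := by
        rw [div_le_iff₀ h2r]
        linarith
      have h7 : (1 - 1 / (2 : ℝ) ^ r) * X.card = X.card - X.card / 2 ^ r := by ring
      linarith
    have h8 : (0 : ℝ) ≤ 1 - 1 / 2 ^ r := by
      have : (1 : ℝ) ≤ 2 ^ r := one_le_pow₀ (by norm_num)
      have h9 : 1 / (2 : ℝ) ^ r ≤ 1 := by
        rw [div_le_one h2r]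
        exact this
      linarith
    rw [Finset.card_insert_of_notMem hj]
    calc (X'.card : ℝ) ≤ (1 - 1 / 2 ^ r) * X.card := h6
      _ ≤ (1 - 1 / 2 ^ r) * ((1 - 1 / 2 ^ r) ^ J.card * (Fintype.card (SimpleGraph V) : ℝ)) :=
        mul_le_mul_of_nonneg_left ih' h8
      _ = _ := by ring

/-! ## Sum-zero triples -/

open scoped Classical in
/-- the sum-zero triples which meet both `A` and its complement and meet `S` in at most one point -/
noncomputable def tr {V : Type} [AddCommGroup V] [Fintype V] (A S : Finset V) :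
    Finset (Finset V) :=
  univ.filter (fun t => t.card = 3 ∧ ∑ x ∈ t, x = 0 ∧ (t ∩ A).Nonempty ∧ (t \ A).Nonempty ∧
    (t ∩ S).card ≤ 1)

open scoped Classical in
theorem tr_third {V : Type} [AddCommGroup V] {t : Finset V} (h3 : t.card = 3)
    (h0 : ∑ x ∈ t, x = 0) {p q : V} (hp : p ∈ t) (hq : q ∈ t) (hpq : p ≠ q) :
    t = {p, q, -p - q} ∧ -p - q ≠ p ∧ -p - q ≠ q := by
  have h1 : ((t.erase p).erase q).card = 1 := by
    rw [Finset.card_erase_of_mem (Finset.mem_erase.mpr ⟨hpq.symm, hq⟩),
      Finset.card_erase_of_mem hp, h3]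
  obtain ⟨r, hr⟩ := Finset.card_eq_one.mp h1
  have hrm : r ∈ (t.erase p).erase q := by rw [hr]; exact mem_singleton_self r
  rw [Finset.mem_erase, Finset.mem_erase] at hrm
  have h4 : ∑ x ∈ t, x = p + (q + r) := by
    rw [← Finset.add_sum_erase t (fun x => x) hp,
      ← Finset.add_sum_erase (t.erase p) (fun x => x) (Finset.mem_erase.mpr ⟨hpq.symm, hq⟩), hr,
      Finset.sum_singleton]
  have h5 : r = -p - q := by
    rw [h4] at h0
    have : r = (p + (q + r)) - p - q := by abel
    rw [this, h0]
    abel
  refine ⟨?_, ?_, ?_⟩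
  · rw [← h5, ← hr, Finset.insert_erase (Finset.mem_erase.mpr ⟨hpq.symm, hq⟩),
      Finset.insert_erase hp]
  · rw [← h5]; exact hrm.2.1
  · rw [← h5]; exact hrm.1

open scoped Classical in
theorem tr_count {V : Type} [AddCommGroup V] [Fintype V]
    (h2 : ∀ c : V, (univ.filter (fun v : V => v + v = c)).card ≤ 2) (A S : Finset V)
    (hS : S.card ≤ 7) :
    A.card * Aᶜ.card ≤ 2 * (tr A S).card + 3 * A.card + 147 := by
  classical
  set f : V × V → Finset V := fun p => {p.1, p.2, -p.1 - p.2} with hf
  set G0 := (A ×ˢ Aᶜ).filter (fun p => f p ∈ tr A S) with hG0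
  set B1 := (A ×ˢ Aᶜ).filter (fun p => -p.1 - p.2 = p.1) with hB1
  set B2 := (A ×ˢ Aᶜ).filter (fun p => -p.1 - p.2 = p.2) with hB2
  set C1 := S ×ˢ S with hC1
  set C2 := (S ×ˢ S).image (fun p => (p.1, -p.1 - p.2)) with hC2
  set C3 := (S ×ˢ S).image (fun p => (-p.1 - p.2, p.1)) with hC3
  have hcov : A ×ˢ Aᶜ ⊆ G0 ∪ (B1 ∪ (B2 ∪ (C1 ∪ (C2 ∪ C3)))) := by
    rintro ⟨u, v⟩ huv
    have huv' := huv
    rw [Finset.mem_product, Finset.mem_compl] at huv
    obtain ⟨hu, hv⟩ := huv
    simp only at hu hv
    have hne : u ≠ v := by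
      rintro rfl
      exact hv hu
    simp only [Finset.mem_union]
    by_cases h1 : -u - v = u
    · right; left
      rw [hB1, Finset.mem_filter]
      exact ⟨huv', h1⟩
    by_cases h3 : -u - v = v
    · right; right; left
      rw [hB2, Finset.mem_filter]
      exact ⟨huv', h3⟩
    by_cases h4 : (f (u, v) ∩ S).card ≤ 1
    · left
      rw [hG0, Finset.mem_filter]
      refine ⟨huv', ?_⟩
      simp only [tr, mem_filter, mem_univ, true_and]
      refine ⟨?_, ?_, ⟨u, ?_⟩, ⟨v, ?_⟩, h4⟩
      · simp only [hf]
        rw [Finset.card_eq_three]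
        exact ⟨u, v, -u - v, hne, fun h => h1 h.symm, fun h => h3 h.symm, rfl⟩
      · simp only [hf]
        rw [Finset.sum_insert, Finset.sum_insert, Finset.sum_singleton]
        · abel
        · simpa using fun h => h3 h.symm
        · simp only [mem_insert, mem_singleton, not_or]
          exact ⟨hne, fun h => h1 h.symm⟩
      · simp [hf, hu]
      · simp [hf, hv]
    · push Not at h4
      obtain ⟨x, hx, y, hy, hxy⟩ := Finset.one_lt_card.mp h4
      simp only [hf, mem_inter, mem_insert, mem_singleton] at hx hy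
      have hw1 : v = -u - (-u - v) := by abel
      have hw2 : u = -v - (-u - v) := by abel
      have c1 : u ∈ S → v ∈ S → (u, v) ∈ C1 := fun a b => Finset.mem_product.mpr ⟨a, b⟩
      have c2 : u ∈ S → -u - v ∈ S → (u, v) ∈ C2 := fun a b =>
        Finset.mem_image.mpr ⟨(u, -u - v), Finset.mem_product.mpr ⟨a, b⟩, by
          simp only [← hw1]⟩
      have c3 : v ∈ S → -u - v ∈ S → (u, v) ∈ C3 := fun a b =>
        Finset.mem_image.mpr ⟨(v, -u - v), Finset.mem_product.mpr ⟨a, b⟩, by
          simp only [← hw2]⟩
      right; right; right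
      obtain ⟨hx1, hx2⟩ := hx
      obtain ⟨hy1, hy2⟩ := hy
      rcases hx1 with rfl | rfl | rfl <;> rcases hy1 with rfl | rfl | rfl
      · exact absurd rfl hxy
      · exact Or.inl (c1 hx2 hy2)
      · exact Or.inr (Or.inl (c2 hx2 hy2))
      · exact Or.inl (c1 hy2 hx2)
      · exact absurd rfl hxy
      · exact Or.inr (Or.inr (c3 hx2 hy2))
      · exact Or.inr (Or.inl (c2 hy2 hx2))
      · exact Or.inr (Or.inr (c3 hy2 hx2))
      · exact absurd rfl hxy
  have hb1 : B1.card ≤ A.card := by
    apply Finset.card_le_card_of_injOn (fun p => p.1)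
    · intro p hp
      rw [hB1, Finset.mem_coe, Finset.mem_filter, Finset.mem_product] at hp
      exact hp.1.1
    · rintro ⟨a, b⟩ hp ⟨a', b'⟩ hp' heq
      rw [hB1, Finset.mem_coe, Finset.mem_filter] at hp hp'
      simp only at heq hp hp'
      subst heq
      have e1 : b = -a - a := by
        have h := hp.2
        calc b = -a - (-a - b) := by abel
          _ = -a - a := by rw [h]
      have e2 : b' = -a - a := by
        have h := hp'.2
        calc b' = -a - (-a - b') := by abel
          _ = -a - a := by rw [h]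
      rw [e1, e2]
  have hb2 : B2.card ≤ 2 * A.card := by
    apply Finset.card_le_mul_card_image_of_maps_to (f := fun p => p.1) (t := A)
    · intro p hp
      rw [hB2, Finset.mem_filter, Finset.mem_product] at hp
      exact hp.1.1
    · intro a _
      refine le_trans (Finset.card_le_card_of_injOn (fun p => p.2) ?_ ?_) (h2 (-a))
      · intro p hp
        rw [Finset.mem_coe, Finset.mem_filter, hB2, Finset.mem_filter] at hp
        rw [Finset.mem_coe, Finset.mem_filter]
        refine ⟨mem_univ _, ?_⟩
        obtain ⟨⟨_, h⟩, h'⟩ := hp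
        calc p.2 + p.2 = p.2 + (-p.1 - p.2) := by rw [h]
          _ = -p.1 := by abel
          _ = -a := by rw [h']
      · rintro ⟨a1, b1⟩ hp ⟨a2, b2⟩ hp' heq
        rw [Finset.mem_coe, Finset.mem_filter] at hp hp'
        simp only at heq hp hp'
        rw [heq, hp.2, hp'.2]
  have hc1 : C1.card ≤ 49 := by
    rw [hC1, Finset.card_product]
    nlinarith
  have hc2 : C2.card ≤ 49 := le_trans Finset.card_image_le (by rw [Finset.card_product]; nlinarith)
  have hc3 : C3.card ≤ 49 := le_trans Finset.card_image_le (by rw [Finset.card_product]; nlinarith)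
  have hg0 : G0.card ≤ 2 * (tr A S).card := by
    apply Finset.card_le_mul_card_image_of_maps_to (f := f) (t := tr A S)
    · intro p hp
      rw [hG0, Finset.mem_filter] at hp
      exact hp.2
    · intro t ht
      have hsub : G0.filter (fun p => f p = t) ⊆ (t ∩ A) ×ˢ (t \ A) := by
        rintro ⟨u, v⟩ hp
        rw [Finset.mem_filter, hG0, Finset.mem_filter, Finset.mem_product, Finset.mem_compl] at hp
        obtain ⟨⟨⟨hu, hv⟩, _⟩, rfl⟩ := hp
        simp only at hu hv
        rw [Finset.mem_product, Finset.mem_inter, Finset.mem_sdiff]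
        simp [hf, hu, hv]
      refine le_trans (Finset.card_le_card hsub) ?_
      rw [Finset.card_product]
      simp only [tr, mem_filter, mem_univ, true_and] at ht
      have h5 : (t ∩ A).card + (t \ A).card = 3 := by
        rw [Finset.card_inter_add_card_sdiff, ht.1]
      have h6 : (t ∩ A).card ≤ 3 := by omega
      interval_cases h : (t ∩ A).card <;> omega
  have hprod : (A ×ˢ Aᶜ).card = A.card * Aᶜ.card := Finset.card_product _ _
  have htot := Finset.card_le_card hcov
  have u1 := Finset.card_union_le G0 (B1 ∪ (B2 ∪ (C1 ∪ (C2 ∪ C3))))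
  have u2 := Finset.card_union_le B1 (B2 ∪ (C1 ∪ (C2 ∪ C3)))
  have u3 := Finset.card_union_le B2 (C1 ∪ (C2 ∪ C3))
  have u4 := Finset.card_union_le C1 (C2 ∪ C3)
  have u5 := Finset.card_union_le C2 C3
  omega

open scoped Classical in
theorem tr_count' {V : Type} [AddCommGroup V] [Fintype V]
    (h2 : ∀ c : V, (univ.filter (fun v : V => v + v = c)).card ≤ 2) (A S : Finset V)
    (hS : S.card ≤ 7) :
    A.card * (Fintype.card V - A.card) ≤ 2 * (tr A S).card + 3 * A.card + 147 := by
  have h := tr_count h2 A S hS
  rw [Finset.card_compl] at h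
  exact h

theorem fin_two {n : ℕ} [NeZero n] (c : Fin n) :
    (univ.filter (fun v : Fin n => v + v = c)).card ≤ 2 := by
  have hsub : (univ.filter (fun v : Fin n => v + v = c)).image Fin.val ⊆
      ({c.val / 2, (c.val + n) / 2} : Finset ℕ) := by
    intro m hm
    rw [Finset.mem_image] at hm
    obtain ⟨v, hv, rfl⟩ := hm
    rw [Finset.mem_filter] at hv
    have h := congrArg Fin.val hv.2
    rw [Fin.val_add] at h
    have hvn := v.isLt
    rw [mem_insert, mem_singleton]
    by_cases hlt : v.val + v.val < n
    · rw [Nat.mod_eq_of_lt hlt] at h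
      left
      omega
    · right
      have : (v.val + v.val) % n = v.val + v.val - n := by
        rw [Nat.mod_eq_sub_mod (by omega), Nat.mod_eq_of_lt (by omega)]
      omega
  have h1 := Finset.card_le_card hsub
  rw [Finset.card_image_of_injective _ Fin.val_injective] at h1
  exact h1.trans Finset.card_le_two

end Pool.Agent.R35.RPCount
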