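import Mathlib
import Pool.Agent.R35.RPCount

set_option autoImplicit false

/-!
# Three typical properties of a random graph
-/

namespace Pool.Agent.R35.RPCount

open Finset Filter Topology

/-- the `i`-th block of seven vertices -/
def blk (n i : ℕ) : Finset (Fin n) := univ.filter (fun v => v.val / 7 = i)

theorem blk_card (n i : ℕ) : (blk n i).card ≤ 7 := by
  have hsub : (blk n i).image Fin.val ⊆ Finset.Ico (7 * i) (7 * i + 7) := by
    intro m hm
    rw [Finset.mem_image] at hm
    obtain ⟨v, hv, rfl⟩ := hm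
    rw [blk, Finset.mem_filter] at hv
    rw [Finset.mem_Ico]
    have := hv.2
    omega
  have h1 := Finset.card_le_card hsub
  rw [Finset.card_image_of_injective _ Fin.val_injective, Nat.card_Ico] at h1
  omega

/-- the gadget: the vertices are a = 0, a' = 1, b = 2, b' = 3, x = 4, y = 5, z = 6 -/
def gad (j k : ℕ) : Bool :=
  decide ((min j k, max j k) ∈ ([(0, 4), (1, 4), (4, 5), (2, 5), (3, 5), (0, 6), (1, 6), (2, 6),
    (3, 6), (4, 6), (5, 6)] : List (ℕ × ℕ)))

theorem gad_symm (j k : ℕ) : gad j k = gad k j := by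
  rw [gad, gad, min_comm, max_comm]

theorem gad_irrefl (j : ℕ) : gad j j = false := by
  simp only [gad, min_self, max_self, List.mem_cons, Prod.mk.injEq, List.not_mem_nil, or_false,
    decide_eq_false_iff_not]
  omega

/-- a gadget on each block -/
def HG (n : ℕ) : SimpleGraph (Fin n) where
  Adj u v := u.val / 7 = v.val / 7 ∧ gad (u.val % 7) (v.val % 7) = true
  symm := ⟨fun u v h => ⟨h.1.symm, by rw [gad_symm]; exact h.2⟩⟩
  loopless := ⟨fun u h => by
    rw [gad_irrefl] at h
    exact Bool.false_ne_true h.2⟩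

/-- the cut graph of `A` -/
def cut {V : Type} (A : Finset V) : SimpleGraph V where
  Adj u v := ¬ (u ∈ A ↔ v ∈ A)
  symm := ⟨fun _ _ h h' => h h'.symm⟩
  loopless := ⟨fun _ h => h Iff.rfl⟩

open scoped Classical in
/-- the pairs of distinct elements of a finite set -/
noncomputable def prs {V : Type} (t : Finset V) : Finset (Sym2 V) :=
  t.offDiag.image (fun p => s(p.1, p.2))

theorem mem_prs {V : Type} {t : Finset V} {x y : V} :
    s(x, y) ∈ prs t ↔ x ∈ t ∧ y ∈ t ∧ x ≠ y := by
  classical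
  rw [prs, Finset.mem_image]
  constructor
  · rintro ⟨⟨p, q⟩, hp, he⟩
    rw [Finset.mem_offDiag] at hp
    simp only at hp he
    rw [Sym2.eq_iff] at he
    rcases he with ⟨rfl, rfl⟩ | ⟨rfl, rfl⟩
    · exact hp
    · exact ⟨hp.2.1, hp.1, hp.2.2.symm⟩
  · intro h
    exact ⟨(x, y), Finset.mem_offDiag.mpr h, rfl⟩

theorem prs_card {V : Type} (t : Finset V) (k : ℕ) (h : t.card ≤ k) :
    (prs t).card ≤ k * (k - 1) := by
  classical
  rw [prs]
  refine le_trans Finset.card_image_le ?_
  rw [Finset.offDiag_card]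
  have : t.card * t.card - t.card = t.card * (t.card - 1) := by
    rw [Nat.mul_sub, mul_one]
  rw [this]
  exact Nat.mul_le_mul h (Nat.sub_le_sub_right h 1)

theorem prs_disj {V : Type} {s t : Finset V}
    (h : ∀ x ∈ s, ∀ y ∈ s, x ≠ y → x ∈ t → y ∈ t → False) :
    Disjoint (prs s) (prs t) := by
  rw [Finset.disjoint_left]
  intro e
  induction e with
  | _ x y =>
    intro h1 h2
    rw [mem_prs] at h1 h2
    exact h x h1.1 y h1.2.1 h1.2.2 h2.1 h2.2.1

/-- The typical property: common neighbours, a gadget, and a good sum-zero triple for each cut. -/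
def Cond (n : ℕ) [NeZero n] (G : SimpleGraph (Fin n)) : Prop :=
  (∀ u v, u ≠ v → ∃ z, G.Adj u z ∧ G.Adj v z) ∧
  ∃ i < n / 7, (∀ u ∈ blk n i, ∀ v ∈ blk n i, u ≠ v → (G.Adj u v ↔ (HG n).Adj u v)) ∧
    ∀ A : Finset (Fin n), A.Nonempty → 2 * A.card ≤ n → ∃ t ∈ tr A (blk n i),
      ∀ x ∈ t, ∀ y ∈ t, x ≠ y → (G.Adj x y ↔ ¬ (x ∈ A ↔ y ∈ A))

/-- number of graphs as a real number -/
noncomputable def NG (n : ℕ) : ℝ := (Nat.card (SimpleGraph (Fin n)) : ℝ)

theorem NG_pos (n : ℕ) : 0 < NG n := by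
  rw [NG, Nat.card_eq_fintype_card]
  exact_mod_cast Fintype.card_pos

open scoped Classical in
/-- no common neighbour of `u` and `v` -/
noncomputable def badA (n : ℕ) (u v : Fin n) : Finset (SimpleGraph (Fin n)) :=
  av ⊤ (fun z => ({s(u, z), s(v, z)} : Finset (Sym2 (Fin n)))) (univ \ {u, v})

theorem badA_card (n : ℕ) (u v : Fin n) (huv : u ≠ v) :
    ((badA n u v).card : ℝ) ≤ (3 / 4) ^ (n - 2) * NG n := by
  classical
  have h := avoid (⊤ : SimpleGraph (Fin n))
    (fun z => ({s(u, z), s(v, z)} : Finset (Sym2 (Fin n)))) 2 (univ \ {u, v}) (by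
      intro z hz z' hz' hne
      rw [Finset.mem_sdiff, mem_insert, mem_singleton, not_or] at hz hz'
      rw [Finset.disjoint_left]
      intro e he he'
      rw [mem_insert, mem_singleton] at he he'
      rcases he with rfl | rfl <;> rcases he' with he' | he' <;> rw [Sym2.eq_iff] at he' <;>
        rcases he' with ⟨h1, h2⟩ | ⟨h1, h2⟩
      · exact hne h2
      · exact hz'.2.1 h1.symm
      · exact huv h1
      · exact hz.2.2 h2
      · exact huv h1.symm
      · exact hz.2.1 h2
      · exact hne h2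
      · exact hz'.2.2 h1.symm) (fun z _ => Finset.card_le_two)
  have hc : (univ \ {u, v} : Finset (Fin n)).card = n - 2 := by
    rw [Finset.card_sdiff_of_subset (subset_univ _), Finset.card_univ, Fintype.card_fin,
      Finset.card_pair huv]
  rw [hc] at h
  have h34 : (1 - 1 / 2 ^ 2 : ℝ) = 3 / 4 := by norm_num
  rw [h34] at h
  unfold badA NG
  convert h

theorem badA_spec (n : ℕ) (u v : Fin n) (G : SimpleGraph (Fin n)) (h : G ∉ badA n u v) :
    ∃ z, G.Adj u z ∧ G.Adj v z := by
  classical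
  simp only [badA, av, mem_filter, mem_univ, true_and] at h
  push Not at h
  obtain ⟨z, hz, hz'⟩ := h
  rw [Finset.mem_sdiff, mem_insert, mem_singleton, not_or] at hz
  have h1 := hz' s(u, z) (by simp)
  have h2 := hz' s(v, z) (by simp)
  rw [SimpleGraph.mem_edgeSet, SimpleGraph.mem_edgeSet, SimpleGraph.top_adj] at h1 h2
  exact ⟨z, h1.mpr (fun h => hz.2.1 h.symm), h2.mpr (fun h => hz.2.2 h.symm)⟩

/-- no gadget -/
noncomputable def badB (n : ℕ) : Finset (SimpleGraph (Fin n)) :=
  av (HG n) (fun i => prs (blk n i)) (range (n / 7))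

theorem badB_card (n : ℕ) :
    ((badB n).card : ℝ) ≤ (1 - 1 / 2 ^ 42) ^ (n / 7) * NG n := by
  have h := avoid (HG n) (fun i => prs (blk n i)) 42 (range (n / 7)) (by
    intro i _ j _ hij
    apply prs_disj
    intro x hx _ _ _ hx' _
    rw [blk, mem_filter] at hx hx'
    exact hij (hx.2.symm.trans hx'.2)) (fun i _ => prs_card _ 7 (blk_card n i))
  rw [Finset.card_range] at h
  exact h

theorem badB_spec (n : ℕ) (G : SimpleGraph (Fin n)) (h : G ∉ badB n) :
    ∃ i < n / 7, (∀ u ∈ blk n i, ∀ v ∈ blk n i, u ≠ v → (G.Adj u v ↔ (HG n).Adj u v)) := by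
  classical
  simp only [badB, av, mem_filter, mem_univ, true_and] at h
  push Not at h
  obtain ⟨i, hi, hz'⟩ := h
  refine ⟨i, mem_range.mp hi, fun u hu v hv huv => ?_⟩
  have h1 := hz' s(u, v) (mem_prs.mpr ⟨hu, hv, huv⟩)
  rw [SimpleGraph.mem_edgeSet, SimpleGraph.mem_edgeSet] at h1
  exact h1

/-- no good triple for the cut `A` and the block `i` -/
noncomputable def badC (n : ℕ) [NeZero n] (i : ℕ) (A : Finset (Fin n)) :
    Finset (SimpleGraph (Fin n)) :=
  av (cut A) (fun t => prs t) (tr A (blk n i))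

theorem badC_card (n : ℕ) [NeZero n] (i : ℕ) (A : Finset (Fin n)) :
    ((badC n i A).card : ℝ) ≤ (63 / 64) ^ (tr A (blk n i)).card * NG n := by
  classical
  have h := avoid (cut A) (fun t => prs t) 6 (tr A (blk n i)) (by
    intro s hs t ht hst
    simp only [tr, mem_filter, mem_univ, true_and] at hs ht
    apply prs_disj
    intro x hx y hy hxy hx' hy'
    apply hst
    rw [(tr_third hs.1 hs.2.1 hx hy hxy).1, (tr_third ht.1 ht.2.1 hx' hy' hxy).1]) (by
      intro t ht
      simp only [tr, mem_filter, mem_univ, true_and] at ht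
      exact prs_card t 3 ht.1.le)
  have h34 : (1 - 1 / 2 ^ 6 : ℝ) = 63 / 64 := by norm_num
  rw [h34] at h
  exact h

theorem badC_spec (n : ℕ) [NeZero n] (i : ℕ) (A : Finset (Fin n)) (G : SimpleGraph (Fin n))
    (h : G ∉ badC n i A) :
    ∃ t ∈ tr A (blk n i), ∀ x ∈ t, ∀ y ∈ t, x ≠ y → (G.Adj x y ↔ ¬ (x ∈ A ↔ y ∈ A)) := by
  classical
  simp only [badC, av, mem_filter, mem_univ, true_and] at h
  push Not at h
  obtain ⟨t, ht, hz'⟩ := h
  refine ⟨t, ht, fun u hu v hv huv => ?_⟩
  have h1 := hz' s(u, v) (mem_prs.mpr ⟨hu, hv, huv⟩)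
  rw [SimpleGraph.mem_edgeSet, SimpleGraph.mem_edgeSet] at h1
  exact h1

theorem pow_tr (n : ℕ) [NeZero n] (hn : 6 ≤ n) (i : ℕ) (A : Finset (Fin n))
    (hA : 2 * A.card ≤ n) :
    (63 / 64 : ℝ) ^ (tr A (blk n i)).card ≤
      (64 / 63) ^ 74 * (((63 / 64 : ℝ) ^ ((n - 6) / 4)) ^ A.card) := by
  classical
  have h := tr_count' (fun c => by convert fin_two c) A (blk n i) (blk_card n i)
  rw [Fintype.card_fin] at h
  set q := (n - 6) / 4 with hq
  have hq4 : 4 * q + 6 ≤ n := by omega
  have hle : q * A.card ≤ (tr A (blk n i)).card + 74 := by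
    have h1 : A.card * (2 * q + 3) ≤ A.card * (n - A.card) := by
      apply Nat.mul_le_mul_left
      omega
    have h2 : A.card * (2 * q + 3) = 2 * (q * A.card) + 3 * A.card := by ring
    omega
  have h1 : (63 / 64 : ℝ) ^ ((tr A (blk n i)).card + 74) ≤ (63 / 64 : ℝ) ^ (q * A.card) :=
    pow_le_pow_of_le_one (by norm_num) (by norm_num) hle
  rw [pow_add, pow_mul] at h1
  have h2 : (64 / 63 : ℝ) ^ 74 * (63 / 64 : ℝ) ^ 74 = 1 := by
    rw [← mul_pow]
    norm_num
  calc (63 / 64 : ℝ) ^ (tr A (blk n i)).card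
      = (64 / 63) ^ 74 * ((63 / 64 : ℝ) ^ (tr A (blk n i)).card * (63 / 64 : ℝ) ^ 74) := by
        rw [mul_comm ((63 / 64 : ℝ) ^ (tr A (blk n i)).card), ← mul_assoc, h2, one_mul]
    _ ≤ _ := mul_le_mul_of_nonneg_left h1 (by positivity)

theorem one_add_pow_le (x : ℝ) (hx : 0 ≤ x) (m : ℕ) (hm : 2 * m * x ≤ 1) :
    (1 + x) ^ m ≤ 1 + 2 * m * x := by
  induction m with
  | zero => simp
  | succ m ih =>
    have hm' : 2 * (m : ℝ) * x ≤ 1 := by
      refine le_trans ?_ hm
      push_cast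
      nlinarith
    have h := ih hm'
    rw [pow_succ]
    have h2 : (1 + x) ^ m * (1 + x) ≤ (1 + 2 * m * x) * (1 + x) :=
      mul_le_mul_of_nonneg_right h (by linarith)
    refine h2.trans ?_
    push_cast
    nlinarith [mul_nonneg hx hx, mul_nonneg (mul_nonneg (Nat.cast_nonneg (α := ℝ) m) hx) hx]

theorem sum_A (n : ℕ) (x : ℝ) (hx : 0 ≤ x) (hnx : 2 * n * x ≤ 1) :
    ∑ A ∈ (univ : Finset (Finset (Fin n))).filter (fun A => A.Nonempty), x ^ A.card ≤
      2 * n * x := by
  classical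
  have h := Fintype.sum_pow_mul_eq_add_pow (Fin n) x (1 : ℝ)
  simp only [one_pow, mul_one] at h
  have h2 : ∑ A : Finset (Fin n), x ^ A.card =
      ∑ A ∈ (univ : Finset (Finset (Fin n))).filter (fun A => A.Nonempty), x ^ A.card + 1 := by
    rw [← Finset.sum_filter_add_sum_filter_not univ (fun A : Finset (Fin n) => A.Nonempty)]
    congr 1
    have : (univ : Finset (Finset (Fin n))).filter (fun A => ¬ A.Nonempty) = {∅} := by
      ext A
      simp [Finset.not_nonempty_iff_eq_empty]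
    rw [this]
    simp
  rw [h2, Fintype.card_fin] at h
  have h3 := one_add_pow_le x hx n hnx
  rw [add_comm x 1] at h
  linarith

/-- all bad graphs -/
noncomputable def bad (n : ℕ) [NeZero n] : Finset (SimpleGraph (Fin n)) := by
  classical
  exact ((univ : Finset (Fin n × Fin n)).filter (fun p => p.1 ≠ p.2)).biUnion
      (fun p => badA n p.1 p.2) ∪
    (badB n ∪ (range (n / 7)).biUnion (fun i =>
      ((univ : Finset (Finset (Fin n))).filter (fun A => A.Nonempty ∧ 2 * A.card ≤ n)).biUnion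
        (fun A => badC n i A)))

theorem bad_spec (n : ℕ) [NeZero n] (G : SimpleGraph (Fin n)) (h : G ∉ bad n) : Cond n G := by
  classical
  simp only [bad, mem_union, mem_biUnion, mem_filter, mem_univ, true_and, not_or, not_exists,
    not_and] at h
  obtain ⟨h1, h2, h3⟩ := h
  refine ⟨fun u v huv => badA_spec n u v G (h1 (u, v) huv), ?_⟩
  obtain ⟨i, hi, hG⟩ := badB_spec n G h2
  refine ⟨i, hi, hG, fun A hA hA2 => ?_⟩
  exact badC_spec n i A G (h3 i (mem_range.mpr hi) A ⟨hA, hA2⟩)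

/-- the error term -/
noncomputable def err (n : ℕ) : ℝ :=
  (n : ℝ) ^ 2 * (3 / 4) ^ (n - 2) + (1 - 1 / 2 ^ 42) ^ (n / 7) +
    n * ((64 / 63) ^ 74 * (2 * n * (63 / 64) ^ ((n - 6) / 4)))

theorem bad_card (n : ℕ) [NeZero n] (hn : 6 ≤ n)
    (hs : 2 * (n : ℝ) * (63 / 64) ^ ((n - 6) / 4) ≤ 1) :
    ((bad n).card : ℝ) ≤ err n * NG n := by
  classical
  have hN := NG_pos n
  have hA : ((((univ : Finset (Fin n × Fin n)).filter (fun p => p.1 ≠ p.2)).biUnion
      (fun p => badA n p.1 p.2)).card : ℝ) ≤ (n : ℝ) ^ 2 * (3 / 4) ^ (n - 2) * NG n := by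
    have h1 : ((((univ : Finset (Fin n × Fin n)).filter (fun p => p.1 ≠ p.2)).biUnion
      (fun p => badA n p.1 p.2)).card : ℝ) ≤
        ∑ p ∈ (univ : Finset (Fin n × Fin n)).filter (fun p => p.1 ≠ p.2),
          ((badA n p.1 p.2).card : ℝ) := by
      exact_mod_cast Finset.card_biUnion_le
    refine h1.trans ?_
    have h2 : ∑ p ∈ (univ : Finset (Fin n × Fin n)).filter (fun p => p.1 ≠ p.2),
          ((badA n p.1 p.2).card : ℝ) ≤
        ∑ _p ∈ (univ : Finset (Fin n × Fin n)).filter (fun p => p.1 ≠ p.2),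
          ((3 / 4) ^ (n - 2) * NG n) := by
      apply Finset.sum_le_sum
      intro p hp
      rw [mem_filter] at hp
      exact badA_card n p.1 p.2 hp.2
    refine h2.trans ?_
    rw [Finset.sum_const, nsmul_eq_mul]
    have h3 : (((univ : Finset (Fin n × Fin n)).filter (fun p => p.1 ≠ p.2)).card : ℝ) ≤
        (n : ℝ) ^ 2 := by
      have := Finset.card_filter_le (univ : Finset (Fin n × Fin n)) (fun p => p.1 ≠ p.2)
      rw [Finset.card_univ, Fintype.card_prod, Fintype.card_fin] at this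
      have h4 : ((((univ : Finset (Fin n × Fin n)).filter (fun p => p.1 ≠ p.2)).card : ℕ) : ℝ) ≤
        ((n * n : ℕ) : ℝ) := by exact_mod_cast this
      refine h4.trans ?_
      push_cast
      nlinarith
    calc _ ≤ (n : ℝ) ^ 2 * ((3 / 4) ^ (n - 2) * NG n) :=
          mul_le_mul_of_nonneg_right h3 (by positivity)
      _ = _ := by ring
  have hB := badB_card n
  have hC : (((range (n / 7)).biUnion (fun i =>
      ((univ : Finset (Finset (Fin n))).filter (fun A => A.Nonempty ∧ 2 * A.card ≤ n)).biUnion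
        (fun A => badC n i A))).card : ℝ) ≤
      n * ((64 / 63) ^ 74 * (2 * n * (63 / 64) ^ ((n - 6) / 4))) * NG n := by
    have h1 : (((range (n / 7)).biUnion (fun i =>
      ((univ : Finset (Finset (Fin n))).filter (fun A => A.Nonempty ∧ 2 * A.card ≤ n)).biUnion
        (fun A => badC n i A))).card : ℝ) ≤ ∑ i ∈ range (n / 7),
        ((((univ : Finset (Finset (Fin n))).filter (fun A => A.Nonempty ∧ 2 * A.card ≤ n)).biUnion
        (fun A => badC n i A)).card : ℝ) := by
      exact_mod_cast Finset.card_biUnion_le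
    refine h1.trans ?_
    have h2 : ∀ i ∈ range (n / 7),
        ((((univ : Finset (Finset (Fin n))).filter (fun A => A.Nonempty ∧ 2 * A.card ≤ n)).biUnion
        (fun A => badC n i A)).card : ℝ) ≤
        (64 / 63) ^ 74 * (2 * n * (63 / 64) ^ ((n - 6) / 4)) * NG n := by
      intro i _
      have h3 : ((((univ : Finset (Finset (Fin n))).filter
          (fun A => A.Nonempty ∧ 2 * A.card ≤ n)).biUnion
          (fun A => badC n i A)).card : ℝ) ≤
          ∑ A ∈ (univ : Finset (Finset (Fin n))).filter (fun A => A.Nonempty ∧ 2 * A.card ≤ n),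
            ((badC n i A).card : ℝ) := by
        exact_mod_cast Finset.card_biUnion_le
      refine h3.trans ?_
      have h4 : ∑ A ∈ (univ : Finset (Finset (Fin n))).filter
            (fun A => A.Nonempty ∧ 2 * A.card ≤ n), ((badC n i A).card : ℝ) ≤
          ∑ A ∈ (univ : Finset (Finset (Fin n))).filter (fun A => A.Nonempty ∧ 2 * A.card ≤ n),
            (64 / 63) ^ 74 * (((63 / 64 : ℝ) ^ ((n - 6) / 4)) ^ A.card) * NG n := by
        apply Finset.sum_le_sum
        intro A hA'
        rw [mem_filter] at hA'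
        exact (badC_card n i A).trans
          (mul_le_mul_of_nonneg_right (pow_tr n hn i A hA'.2.2) hN.le)
      refine h4.trans ?_
      have h5 : ∑ A ∈ (univ : Finset (Finset (Fin n))).filter
            (fun A => A.Nonempty ∧ 2 * A.card ≤ n),
            (64 / 63) ^ 74 * (((63 / 64 : ℝ) ^ ((n - 6) / 4)) ^ A.card) * NG n ≤
          ∑ A ∈ (univ : Finset (Finset (Fin n))).filter (fun A => A.Nonempty),
            (64 / 63) ^ 74 * (((63 / 64 : ℝ) ^ ((n - 6) / 4)) ^ A.card) * NG n := by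
        apply Finset.sum_le_sum_of_subset_of_nonneg
        · intro A hA'
          rw [mem_filter] at hA' ⊢
          exact ⟨hA'.1, hA'.2.1⟩
        · intro A _ _
          positivity
      refine h5.trans ?_
      have h6 := sum_A n ((63 / 64 : ℝ) ^ ((n - 6) / 4)) (by positivity) hs
      rw [← Finset.sum_mul, ← Finset.mul_sum]
      apply mul_le_mul_of_nonneg_right _ hN.le
      exact mul_le_mul_of_nonneg_left h6 (by positivity)
    refine (Finset.sum_le_sum h2).trans ?_
    rw [Finset.sum_const, nsmul_eq_mul, Finset.card_range]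
    have h7 : ((n / 7 : ℕ) : ℝ) ≤ n := by exact_mod_cast Nat.div_le_self n 7
    calc _ ≤ (n : ℝ) * ((64 / 63) ^ 74 * (2 * n * (63 / 64) ^ ((n - 6) / 4)) * NG n) :=
          mul_le_mul_of_nonneg_right h7 (by positivity)
      _ = _ := by ring
  have hu : ((bad n).card : ℝ) ≤ ((((univ : Finset (Fin n × Fin n)).filter
      (fun p => p.1 ≠ p.2)).biUnion (fun p => badA n p.1 p.2)).card : ℝ) +
      (((badB n).card : ℝ) + (((range (n / 7)).biUnion (fun i =>
      ((univ : Finset (Finset (Fin n))).filter (fun A => A.Nonempty ∧ 2 * A.card ≤ n)).biUnion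
        (fun A => badC n i A))).card : ℝ)) := by
    have h1 := Finset.card_union_le (((univ : Finset (Fin n × Fin n)).filter
      (fun p => p.1 ≠ p.2)).biUnion (fun p => badA n p.1 p.2))
      (badB n ∪ (range (n / 7)).biUnion (fun i =>
      ((univ : Finset (Finset (Fin n))).filter (fun A => A.Nonempty ∧ 2 * A.card ≤ n)).biUnion
        (fun A => badC n i A)))
    have h2 := Finset.card_union_le (badB n) ((range (n / 7)).biUnion (fun i =>
      ((univ : Finset (Finset (Fin n))).filter (fun A => A.Nonempty ∧ 2 * A.card ≤ n)).biUnion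
        (fun A => badC n i A)))
    have h3 := h1.trans (Nat.add_le_add_left h2 _)
    exact_mod_cast h3
  rw [err]
  linarith

theorem err_tendsto : Tendsto err atTop (𝓝 0) := by
  have h1 : Tendsto (fun n : ℕ => (n : ℝ) ^ 2 * (3 / 4) ^ (n - 2)) atTop (𝓝 0) := by
    have h := tendsto_pow_const_mul_const_pow_of_abs_lt_one 2 (r := (3 / 4 : ℝ))
      (by rw [abs_of_pos] <;> norm_num)
    have h' : Tendsto (fun n : ℕ => (16 / 9 : ℝ) * ((n : ℝ) ^ 2 * (3 / 4) ^ n)) atTop (𝓝 0) := by
      simpa using h.const_mul (16 / 9 : ℝ)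
    refine h'.congr' ?_
    filter_upwards [eventually_ge_atTop 2] with n hn
    obtain ⟨m, rfl⟩ := Nat.exists_eq_add_of_le hn
    rw [Nat.add_sub_cancel_left, pow_add]
    ring
  have h2 : Tendsto (fun n : ℕ => (1 - 1 / 2 ^ 42 : ℝ) ^ (n / 7)) atTop (𝓝 0) :=
    (tendsto_pow_atTop_nhds_zero_of_lt_one (by norm_num) (by norm_num)).comp
      (Nat.tendsto_div_const_atTop (by norm_num))
  have hq : Tendsto (fun n : ℕ => (n - 6) / 4) atTop atTop :=
    (Nat.tendsto_div_const_atTop (by norm_num)).comp (tendsto_sub_atTop_nat 6)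
  have h3 : Tendsto (fun n : ℕ => (n : ℝ) * ((64 / 63) ^ 74 *
      (2 * n * (63 / 64) ^ ((n - 6) / 4)))) atTop (𝓝 0) := by
    have hp : ∀ k : ℕ, Tendsto (fun q : ℕ => (q : ℝ) ^ k * (63 / 64 : ℝ) ^ q) atTop (𝓝 0) :=
      fun k => tendsto_pow_const_mul_const_pow_of_abs_lt_one k (by rw [abs_of_pos] <;> norm_num)
    have hsum : Tendsto (fun q : ℕ => (2 * (64 / 63) ^ 74) * (16 * ((q : ℝ) ^ 2 * (63 / 64) ^ q) +
        80 * ((q : ℝ) ^ 1 * (63 / 64) ^ q) + 100 * ((q : ℝ) ^ 0 * (63 / 64) ^ q)) : ℕ → ℝ)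
        atTop (𝓝 0) := by
      have := ((((hp 2).const_mul 16).add ((hp 1).const_mul 80)).add
        ((hp 0).const_mul 100)).const_mul (2 * (64 / 63) ^ 74 : ℝ)
      simpa using this
    refine squeeze_zero' (Eventually.of_forall (fun n => by positivity)) ?_ (hsum.comp hq)
    filter_upwards [eventually_ge_atTop 6] with n hn
    simp only [Function.comp]
    have hle : (n : ℝ) ≤ 4 * (((n - 6) / 4 : ℕ) : ℝ) + 10 := by
      have : n ≤ 4 * ((n - 6) / 4) + 10 := by omega
      exact_mod_cast this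
    set q := (n - 6) / 4 with hqd
    have hn0 : (0 : ℝ) ≤ n := Nat.cast_nonneg n
    have hsq : (n : ℝ) * n ≤ (4 * (q : ℝ) + 10) * (4 * (q : ℝ) + 10) :=
      mul_le_mul hle hle hn0 (by positivity)
    have hpos : (0 : ℝ) ≤ (2 * (64 / 63) ^ 74) * (63 / 64) ^ q := by positivity
    calc (n : ℝ) * ((64 / 63) ^ 74 * (2 * n * (63 / 64) ^ q))
        = ((2 * (64 / 63) ^ 74) * (63 / 64) ^ q) * ((n : ℝ) * n) := by ring
      _ ≤ ((2 * (64 / 63) ^ 74) * (63 / 64) ^ q) * ((4 * (q : ℝ) + 10) * (4 * (q : ℝ) + 10)) :=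
        mul_le_mul_of_nonneg_left hsq hpos
      _ = _ := by ring
  have h := (h1.add h2).add h3
  simp only [add_zero] at h
  exact h

theorem whp (P : ∀ n : ℕ, SimpleGraph (Fin n) → Prop)
    (hP : ∀ (n : ℕ) [NeZero n] (G : SimpleGraph (Fin n)), Cond n G → P n G) :
    Tendsto (fun n : ℕ => (Nat.card {G : SimpleGraph (Fin n) // P n G} : ℝ) /
      (Nat.card (SimpleGraph (Fin n)) : ℝ)) atTop (𝓝 1) := by
  classical
  have hlow : ∀ᶠ n : ℕ in atTop, 1 - err n ≤ (Nat.card {G : SimpleGraph (Fin n) // P n G} : ℝ) /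
      (Nat.card (SimpleGraph (Fin n)) : ℝ) := by
    have hs : ∀ᶠ n : ℕ in atTop, 2 * (n : ℝ) * (63 / 64) ^ ((n - 6) / 4) ≤ 1 := by
      have h := err_tendsto.eventually (gt_mem_nhds (show (0 : ℝ) < 1 by norm_num))
      filter_upwards [h, eventually_ge_atTop 6] with n hn hn6
      rw [err] at hn
      have h1 : (0 : ℝ) ≤ (n : ℝ) ^ 2 * (3 / 4) ^ (n - 2) := by positivity
      have h2 : (0 : ℝ) ≤ (1 - 1 / 2 ^ 42) ^ (n / 7) := by
        apply pow_nonneg
        norm_num
      have h3 : (1 : ℝ) ≤ n := by exact_mod_cast (by omega : 1 ≤ n)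
      have h4 : (1 : ℝ) ≤ (64 / 63) ^ 74 := one_le_pow₀ (by norm_num)
      have h5 : (0 : ℝ) ≤ 2 * (n : ℝ) * (63 / 64) ^ ((n - 6) / 4) := by positivity
      have h6 : 2 * (n : ℝ) * (63 / 64) ^ ((n - 6) / 4) ≤
          (64 / 63) ^ 74 * (2 * (n : ℝ) * (63 / 64) ^ ((n - 6) / 4)) :=
        le_mul_of_one_le_left h5 h4
      have h7 : (64 / 63) ^ 74 * (2 * (n : ℝ) * (63 / 64) ^ ((n - 6) / 4)) ≤
          n * ((64 / 63) ^ 74 * (2 * (n : ℝ) * (63 / 64) ^ ((n - 6) / 4))) :=
        le_mul_of_one_le_left (h5.trans h6) h3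
      linarith
    filter_upwards [hs, eventually_ge_atTop 6] with n hn hn6
    have : NeZero n := ⟨by omega⟩
    have hb := bad_card n hn6 hn
    have hN := NG_pos n
    rw [Nat.card_eq_fintype_card, Fintype.card_subtype]
    have hc : (univ.filter (fun G : SimpleGraph (Fin n) => ¬ P n G)).card ≤ (bad n).card := by
      apply Finset.card_le_card
      intro G hG
      rw [mem_filter] at hG
      by_contra h
      exact hG.2 (hP n G (bad_spec n G h))
    have hsum := Finset.card_filter_add_card_filter_not (s := (univ : Finset (SimpleGraph (Fin n))))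
      (fun G => P n G)
    rw [Finset.card_univ] at hsum
    have hsum' : ((univ.filter (fun G : SimpleGraph (Fin n) => P n G)).card : ℝ) +
        ((univ.filter (fun G : SimpleGraph (Fin n) => ¬ P n G)).card : ℝ) = NG n := by
      rw [NG, Nat.card_eq_fintype_card]
      exact_mod_cast hsum
    have hc' : ((univ.filter (fun G : SimpleGraph (Fin n) => ¬ P n G)).card : ℝ) ≤
        err n * NG n := le_trans (by exact_mod_cast hc) hb
    change 1 - err n ≤ _ / NG n
    rw [le_div_iff₀ hN]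
    linarith
  have hup : ∀ᶠ n : ℕ in atTop, (Nat.card {G : SimpleGraph (Fin n) // P n G} : ℝ) /
      (Nat.card (SimpleGraph (Fin n)) : ℝ) ≤ 1 := by
    filter_upwards with n
    apply div_le_one_of_le₀
    · rw [Nat.card_eq_fintype_card, Nat.card_eq_fintype_card]
      exact_mod_cast Fintype.card_subtype_le _
    · positivity
  have hl : Tendsto (fun n : ℕ => 1 - err n) atTop (𝓝 1) := by
    simpa using err_tendsto.const_sub 1
  exact tendsto_of_tendsto_of_tendsto_of_le_of_le' hl tendsto_const_nhds hlow hup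

end Pool.Agent.R35.RPCount
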