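import Mathlib

set_option autoImplicit false

/-!
The number of sign patterns of linear forms, via the Sauer-Shelah lemma.
-/

namespace Pool.Agent.R35.SignPatterns

open Finset

/-- A family of patterns of linear forms on a space of dimension d has VC dimension at most d. -/
theorem shatters_card {ι Z : Type} [Fintype ι] [DecidableEq ι] [Fintype Z] (F : ι → Z → ℝ)
    (𝒜 : Finset (Finset ι))
    (h𝒜 : ∀ A ∈ 𝒜, ∃ y : Z → ℝ, ∀ i, i ∈ A ↔ 0 < ∑ z, F i z * y z)
    (s : Finset ι) (hs : 𝒜.Shatters s) : s.card ≤ Fintype.card Z := by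
  classical
  by_contra hcon
  push Not at hcon
  have hdep : ¬ LinearIndependent ℝ (fun i : s => F i) := by
    intro hli
    have := hli.fintype_card_le_finrank
    rw [Fintype.card_coe, Module.finrank_fintype_fun_eq_card] at this
    omega
  rw [Fintype.not_linearIndependent_iff] at hdep
  obtain ⟨c0, hc0, i0, hi0⟩ := hdep
  -- wlog some coefficient is positive
  obtain ⟨c, hc, i1, hi1⟩ : ∃ c : s → ℝ, ∑ i, c i • F i = 0 ∧ ∃ i, 0 < c i := by
    rcases lt_or_gt_of_ne hi0 with h | h
    · refine ⟨fun i => - c0 i, ?_, i0, by simpa using h⟩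
      simp only [neg_smul, Finset.sum_neg_distrib, hc0, neg_zero]
    · exact ⟨c0, hc0, i0, h⟩
  let t : Finset ι := s.filter (fun i => ∃ h : i ∈ s, 0 < c ⟨i, h⟩)
  obtain ⟨A, hA, hAt⟩ := hs (Finset.filter_subset (fun i => ∃ h : i ∈ s, 0 < c ⟨i, h⟩) s)
  obtain ⟨y, hy⟩ := h𝒜 A hA
  have hmem : ∀ i : s, (0 < ∑ z, F i z * y z ↔ 0 < c i) := by
    intro i
    rw [← hy]
    constructor
    · intro hiA
      have h1 : (i : ι) ∈ s ∩ A := Finset.mem_inter.2 ⟨i.2, hiA⟩
      rw [hAt, Finset.mem_filter] at h1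
      obtain ⟨-, h2, h3⟩ := h1
      exact h3
    · intro hci
      have h1 : (i : ι) ∈ s ∩ A := by
        rw [hAt, Finset.mem_filter]
        exact ⟨i.2, i.2, hci⟩
      exact (Finset.mem_inter.1 h1).2
  have hsum : ∑ i : s, c i * ∑ z, F i z * y z = 0 := by
    have h1 : ∑ i : s, c i * ∑ z, F i z * y z = ∑ z, (∑ i : s, c i • F i) z * y z := by
      simp only [Finset.sum_apply, Pi.smul_apply, smul_eq_mul, Finset.sum_mul, Finset.mul_sum]
      rw [Finset.sum_comm]
      apply Finset.sum_congr rfl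
      intro z _
      apply Finset.sum_congr rfl
      intro i _
      ring
    rw [h1, hc]
    simp
  have hpos : 0 < ∑ i : s, c i * ∑ z, F i z * y z := by
    apply Finset.sum_pos'
    · intro i _
      by_cases h : 0 < c i
      · exact (mul_pos h ((hmem i).2 h)).le
      · have h1 : ¬ 0 < ∑ z, F i z * y z := fun h2 => h ((hmem i).1 h2)
        push Not at h h1
        exact mul_nonneg_of_nonpos_of_nonpos h h1
    · exact ⟨i1, Finset.mem_univ _, mul_pos hi1 ((hmem i1).2 hi1)⟩
  linarith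

theorem card_patterns {ι Z : Type} [Fintype ι] [DecidableEq ι] [Fintype Z] (F : ι → Z → ℝ)
    (𝒜 : Finset (Finset ι))
    (h𝒜 : ∀ A ∈ 𝒜, ∃ y : Z → ℝ, ∀ i, i ∈ A ↔ 0 < ∑ z, F i z * y z) :
    𝒜.card ≤ ∑ k ∈ Finset.Iic (Fintype.card Z), (Fintype.card ι).choose k := by
  refine (Finset.card_le_card_shatterer 𝒜).trans ?_
  refine (Finset.card_shatterer_le_sum_vcDim (𝒜 := 𝒜)).trans ?_
  apply Finset.sum_le_sum_of_subset
  intro k hk
  rw [Finset.mem_Iic] at hk ⊢
  refine hk.trans ?_
  unfold Finset.vcDim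
  apply Finset.sup_le
  intro s hs
  exact shatters_card F 𝒜 h𝒜 s (Finset.mem_shatterer.1 hs)

/-- The binomial sum bound. -/
theorem sum_choose_le (d c : ℕ) (hd : 0 < d) (hc : 1 ≤ c) :
    ((∑ k ∈ Finset.Iic d, (c * d).choose k : ℕ) : ℝ) ≤ (Real.exp 1 * c) ^ d := by
  set N := c * d with hN
  have hc0 : (0 : ℝ) < c := by exact_mod_cast hc
  have h1 : (1 + 1 / (c : ℝ)) ^ N ≤ Real.exp 1 ^ d := by
    have e1 : (1 + 1 / (c : ℝ)) ≤ Real.exp (1 / c) := by
      rw [add_comm]; exact Real.add_one_le_exp _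
    calc (1 + 1 / (c : ℝ)) ^ N ≤ Real.exp (1 / c) ^ N := pow_le_pow_left₀ (by positivity) e1 _
      _ = Real.exp 1 ^ d := by
        rw [← Real.exp_nat_mul, ← Real.exp_nat_mul, hN]
        congr 1
        push_cast
        field_simp
  have h2 : ((∑ k ∈ Finset.Iic d, N.choose k : ℕ) : ℝ) ≤
      (c : ℝ) ^ d * (1 + 1 / (c : ℝ)) ^ N := by
    have h3 : (1 + 1 / (c : ℝ)) ^ N = ∑ k ∈ Finset.range (N + 1), (1 / (c : ℝ)) ^ k * N.choose k := by
      rw [add_comm, add_pow]
      apply Finset.sum_congr rfl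
      intro k _
      rw [one_pow, mul_one]
    rw [h3, Finset.mul_sum]
    push_cast
    have hsub : Finset.Iic d ⊆ Finset.range (N + 1) := by
      intro k hk
      rw [Finset.mem_Iic] at hk
      rw [Finset.mem_range]
      have : d ≤ N := by rw [hN]; exact Nat.le_mul_of_pos_left d hc
      omega
    calc ∑ k ∈ Finset.Iic d, (N.choose k : ℝ) ≤
        ∑ k ∈ Finset.Iic d, (c : ℝ) ^ d * ((1 / (c : ℝ)) ^ k * N.choose k) := by
          apply Finset.sum_le_sum
          intro k hk
          rw [Finset.mem_Iic] at hk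
          rw [← mul_assoc]
          apply le_mul_of_one_le_left (Nat.cast_nonneg _)
          rw [one_div, inv_pow, ← div_eq_mul_inv, one_le_div (by positivity)]
          exact pow_le_pow_right₀ (by exact_mod_cast hc) hk
      _ ≤ _ := by
          apply Finset.sum_le_sum_of_subset_of_nonneg hsub
          intro k _ _
          positivity
  refine h2.trans ?_
  rw [mul_pow, mul_comm]
  exact mul_le_mul_of_nonneg_right h1 (by positivity)

end Pool.Agent.R35.SignPatterns
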